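import Pool.Agent.H41.RM.Sharp

/-! # Second moments for functions of a random number -/

set_option autoImplicit false
set_option linter.unusedSectionVars false

open Finset Filter Topology MeasureTheory ProbabilityTheory

namespace H41.NL

open H41.SW H41.RM

variable {Ω : Type*} [MeasurableSpace Ω] (μ : Measure Ω) [IsProbabilityMeasure μ]
  (ξ : ℕ → Ω → ℝ)

theorem second_gen (D : ℕ → Ω → ℂ) (hDm : ∀ n, Measurable (D n)) (hDn : ∀ n ω, ‖D n ω‖ ≤ 2)
    (N Q : ℕ) (horth : ∀ m n, m + Q ≤ n → ∫ ω, D n ω * (starRingEnd ℂ) (D m ω) ∂μ = 0) :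
    ∫ ω, ‖∑ n ∈ range N, D n ω‖ ^ 2 ∂μ ≤ 8 * Q * N := by
  classical
  have hcs : Continuous fun z : ℂ => (starRingEnd ℂ) z := continuous_star
  have hpm : ∀ n m, Measurable fun ω => D n ω * (starRingEnd ℂ) (D m ω) := fun n m =>
    (hDm n).mul (hcs.measurable.comp (hDm m))
  have hpn : ∀ n m ω, ‖D n ω * (starRingEnd ℂ) (D m ω)‖ ≤ 4 := by
    intro n m ω
    rw [norm_mul, RCLike.norm_conj]
    nlinarith [hDn n ω, hDn m ω, norm_nonneg (D n ω), norm_nonneg (D m ω)]
  have h1 : ((∫ ω, ‖∑ n ∈ range N, D n ω‖ ^ 2 ∂μ : ℝ) : ℂ) =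
      ∑ n ∈ range N, ∑ m ∈ range N, ∫ ω, D n ω * (starRingEnd ℂ) (D m ω) ∂μ := by
    rw [← integral_complex_ofReal]
    have e1 : ∀ ω, (((‖∑ n ∈ range N, D n ω‖ ^ 2 : ℝ)) : ℂ) =
        ∑ n ∈ range N, ∑ m ∈ range N, D n ω * (starRingEnd ℂ) (D m ω) := by
      intro ω
      have e2 := Complex.mul_conj' (∑ n ∈ range N, D n ω)
      rw [map_sum, sum_mul_sum] at e2
      rw [e2]
      push_cast
      rfl
    simp_rw [e1]
    rw [integral_finsetSum]
    · refine sum_congr rfl fun n _ => ?_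
      rw [integral_finsetSum]
      intro m _
      exact integ μ _ (hpm n m) 4 (hpn n m)
    · intro n _
      exact integrable_finsetSum _ fun m _ => integ μ _ (hpm n m) 4 (hpn n m)
  have h2 : ∀ n m, ‖∫ ω, D n ω * (starRingEnd ℂ) (D m ω) ∂μ‖ ≤
      if n < m + Q ∧ m < n + Q then 4 else 0 := by
    intro n m
    by_cases hc : n < m + Q ∧ m < n + Q
    · rw [if_pos hc]
      refine (norm_integral_le_integral_norm _).trans ?_
      refine (integral_mono_of_nonneg (Eventually.of_forall fun ω => norm_nonneg _)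
        (integrable_const (4 : ℝ)) (Eventually.of_forall fun ω => hpn n m ω)).trans ?_
      simp
    · rw [if_neg hc]
      have h3 : m + Q ≤ n ∨ n + Q ≤ m := by omega
      rcases h3 with h3 | h3
      · rw [horth m n h3, norm_zero]
      · have e3 : ∫ ω, D n ω * (starRingEnd ℂ) (D m ω) ∂μ =
            (starRingEnd ℂ) (∫ ω, D m ω * (starRingEnd ℂ) (D n ω) ∂μ) := by
          rw [← integral_conj]
          refine integral_congr_ae (Eventually.of_forall fun ω => ?_)
          simp only [map_mul, Complex.conj_conj]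
          ring
        rw [e3, horth n m h3, map_zero, norm_zero]
  have h3 : ∫ ω, ‖∑ n ∈ range N, D n ω‖ ^ 2 ∂μ ≤
      ∑ n ∈ range N, ∑ m ∈ range N, if n < m + Q ∧ m < n + Q then (4 : ℝ) else 0 := by
    have e1 : ‖((∫ ω, ‖∑ n ∈ range N, D n ω‖ ^ 2 ∂μ : ℝ) : ℂ)‖ =
        ∫ ω, ‖∑ n ∈ range N, D n ω‖ ^ 2 ∂μ := by
      rw [Complex.norm_real, Real.norm_of_nonneg]
      exact integral_nonneg fun ω => by positivity
    rw [← e1, h1]
    refine (norm_sum_le _ _).trans (sum_le_sum fun n _ => ?_)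
    exact (norm_sum_le _ _).trans (sum_le_sum fun m _ => h2 n m)
  have h4 : ∑ n ∈ range N, ∑ m ∈ range N, (if n < m + Q ∧ m < n + Q then (4 : ℝ) else 0) ≤ 8 * Q * N := by
    calc ∑ n ∈ range N, ∑ m ∈ range N, (if n < m + Q ∧ m < n + Q then (4 : ℝ) else 0)
        ≤ ∑ n ∈ range N, 8 * (Q : ℝ) := by
          refine sum_le_sum fun n _ => ?_
          rw [← sum_filter, sum_const, nsmul_eq_mul]
          have h5 : (#((range N).filter fun m => n < m + Q ∧ m < n + Q) : ℝ) ≤ 2 * Q := by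
            exact_mod_cast near_count N Q n
          linarith
      _ = 8 * Q * N := by rw [sum_const, card_range, nsmul_eq_mul]; ring
  exact h3.trans h4

lemma cont_ph (hm : ∀ j, Measurable (ξ j)) (c : ℕ → ℝ) (lo hi : ℕ) :
    Continuous fun a => ph μ ξ c a lo hi := by
  unfold ph
  refine continuous_of_dominated (bound := fun _ => (1 : ℝ)) (fun a => ?_) (fun a => ?_) ?_ ?_
  · exact (meas_e_part' ξ hm c _ a).aestronglyMeasurable
  · exact Eventually.of_forall fun ω => (e_norm _).le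
  · exact integrable_const _
  · exact Eventually.of_forall fun ω => cont_e.comp (continuous_id.mul continuous_const)

/-- the centred term, as a function of the sequence of the digits -/
noncomputable def DN (f g : ℝ → ℝ) (c : ℕ → ℝ) (a : ℝ) (lo hi : ℕ) (φ : ℕ → ℝ) : ℂ :=
  e (a * f (∑ j ∈ range lo, c j * φ j)) *
    (e (a * g (∑ j ∈ range lo, c j * φ j) * ∑ j ∈ Ico lo hi, c j * φ j) -
      ph μ ξ c (a * g (∑ j ∈ range lo, c j * φ j)) lo hi)

lemma norm_DN (f g : ℝ → ℝ) (c : ℕ → ℝ) (a : ℝ) (lo hi : ℕ) (φ : ℕ → ℝ) :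
    ‖DN μ ξ f g c a lo hi φ‖ ≤ 2 := by
  unfold DN
  rw [norm_mul, e_norm, one_mul]
  refine (norm_sub_le _ _).trans ?_
  rw [e_norm]
  have := norm_ph μ ξ c (a * g (∑ j ∈ range lo, c j * φ j)) lo hi
  linarith

lemma meas_sum (c : ℕ → ℝ) (S : Finset ℕ) : Measurable fun φ : ℕ → ℝ => ∑ j ∈ S, c j * φ j :=
  Finset.measurable_fun_sum _ fun j _ => (measurable_pi_apply j).const_mul _

lemma meas_DN (hm : ∀ j, Measurable (ξ j)) (f g : ℝ → ℝ) (hf : Measurable f) (hg : Measurable g)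
    (c : ℕ → ℝ) (a : ℝ) (lo hi : ℕ) : Measurable (DN μ ξ f g c a lo hi) := by
  unfold DN
  have h1 := meas_sum c (range lo)
  have h2 := meas_sum c (Ico lo hi)
  have h3 : Measurable fun φ : ℕ → ℝ => a * g (∑ j ∈ range lo, c j * φ j) := (hg.comp h1).const_mul a
  refine Measurable.mul (cont_e.measurable.comp ((hf.comp h1).const_mul a)) (Measurable.sub ?_ ?_)
  · exact cont_e.measurable.comp (h3.mul h2)
  · exact (cont_ph μ ξ hm c lo hi).measurable.comp h3

theorem orthN (hm : ∀ j, Measurable (ξ j)) (hind : iIndepFun ξ μ) (f g : ℝ → ℝ) (hf : Measurable f)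
    (hg : Measurable g) (c : ℕ → ℝ) (a a' : ℝ) (lo hi lo' hi' : ℕ) (h : hi' ≤ lo) (h' : lo' ≤ hi') :
    ∫ ω, DN μ ξ f g c a lo hi (fun j => ξ j ω) *
      (starRingEnd ℂ) (DN μ ξ f g c a' lo' hi' (fun j => ξ j ω)) ∂μ = 0 := by
  classical
  have hdis : Disjoint (range lo) (Ico lo hi) := by
    rw [Finset.disjoint_left]
    intro j hj hj'
    rw [mem_range] at hj
    rw [mem_Ico] at hj'
    omega
  have hI := hind.indepFun_finset (range lo) (Ico lo hi) hdis hm
  obtain ⟨U, hU⟩ : ∃ U : Ω → (↥(range lo) → ℝ), U = fun (ω : Ω) (i : ↥(range lo)) => ξ (i : ℕ) ω := ⟨_, rfl⟩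
  obtain ⟨V, hV⟩ : ∃ V : Ω → (↥(Ico lo hi) → ℝ), V = fun (ω : Ω) (i : ↥(Ico lo hi)) => ξ (i : ℕ) ω := ⟨_, rfl⟩
  have hUm : Measurable U := by rw [hU]; exact measurable_pi_lambda _ fun i => hm i
  have hVm : Measurable V := by rw [hV]; exact measurable_pi_lambda _ fun i => hm i
  have hUV : IndepFun U V μ := by rw [hU, hV]; exact hI
  obtain ⟨ext, hext⟩ : ∃ ext : (↥(range lo) → ℝ) → ℕ → ℝ,
    ext = fun u j => if hj : j ∈ range lo then u ⟨j, hj⟩ else 0 := ⟨_, rfl⟩
  have hextm : Measurable ext := by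
    rw [hext]
    refine measurable_pi_lambda _ fun j => ?_
    by_cases hj : j ∈ range lo
    · simp only [hj, dif_pos]
      exact measurable_pi_apply _
    · simp only [hj]
      exact measurable_const
  have hextU : ∀ ω, ∀ j < lo, ext (U ω) j = ξ j ω := by
    intro ω j hj
    rw [hext, hU]
    simp only
    rw [dif_pos (mem_range.2 hj)]
  obtain ⟨s, hs⟩ : ∃ s : (↥(range lo) → ℝ) → ℝ, s = fun u => ∑ j ∈ range lo, c j * ext u j := ⟨_, rfl⟩
  have hsm : Measurable s := by rw [hs]; exact (meas_sum c (range lo)).comp hextm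
  have hsU : ∀ ω, s (U ω) = ∑ j ∈ range lo, c j * ξ j ω := by
    intro ω
    rw [hs]
    exact sum_congr rfl fun j hj => by rw [hextU ω j (mem_range.1 hj)]
  obtain ⟨t, ht⟩ : ∃ t : (↥(Ico lo hi) → ℝ) → ℝ, t = fun v => ∑ i : ↥(Ico lo hi), c i * v i := ⟨_, rfl⟩
  have htm : Measurable t := by
    rw [ht]
    exact Finset.measurable_fun_sum _ fun j _ => (measurable_pi_apply j).const_mul _
  have htV : ∀ ω, t (V ω) = ∑ j ∈ Ico lo hi, c j * ξ j ω := by
    intro ω
    rw [ht, hV]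
    exact Finset.sum_coe_sort (Ico lo hi) (fun j => c j * ξ j ω)
  have hDm : ∀ ω, DN μ ξ f g c a' lo' hi' (fun j => ξ j ω) = DN μ ξ f g c a' lo' hi' (ext (U ω)) := by
    intro ω
    unfold DN
    have e1 : ∑ j ∈ range lo', c j * ξ j ω = ∑ j ∈ range lo', c j * ext (U ω) j :=
      sum_congr rfl fun j hj => by rw [hextU ω j (by rw [mem_range] at hj; omega)]
    have e2 : ∑ j ∈ Ico lo' hi', c j * ξ j ω = ∑ j ∈ Ico lo' hi', c j * ext (U ω) j :=
      sum_congr rfl fun j hj => by rw [hextU ω j (by rw [mem_Ico] at hj; omega)]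
    rw [e1, e2]
  obtain ⟨P, hP⟩ : ∃ P : (↥(range lo) → ℝ) → ℂ, P = fun u =>
    e (a * f (s u)) * (starRingEnd ℂ) (DN μ ξ f g c a' lo' hi' (ext u)) := ⟨_, rfl⟩
  have hcs : Continuous fun z : ℂ => (starRingEnd ℂ) z := continuous_star
  have hPm : Measurable P := by
    rw [hP]
    exact (cont_e.measurable.comp ((hf.comp hsm).const_mul a)).mul
      (hcs.measurable.comp ((meas_DN μ ξ hm f g hf hg c a' lo' hi').comp hextm))
  have hPn : ∀ u, ‖P u‖ ≤ 2 := by
    intro u
    rw [hP]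
    simp only
    rw [norm_mul, e_norm, one_mul, RCLike.norm_conj]
    exact norm_DN μ ξ f g c a' lo' hi' _
  obtain ⟨H, hH⟩ : ∃ H : (↥(range lo) → ℝ) × (↥(Ico lo hi) → ℝ) → ℂ, H = fun p =>
    P p.1 * (e (a * g (s p.1) * t p.2) - ph μ ξ c (a * g (s p.1)) lo hi) := ⟨_, rfl⟩
  have hga : Measurable fun p : (↥(range lo) → ℝ) × (↥(Ico lo hi) → ℝ) => a * g (s p.1) :=
    (hg.comp (hsm.comp measurable_fst)).const_mul a
  have hHm : Measurable H := by
    rw [hH]
    refine (hPm.comp measurable_fst).mul (Measurable.sub ?_ ?_)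
    · exact cont_e.measurable.comp (hga.mul (htm.comp measurable_snd))
    · exact (cont_ph μ ξ hm c lo hi).measurable.comp hga
  have hHn : ∀ p, ‖H p‖ ≤ 4 := by
    intro p
    rw [hH]
    simp only
    rw [norm_mul]
    have h1 := hPn p.1
    have h2 : ‖e (a * g (s p.1) * t p.2) - ph μ ξ c (a * g (s p.1)) lo hi‖ ≤ 2 := by
      refine (norm_sub_le _ _).trans ?_
      rw [e_norm]
      have := norm_ph μ ξ c (a * g (s p.1)) lo hi
      linarith
    calc ‖P p.1‖ * ‖e (a * g (s p.1) * t p.2) - ph μ ξ c (a * g (s p.1)) lo hi‖ ≤ 2 * 2 := by gcongr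
      _ = 4 := by norm_num
  have e0 : ∀ ω, DN μ ξ f g c a lo hi (fun j => ξ j ω) *
      (starRingEnd ℂ) (DN μ ξ f g c a' lo' hi' (fun j => ξ j ω)) = H (U ω, V ω) := by
    intro ω
    rw [hDm ω, hH, hP]
    simp only
    rw [hsU, htV]
    conv_lhs => rw [DN]
    ring
  simp_rw [e0]
  have hmap := (indepFun_iff_map_prod_eq_prod_map_map hUm.aemeasurable hVm.aemeasurable).1 hUV
  have : IsProbabilityMeasure (μ.map U) := Measure.isProbabilityMeasure_map hUm.aemeasurable
  have : IsProbabilityMeasure (μ.map V) := Measure.isProbabilityMeasure_map hVm.aemeasurable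
  have e1 : ∫ ω, H (U ω, V ω) ∂μ = ∫ p, H p ∂(μ.map fun ω => (U ω, V ω)) :=
    (integral_map (hUm.prodMk hVm).aemeasurable hHm.aestronglyMeasurable).symm
  rw [e1, hmap]
  have hint : Integrable H ((μ.map U).prod (μ.map V)) :=
    Integrable.of_bound hHm.aestronglyMeasurable 4 (Eventually.of_forall hHn)
  rw [integral_prod _ hint]
  have e2 : ∀ u, ∫ v, H (u, v) ∂(μ.map V) = 0 := by
    intro u
    rw [hH]
    simp only
    rw [integral_const_mul]
    have h1 : Measurable fun v : (↥(Ico lo hi) → ℝ) => e (a * g (s u) * t v) :=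
      cont_e.measurable.comp (htm.const_mul _)
    have h2 : ∫ v, e (a * g (s u) * t v) ∂(μ.map V) = ph μ ξ c (a * g (s u)) lo hi := by
      rw [integral_map hVm.aemeasurable h1.aestronglyMeasurable]
      unfold ph part
      refine integral_congr_ae (Eventually.of_forall fun ω => ?_)
      simp only
      rw [htV]
    rw [integral_sub (Integrable.of_bound h1.aestronglyMeasurable 1
      (Eventually.of_forall fun v => (e_norm _).le)) (integrable_const _), h2, integral_const]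
    simp
  simp_rw [e2]
  simp

end H41.NL
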