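import Mathlib

/-!
# Branches of algebraic functions over a subfield of the real numbers
-/

set_option autoImplicit false

open Filter Topology Polynomial
open scoped ContDiff

namespace H41.NL

lemma countable_poly (R : Type) [CommRing R] [Countable R] : Countable R[X] := by
  rw [← Cardinal.mk_le_aleph0_iff]
  refine Polynomial.cardinalMk_le_max.trans ?_
  exact max_le (Cardinal.mk_le_aleph0_iff.2 inferInstance) le_rfl

variable {k : Subfield ℝ}

/-- the value of a polynomial in two variables -/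
noncomputable def ev (Q : k[X][X]) (u v : ℝ) : ℝ := eval₂ (aeval u : k[X] →ₐ[k] ℝ).toRingHom v Q

lemma ev_sum (Q : k[X][X]) (u v : ℝ) :
    ev Q u v = ∑ i ∈ Finset.range (Q.natDegree + 1), aeval u (Q.coeff i) * v ^ i := by
  unfold ev
  rw [eval₂_eq_sum_range]
  rfl

lemma ev_contDiff (Q : k[X][X]) : ContDiff ℝ ω fun p : ℝ × ℝ => ev Q p.1 p.2 := by
  have h1 : (fun p : ℝ × ℝ => ev Q p.1 p.2) = fun p : ℝ × ℝ =>
      ∑ i ∈ Finset.range (Q.natDegree + 1), aeval p.1 (Q.coeff i) * p.2 ^ i := by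
    funext p
    exact ev_sum Q p.1 p.2
  rw [h1]
  refine ContDiff.sum fun i _ => ?_
  exact ((contDiff_aeval (Q.coeff i) ω).comp contDiff_fst).mul (contDiff_snd.pow i)

lemma ev_map (Q : k[X][X]) (u v : ℝ) :
    ev Q u v = eval v (Q.map (aeval u : k[X] →ₐ[k] ℝ).toRingHom) := by
  unfold ev
  rw [eval_map]

lemma ev_deriv (Q : k[X][X]) (u v : ℝ) : HasDerivAt (fun v => ev Q u v) (ev (derivative Q) u v) v := by
  have h1 := (Q.map (aeval u : k[X] →ₐ[k] ℝ).toRingHom).hasDerivAt v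
  rw [derivative_map] at h1
  have h2 : (fun v => ev Q u v) = fun v => eval v (Q.map (aeval u : k[X] →ₐ[k] ℝ).toRingHom) := by
    funext v; exact ev_map Q u v
  rw [h2, ev_map]
  exact h1

/-- a relation with nonvanishing derivative -/
lemma exists_min {β y : ℝ} (hβ : Transcendental k β) (h : ∃ Q : k[X][X], Q ≠ 0 ∧ ev Q β y = 0) :
    ∃ Q : k[X][X], Q ≠ 0 ∧ ev Q β y = 0 ∧ ev (derivative Q) β y ≠ 0 := by
  classical
  have hex : ∃ n : ℕ, ∃ Q : k[X][X], Q.natDegree = n ∧ Q ≠ 0 ∧ ev Q β y = 0 := by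
    obtain ⟨Q, h1, h2⟩ := h
    exact ⟨_, Q, rfl, h1, h2⟩
  obtain ⟨Q, hQ1, hQ2, hQ3⟩ := Nat.find_spec hex
  refine ⟨Q, hQ2, hQ3, fun hcon => ?_⟩
  have hdeg : Q.natDegree ≠ 0 := by
    intro h0
    obtain ⟨q, hq⟩ : ∃ q : k[X], Q = C q := ⟨Q.coeff 0, eq_C_of_natDegree_eq_zero h0⟩
    rw [hq] at hQ3
    unfold ev at hQ3
    rw [eval₂_C] at hQ3
    have h1 : q = 0 := by
      by_contra hq0
      exact hβ ⟨q, hq0, hQ3⟩
    rw [hq, h1, C_0] at hQ2
    exact hQ2 rfl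
  have hlt := natDegree_derivative_lt hdeg
  rw [hQ1] at hlt
  have hne : derivative Q ≠ 0 := by
    intro h0
    exact hdeg (derivative_eq_zero.1 h0)
  exact Nat.find_min hex hlt ⟨derivative Q, rfl, hne, hcon⟩

/-- **The branch through a point.** -/
lemma exists_branch (Q : k[X][X]) (β y : ℝ) (h0 : ev Q β y = 0) (h1 : ev (derivative Q) β y ≠ 0) :
    ∃ F : ℝ → ℝ, AnalyticAt ℝ F β ∧ F β = y ∧ (∀ᶠ u in 𝓝 β, ev Q u (F u) = 0) ∧
      ∀ᶠ p : ℝ × ℝ in 𝓝 (β, y), ev Q p.1 p.2 = 0 → p.2 = F p.1 := by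
  obtain ⟨f, hf⟩ : ∃ f : ℝ × ℝ → ℝ, f = fun p => ev Q p.1 p.2 := ⟨_, rfl⟩
  have hcd : ContDiffAt ℝ ω f (β, y) := by rw [hf]; exact (ev_contDiff Q).contDiffAt
  have hfd : HasFDerivAt f (fderiv ℝ f (β, y)) (β, y) := (hcd.differentiableAt (by simp)).hasFDerivAt
  have hcurve : HasDerivAt (fun v : ℝ => (β, v)) ((0 : ℝ), (1 : ℝ)) y :=
    (hasDerivAt_const y β).prodMk (hasDerivAt_id y)
  have hd : fderiv ℝ f (β, y) ((0 : ℝ), (1 : ℝ)) = ev (derivative Q) β y := by
    have h2 : HasDerivAt (f ∘ fun v : ℝ => (β, v)) (fderiv ℝ f (β, y) ((0 : ℝ), (1 : ℝ))) y :=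
      HasFDerivAt.comp_hasDerivAt y hfd hcurve
    have h3 : (f ∘ fun v : ℝ => (β, v)) = fun v => ev Q β v := by
      rw [hf]; rfl
    rw [h3] at h2
    exact h2.unique (ev_deriv Q β y)
  have hinv : (fderiv ℝ f (β, y) ∘L .inr ℝ ℝ ℝ).IsInvertible := by
    refine ⟨ContinuousLinearEquiv.unitsEquivAut ℝ (Units.mk0 _ h1), ?_⟩
    ext
    simp [hd]
  have hne : (ω : WithTop ℕ∞) ≠ 0 := by simp
  refine ⟨hcd.implicitFunction hne hinv, ?_, hcd.implicitFunction_apply_self hne hinv, ?_, ?_⟩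
  · exact (hcd.contDiffAt_implicitFunction hne hinv).analyticAt
  · filter_upwards [hcd.eventually_apply_implicitFunction hne hinv] with u hu
    have h2 : f (β, y) = 0 := by rw [hf]; exact h0
    rw [h2] at hu
    have h3 : ev Q u (hcd.implicitFunction hne hinv u) = f (u, hcd.implicitFunction hne hinv u) :=
      (congrFun hf (u, hcd.implicitFunction hne hinv u)).symm
    rw [h3]; exact hu
  · filter_upwards [hcd.eventually_apply_eq_iff_implicitFunction hne hinv] with p hp h2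
    have h3 : f (β, y) = 0 := by rw [hf]; exact h0
    have h4 : f p = 0 := by
      have : f p = ev Q p.1 p.2 := congrFun hf p
      rw [this]; exact h2
    exact (hp.1 (h4.trans h3.symm)).symm



/-- the second derivative does not vanish -/
def Curved (F : ℝ → ℝ) (u : ℝ) : Prop := ContDiffAt ℝ 2 F u ∧ deriv (deriv F) u ≠ 0

/-- an analytic function on an interval is affine or curved off a countable set -/
lemma curved_or_affine (F : ℝ → ℝ) (s t : ℝ) (hF : AnalyticOnNhd ℝ F (Set.Ioo s t)) :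
    (∀ u ∈ Set.Ioo s t, deriv (deriv F) u = 0) ∨ {u ∈ Set.Ioo s t | ¬ Curved F u}.Countable := by
  have hG : AnalyticOnNhd ℝ (deriv (deriv F)) (Set.Ioo s t) := hF.deriv.deriv
  by_cases h : ∃ u ∈ Set.Ioo s t, deriv (deriv F) =ᶠ[𝓝 u] 0
  · obtain ⟨u, hu, hu'⟩ := h
    left
    have := hG.eqOn_zero_of_preconnected_of_eventuallyEq_zero isPreconnected_Ioo hu hu'
    intro v hv
    exact this hv
  · right
    push Not at h
    refine IsLindelof.countable (HereditarilyLindelofSpace.isLindelof _) ?_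
    rw [discreteTopology_subtype_iff]
    intro u hu
    obtain ⟨hu1, hu2⟩ := hu
    rcases (hG u hu1).eventually_eq_zero_or_eventually_ne_zero with h1 | h1
    · exact absurd h1 (h u hu1)
    · have h2 : ∀ᶠ v in 𝓝[≠] u, v ∉ {u ∈ Set.Ioo s t | ¬ Curved F u} := by
        filter_upwards [h1] with v hv hv'
        exact hv'.2 ⟨(hF v hv'.1).contDiffAt, hv⟩
      rw [← Filter.empty_mem_iff_bot]
      have h3 := Filter.inter_mem_inf h2 (Filter.mem_principal_self {u ∈ Set.Ioo s t | ¬ Curved F u})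
      refine Filter.mem_of_superset h3 ?_
      rintro v ⟨hv1, hv2⟩
      exact hv1 hv2

/-- a function with vanishing second derivative on an interval is affine -/
lemma affine_of_deriv (F : ℝ → ℝ) (s t : ℝ) (hF : AnalyticOnNhd ℝ F (Set.Ioo s t))
    (h : ∀ u ∈ Set.Ioo s t, deriv (deriv F) u = 0) {u v : ℝ} (hu : u ∈ Set.Ioo s t)
    (hv : v ∈ Set.Ioo s t) : F v = F u + deriv F u * (v - u) := by
  have h1 : ∀ w ∈ Set.Ioo s t, deriv F w = deriv F u := fun w hw =>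
    isOpen_Ioo.is_const_of_deriv_eq_zero isPreconnected_Ioo hF.deriv.differentiableOn
      (fun z hz => h z hz) hw hu
  have h2 : ∀ w ∈ Set.Ioo s t, HasDerivAt (fun w => F w - deriv F u * w) 0 w := by
    intro w hw
    have h3 : HasDerivAt (fun w => F w - deriv F u * w) (deriv F w - deriv F u * 1) w :=
      ((hF w hw).differentiableAt.hasDerivAt).sub ((hasDerivAt_id w).const_mul (deriv F u))
    rw [h1 w hw, mul_one, sub_self] at h3
    exact h3
  have h3 : F v - deriv F u * v = F u - deriv F u * u :=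
    isOpen_Ioo.is_const_of_deriv_eq_zero (f := fun w => F w - deriv F u * w) isPreconnected_Ioo
      (fun w hw => (h2 w hw).differentiableAt.differentiableWithinAt)
      (fun w hw => (h2 w hw).deriv) hv hu
  linarith

section

variable {k : Subfield ℝ}

open IntermediateField.algebraAdjoinAdjoin in
lemma exists_rel {β y : ℝ} (h : IsAlgebraic (IntermediateField.adjoin k {β}) y) :
    ∃ Q : k[X][X], Q ≠ 0 ∧ ev Q β y = 0 := by
  have h1 : IsAlgebraic (Algebra.adjoin k {β}) y :=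
    (IsFractionRing.isAlgebraic_iff (Algebra.adjoin k {β}) (IntermediateField.adjoin k {β}) ℝ).2 h
  obtain ⟨p, hp, hp0⟩ := h1
  obtain ⟨ψ, hψd⟩ : ∃ ψ : k[X] →ₐ[k] Algebra.adjoin k {β},
    ψ = aeval ⟨β, Algebra.self_mem_adjoin_singleton k β⟩ := ⟨_, rfl⟩
  have hval : ∀ q : k[X], ((ψ q : Algebra.adjoin k {β}) : ℝ) = aeval β q := by
    intro q
    have h2 := Polynomial.aeval_algHom_apply (Algebra.adjoin k {β}).val
      (⟨β, Algebra.self_mem_adjoin_singleton k β⟩ : Algebra.adjoin k {β}) q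
    rw [hψd]
    exact h2.symm
  have hψ : Function.Surjective ψ := by
    rintro ⟨z, hz⟩
    have hz' : z ∈ (aeval β : k[X] →ₐ[k] ℝ).range := by
      rw [← Algebra.adjoin_singleton_eq_range_aeval]; exact hz
    obtain ⟨q, hq⟩ := hz'
    refine ⟨q, Subtype.ext ?_⟩
    rw [hval]
    exact hq
  obtain ⟨Q, hQ⟩ := map_surjective ψ.toRingHom hψ p
  refine ⟨Q, ?_, ?_⟩
  · rintro rfl
    rw [Polynomial.map_zero] at hQ
    exact hp hQ.symm
  · unfold ev
    have h2 : (aeval β : k[X] →ₐ[k] ℝ).toRingHom =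
        (algebraMap (Algebra.adjoin k {β}) ℝ).comp ψ.toRingHom := by
      refine RingHom.ext fun q => ?_
      exact (hval q).symm
    rw [h2, ← eval₂_map, hQ]
    exact hp0

/-- a branch of the algebraic function `Q (u, v) = 0` in the box `(s', t') × (s, t)` -/
structure Branch (Q : k[X][X]) (s t s' t' : ℚ) (F : ℝ → ℝ) : Prop where
  an : AnalyticOnNhd ℝ F (Set.Ioo (s' : ℝ) t')
  zero : ∀ u ∈ Set.Ioo (s' : ℝ) t', ev Q u (F u) = 0
  uniq : ∀ u ∈ Set.Ioo (s' : ℝ) t', ∀ v ∈ Set.Ioo (s : ℝ) t, ev Q u v = 0 → v = F u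

lemma exists_box (Q : k[X][X]) (β y : ℝ) (h0 : ev Q β y = 0) (h1 : ev (derivative Q) β y ≠ 0) :
    ∃ s t s' t' : ℚ, β ∈ Set.Ioo (s' : ℝ) t' ∧ y ∈ Set.Ioo (s : ℝ) t ∧ ∃ F, Branch Q s t s' t' F := by
  obtain ⟨F, hF1, _, hF3, hF4⟩ := exists_branch Q β y h0 h1
  have hF5 := hF1.eventually_analyticAt
  obtain ⟨ε1, hε1, hA⟩ := Metric.eventually_nhds_iff.1 (hF5.and hF3)
  obtain ⟨ε2, hε2, hB⟩ := Metric.eventually_nhds_iff.1 hF4
  obtain ⟨ε, hε⟩ : ∃ ε, ε = min ε1 ε2 := ⟨_, rfl⟩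
  have hε0 : 0 < ε := by rw [hε]; exact lt_min hε1 hε2
  obtain ⟨s', hs1, hs2⟩ := exists_rat_btwn (show β - ε < β by linarith)
  obtain ⟨t', ht1, ht2⟩ := exists_rat_btwn (show β < β + ε by linarith)
  obtain ⟨s, hs3, hs4⟩ := exists_rat_btwn (show y - ε < y by linarith)
  obtain ⟨t, ht3, ht4⟩ := exists_rat_btwn (show y < y + ε by linarith)
  have hd : ∀ u ∈ Set.Ioo (s' : ℝ) t', |u - β| < ε := by
    intro u hu
    rw [abs_lt]
    constructor <;> linarith [hu.1, hu.2]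
  have hd2 : ∀ v ∈ Set.Ioo (s : ℝ) t, |v - y| < ε := by
    intro u hu
    rw [abs_lt]
    constructor <;> linarith [hu.1, hu.2]
  refine ⟨s, t, s', t', ⟨hs2, ht1⟩, ⟨hs4, ht3⟩, F, ?_, ?_, ?_⟩
  · intro u hu
    refine (hA ?_).1
    rw [Real.dist_eq]
    exact (hd u hu).trans_le (by rw [hε]; exact min_le_left _ _)
  · intro u hu
    refine (hA ?_).2
    rw [Real.dist_eq]
    exact (hd u hu).trans_le (by rw [hε]; exact min_le_left _ _)
  · intro u hu v hv huv
    refine hB (y := (u, v)) ?_ huv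
    rw [Prod.dist_eq, Real.dist_eq, Real.dist_eq]
    exact (max_lt (hd u hu) (hd2 v hv)).trans_le (by rw [hε]; exact min_le_right _ _)

/-- values at rational points are algebraic -/
lemma alg_at_rat (Q : k[X][X]) (r : ℚ) (v : ℝ) (hr : aeval (r : ℝ) Q.leadingCoeff ≠ 0)
    (h : ev Q r v = 0) : IsAlgebraic k v := by
  obtain ⟨g, hg⟩ : ∃ g : k[X] →+* k, g = evalRingHom (r : k) := ⟨_, rfl⟩
  have hcomp : (aeval (r : ℝ) : k[X] →ₐ[k] ℝ).toRingHom = (algebraMap k ℝ).comp g := by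
    refine RingHom.ext fun q => ?_
    have h1 : (r : ℝ) = algebraMap k ℝ (r : k) := (map_ratCast (algebraMap k ℝ) r).symm
    have h2 : (aeval (r : ℝ) : k[X] →ₐ[k] ℝ) q = algebraMap k ℝ (eval (r : k) q) := by
      rw [h1, aeval_algebraMap_apply]
      rfl
    rw [hg]
    exact h2
  refine ⟨Q.map g, ?_, ?_⟩
  · intro h0
    have h1 : (Q.map g).coeff Q.natDegree = 0 := by rw [h0, coeff_zero]
    rw [coeff_map, coeff_natDegree] at h1
    apply hr
    have h2 : (aeval (r : ℝ) : k[X] →ₐ[k] ℝ) Q.leadingCoeff = algebraMap k ℝ (g Q.leadingCoeff) :=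
      RingHom.congr_fun hcomp Q.leadingCoeff
    rw [h2, h1, map_zero]
  · unfold ev at h
    rw [hcomp, ← eval₂_map] at h
    exact h

/-- an affine branch has algebraic coefficients -/
lemma affine_alg (Q : k[X][X]) (hQ : Q ≠ 0) (s t s' t' : ℚ) (F : ℝ → ℝ) (hF : Branch Q s t s' t' F)
    (hdd : ∀ u ∈ Set.Ioo (s' : ℝ) t', deriv (deriv F) u = 0) {β : ℝ} (hβ : β ∈ Set.Ioo (s' : ℝ) t') :
    ∃ p q : ℝ, IsAlgebraic k p ∧ IsAlgebraic k q ∧ F β = p + q * β := by
  have hst : s' < t' := by exact_mod_cast hβ.1.trans hβ.2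
  have hlc : Q.leadingCoeff ≠ 0 := leadingCoeff_ne_zero.2 hQ
  -- finitely many bad rationals
  have hfin : {r : ℚ | aeval (r : ℝ) Q.leadingCoeff = 0}.Finite := by
    have h1 : {x : ℝ | aeval x Q.leadingCoeff = 0}.Finite := by
      have h2 := (Q.leadingCoeff.rootSet_finite ℝ)
      refine h2.subset fun x hx => ?_
      rw [mem_rootSet]
      exact ⟨hlc, hx⟩
    exact h1.preimage (Rat.cast_injective.injOn)
  have hinf : (Set.Ioo s' t' \ {r : ℚ | aeval (r : ℝ) Q.leadingCoeff = 0}).Infinite :=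
    (Set.Ioo_infinite hst).sdiff hfin
  obtain ⟨r1, hr1, r2, hr2, hne⟩ := hinf.nontrivial
  have hin : ∀ r ∈ Set.Ioo s' t', (r : ℝ) ∈ Set.Ioo (s' : ℝ) t' := fun r hr =>
    ⟨by exact_mod_cast hr.1, by exact_mod_cast hr.2⟩
  have a1 : IsAlgebraic k (F r1) := alg_at_rat Q r1 _ hr1.2 (hF.zero _ (hin r1 hr1.1))
  have a2 : IsAlgebraic k (F r2) := alg_at_rat Q r2 _ hr2.2 (hF.zero _ (hin r2 hr2.1))
  have e1 := affine_of_deriv F s' t' hF.an hdd (hin r1 hr1.1) (hin r2 hr2.1)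
  have e2 := affine_of_deriv F s' t' hF.an hdd (hin r1 hr1.1) hβ
  have hne' : (r2 : ℝ) - r1 ≠ 0 := by
    rw [sub_ne_zero]
    exact fun h => hne (by exact_mod_cast h.symm)
  have hratalg : ∀ r : ℚ, IsAlgebraic k (r : ℝ) := fun r => by
    have h1 : (r : ℝ) = algebraMap k ℝ (r : k) := (map_ratCast (algebraMap k ℝ) r).symm
    rw [h1]
    exact isAlgebraic_algebraMap _
  have hq : deriv F r1 = (F r2 - F r1) * ((r2 : ℝ) - r1)⁻¹ := by
    rw [e1]
    field_simp
    ring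
  have aq : IsAlgebraic k (deriv F r1) := by
    rw [hq]
    exact (a2.sub a1).mul ((hratalg r2).sub (hratalg r1)).inv
  refine ⟨F r1 - deriv F r1 * r1, deriv F r1, a1.sub (aq.mul (hratalg r1)), aq, ?_⟩
  rw [e2]; ring

end

end H41.NL
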