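import Pool.Agent.H41.NL.A

/-! # Concentration of sparse random numbers -/

set_option autoImplicit false
set_option linter.unusedSectionVars false

open Finset Filter Topology MeasureTheory ProbabilityTheory

namespace H41.NL

open H41.SW H41.RM

lemma interpk (k : ℕ) (hk : 1 ≤ k) (z : ℕ → ℂ) (hz : ∀ n, ‖z n‖ ≤ 1)
    (h : Tendsto (fun i : ℕ => (∑ n ∈ range (i ^ k), z n) / (i : ℂ) ^ k) atTop (𝓝 0)) :
    Tendsto (avg z) atTop (𝓝 0) := by
  classical
  obtain ⟨r, hr⟩ : ∃ r : ℕ → ℕ, r = fun N => Nat.findGreatest (fun i => i ^ k ≤ N) N := ⟨_, rfl⟩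
  have hr1 : ∀ N, r N ^ k ≤ N := by
    intro N
    have h1 : (fun i => i ^ k ≤ N) (Nat.findGreatest (fun i => i ^ k ≤ N) N) :=
      Nat.findGreatest_spec (P := fun i => i ^ k ≤ N) (m := 0) (Nat.zero_le _) (by
        show 0 ^ k ≤ N
        rw [zero_pow (by omega)]
        exact Nat.zero_le _)
    rw [hr]
    exact h1
  have hr2 : ∀ N, N < (r N + 1) ^ k := by
    intro N
    by_contra hcon
    push Not at hcon
    have h1 : r N + 1 ≤ N := by
      calc r N + 1 = (r N + 1) ^ 1 := (pow_one _).symm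
        _ ≤ (r N + 1) ^ k := Nat.pow_le_pow_right (by omega) hk
        _ ≤ N := hcon
    have h2 : r N + 1 ≤ Nat.findGreatest (fun i => i ^ k ≤ N) N := Nat.le_findGreatest h1 hcon
    have h3 : r N = Nat.findGreatest (fun i => i ^ k ≤ N) N := by rw [hr]
    omega
  have hrt : Tendsto r atTop atTop := by
    rw [tendsto_atTop]
    intro m
    filter_upwards [eventually_ge_atTop ((m + 1) ^ k)] with N hN
    by_contra hcon
    push Not at hcon
    have h1 := hr2 N
    have h2 : (r N + 1) ^ k ≤ (m + 1) ^ k := Nat.pow_le_pow_left (by omega) k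
    omega
  have h1 := h.comp hrt
  rw [tendsto_zero_iff_norm_tendsto_zero] at h1 ⊢
  have h2 : Tendsto (fun N : ℕ => (1 + 1 / ((r N : ℕ) : ℝ)) ^ k - 1) atTop (𝓝 0) := by
    have h3 : Tendsto (fun N : ℕ => 1 / ((r N : ℕ) : ℝ)) atTop (𝓝 0) :=
      tendsto_const_nhds.div_atTop (tendsto_natCast_atTop_atTop.comp hrt)
    have h4 := ((h3.const_add 1).pow k).sub_const 1
    simpa using h4
  have h3 := h1.add h2
  rw [add_zero] at h3
  refine squeeze_zero' (Eventually.of_forall fun _ => norm_nonneg _) ?_ h3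
  filter_upwards [hrt.eventually_ge_atTop 1] with N hN
  obtain ⟨i, hi⟩ : ∃ i, i = r N := ⟨_, rfl⟩
  have e1 := hr1 N
  have e2 := hr2 N
  rw [← hi] at e1 e2 hN
  have hi0 : (0 : ℝ) < i := by exact_mod_cast hN
  have hN0 : 0 < N := lt_of_lt_of_le (by positivity) e1
  have hNr : (0 : ℝ) < N := by exact_mod_cast hN0
  have e1r : (i : ℝ) ^ k ≤ N := by exact_mod_cast e1
  simp only [Function.comp]
  rw [← hi]
  unfold avg
  rw [norm_div, norm_div, norm_pow, Complex.norm_natCast, Complex.norm_natCast]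
  have e3 : ‖∑ n ∈ range N, z n‖ ≤ ‖∑ n ∈ range (i ^ k), z n‖ + (((i : ℝ) + 1) ^ k - (i : ℝ) ^ k) := by
    have e4 : ∑ n ∈ range N, z n = ∑ n ∈ range (i ^ k), z n + ∑ n ∈ Ico (i ^ k) N, z n :=
      (Finset.sum_range_add_sum_Ico _ e1).symm
    rw [e4]
    refine (norm_add_le _ _).trans ?_
    have e5 : ‖∑ n ∈ Ico (i ^ k) N, z n‖ ≤ ((i : ℝ) + 1) ^ k - (i : ℝ) ^ k := by
      refine (norm_sum_le _ _).trans ?_
      refine (sum_le_sum fun n _ => hz n).trans ?_
      rw [sum_const, Nat.card_Ico, nsmul_eq_mul, mul_one, Nat.cast_sub e1]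
      have : (N : ℝ) ≤ ((i : ℝ) + 1) ^ k := by exact_mod_cast e2.le
      push_cast
      linarith
    linarith
  have e6 : ((i : ℝ) + 1) ^ k = (1 + 1 / (i : ℝ)) ^ k * (i : ℝ) ^ k := by
    rw [← mul_pow]
    congr 1
    field_simp
  have e7 : (1 : ℝ) ≤ (1 + 1 / (i : ℝ)) ^ k := by
    refine one_le_pow₀ ?_
    have : 0 < 1 / (i : ℝ) := by positivity
    linarith
  calc ‖∑ n ∈ range N, z n‖ / (N : ℝ)
      ≤ (‖∑ n ∈ range (i ^ k), z n‖ + (((i : ℝ) + 1) ^ k - (i : ℝ) ^ k)) / (i : ℝ) ^ k := by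
        have e8 : 0 ≤ ((i : ℝ) + 1) ^ k - (i : ℝ) ^ k := by
          rw [e6]
          have : 0 ≤ (i : ℝ) ^ k := by positivity
          nlinarith
        gcongr
    _ = _ := by
        rw [add_div, e6]
        congr 1
        field_simp

variable {Ω : Type*} [MeasurableSpace Ω] (μ : Measure Ω) [IsProbabilityMeasure μ]

/-- the variances -/
noncomputable def qq (A : ℕ → Set Ω) (j : ℕ) : ℝ := μ.real (A j) * (1 - μ.real (A j))

/-- the digits at the places `m0, …, m - 1` as a natural number -/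
noncomputable def Wn (A : ℕ → Set Ω) (b m0 m : ℕ) (ω : Ω) : ℕ :=
  ∑ j ∈ Ico m0 m, ⌊xi A j ω⌋₊ * b ^ (m - 1 - j)

lemma Wn_succ (A : ℕ → Set Ω) (b m0 m : ℕ) (h : m0 ≤ m) (ω : Ω) :
    Wn A b m0 (m + 1) ω = b * Wn A b m0 m ω + ⌊xi A m ω⌋₊ := by
  unfold Wn
  rw [Finset.sum_Ico_succ_top h, mul_sum]
  congr 1
  · refine sum_congr rfl fun j hj => ?_
    rw [mem_Ico] at hj
    have h1 : m + 1 - 1 - j = (m - 1 - j) + 1 := by omega
    rw [h1, pow_succ]
    ring
  · have h1 : m + 1 - 1 - m = 0 := by omega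
    rw [h1, pow_zero, mul_one]

lemma Wn_indep (A : ℕ → Set Ω) (hA : ∀ j, MeasurableSet (A j)) (hind : iIndepSet A μ) (b m0 m k : ℕ)
    (S : Set ℝ) (hS : MeasurableSet S) :
    μ.real ({ω | Wn A b m0 m ω = k} ∩ {ω | xi A m ω ∈ S}) =
      μ.real {ω | Wn A b m0 m ω = k} * μ.real {ω | xi A m ω ∈ S} := by
  classical
  have hdis : Disjoint (Ico m0 m) {m} := by
    rw [Finset.disjoint_left]
    intro j hj hj'
    rw [mem_Ico] at hj
    rw [mem_singleton] at hj'
    omega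
  have hI := (xi_indep μ A hind).indepFun_finset (Ico m0 m) {m} hdis (xi_meas A hA)
  obtain ⟨φ, hφ⟩ : ∃ φ : (↥(Ico m0 m) → ℝ) → ℕ, φ = fun u => ∑ i : ↥(Ico m0 m), ⌊u i⌋₊ * b ^ (m - 1 - (i : ℕ)) :=
    ⟨_, rfl⟩
  obtain ⟨ψ, hψ⟩ : ∃ ψ : (↥({m} : Finset ℕ) → ℝ) → ℝ, ψ = fun u => u ⟨m, mem_singleton_self m⟩ := ⟨_, rfl⟩
  have hφm : Measurable φ := by
    rw [hφ]
    refine Finset.measurable_fun_sum _ fun j _ => ?_
    exact (Nat.measurable_floor.comp (measurable_pi_apply j)).mul_const _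
  have hψm : Measurable ψ := by
    rw [hψ]
    exact measurable_pi_apply _
  have h1 := hI.comp hφm hψm
  have h2 := h1.measure_inter_preimage_eq_mul {k} S (MeasurableSet.singleton k) hS
  have e1 : (φ ∘ fun (a : Ω) (i : ↥(Ico m0 m)) => xi A i a) = Wn A b m0 m := by
    funext ω
    rw [hφ]
    unfold Wn
    exact Finset.sum_coe_sort (Ico m0 m) (fun j => ⌊xi A j ω⌋₊ * b ^ (m - 1 - j))
  have e2 : (ψ ∘ fun (a : Ω) (i : ↥({m} : Finset ℕ)) => xi A i a) = xi A m := by
    funext ω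
    rw [hψ]
    rfl
  rw [e1, e2] at h2
  have e3 : Wn A b m0 m ⁻¹' {k} = {ω | Wn A b m0 m ω = k} := rfl
  have e4 : xi A m ⁻¹' S = {ω | xi A m ω ∈ S} := rfl
  rw [e3, e4] at h2
  unfold Measure.real
  rw [h2, ENNReal.toReal_mul]

lemma Wn_le (A : ℕ → Set Ω) (hA : ∀ j, MeasurableSet (A j)) (hind : iIndepSet A μ) (b : ℕ) (hb : 2 ≤ b)
    (m0 m : ℕ) (h : m0 ≤ m) : ∀ k : ℕ, μ.real {ω | Wn A b m0 m ω = k} ≤ ∏ j ∈ Ico m0 m, (1 - qq μ A j) := by
  induction m, h using Nat.le_induction with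
  | base =>
    intro k
    rw [Ico_self, prod_empty]
    exact measureReal_le_one
  | succ m hm ih =>
    intro k
    rw [Finset.prod_Ico_succ_top hm]
    have hp0 : 0 ≤ μ.real (A m) := measureReal_nonneg
    have hp1 : μ.real (A m) ≤ 1 := measureReal_le_one
    have hP : 0 ≤ ∏ j ∈ Ico m0 m, (1 - qq μ A j) := by
      refine prod_nonneg fun j _ => ?_
      unfold qq
      have h0 : 0 ≤ μ.real (A j) := measureReal_nonneg
      have h1 : μ.real (A j) ≤ 1 := measureReal_le_one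
      nlinarith
    have hin : ∀ ω, ω ∈ A m → ⌊xi A m ω⌋₊ = 1 := by
      intro ω hω
      unfold xi
      rw [Set.indicator_of_mem hω]
      exact Nat.floor_one
    have hout : ∀ ω, ω ∉ A m → ⌊xi A m ω⌋₊ = 0 := by
      intro ω hω
      unfold xi
      rw [Set.indicator_of_notMem hω]
      exact Nat.floor_zero
    by_cases hk : k % b = 1
    · have hsub : {ω | Wn A b m0 (m + 1) ω = k} ⊆
          {ω | Wn A b m0 m ω = k / b} ∩ {ω | xi A m ω ∈ ({1} : Set ℝ)} := by
        intro ω hω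
        rw [Set.mem_ofPred_eq, Wn_succ A b m0 m hm] at hω
        by_cases hA' : ω ∈ A m
        · rw [hin ω hA'] at hω
          refine ⟨?_, ?_⟩
          · show Wn A b m0 m ω = k / b
            rw [← hω, Nat.mul_add_div (by omega), Nat.div_eq_of_lt (by omega)]
            omega
          · show xi A m ω ∈ ({1} : Set ℝ)
            unfold xi
            rw [Set.indicator_of_mem hA']
            rfl
        · exfalso
          rw [hout ω hA', add_zero] at hω
          rw [← hω, Nat.mul_mod_right] at hk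
          omega
      have e1 : {ω | xi A m ω ∈ ({1} : Set ℝ)} = A m := by
        ext ω
        rw [Set.mem_ofPred_eq]
        unfold xi
        by_cases hA' : ω ∈ A m
        · rw [Set.indicator_of_mem hA']
          simp [hA']
        · rw [Set.indicator_of_notMem hA']
          simp [hA']
      calc μ.real {ω | Wn A b m0 (m + 1) ω = k}
          ≤ μ.real ({ω | Wn A b m0 m ω = k / b} ∩ {ω | xi A m ω ∈ ({1} : Set ℝ)}) := measureReal_mono hsub
        _ = μ.real {ω | Wn A b m0 m ω = k / b} * μ.real (A m) := by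
            rw [Wn_indep μ A hA hind b m0 m (k / b) {1} (MeasurableSet.singleton 1), e1]
        _ ≤ (∏ j ∈ Ico m0 m, (1 - qq μ A j)) * (1 - qq μ A m) := by
            refine mul_le_mul (ih _) ?_ hp0 hP
            unfold qq
            nlinarith [sq_nonneg (1 - μ.real (A m))]
    · have hsub : {ω | Wn A b m0 (m + 1) ω = k} ⊆
          {ω | Wn A b m0 m ω = k / b} ∩ {ω | xi A m ω ∈ ({0} : Set ℝ)} := by
        intro ω hω
        rw [Set.mem_ofPred_eq, Wn_succ A b m0 m hm] at hω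
        by_cases hA' : ω ∈ A m
        · exfalso
          rw [hin ω hA'] at hω
          apply hk
          rw [← hω, Nat.mul_add_mod, Nat.mod_eq_of_lt (by omega)]
        · rw [hout ω hA', add_zero] at hω
          refine ⟨?_, ?_⟩
          · show Wn A b m0 m ω = k / b
            rw [← hω, Nat.mul_div_cancel_left _ (by omega)]
          · show xi A m ω ∈ ({0} : Set ℝ)
            unfold xi
            rw [Set.indicator_of_notMem hA']
            rfl
      have e1 : {ω | xi A m ω ∈ ({0} : Set ℝ)} = (A m)ᶜ := by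
        ext ω
        rw [Set.mem_ofPred_eq]
        unfold xi
        by_cases hA' : ω ∈ A m
        · rw [Set.indicator_of_mem hA']
          simp [hA']
        · rw [Set.indicator_of_notMem hA']
          simp [hA']
      calc μ.real {ω | Wn A b m0 (m + 1) ω = k}
          ≤ μ.real ({ω | Wn A b m0 m ω = k / b} ∩ {ω | xi A m ω ∈ ({0} : Set ℝ)}) := measureReal_mono hsub
        _ = μ.real {ω | Wn A b m0 m ω = k / b} * μ.real (A m)ᶜ := by
            rw [Wn_indep μ A hA hind b m0 m (k / b) {0} (MeasurableSet.singleton 0), e1]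
        _ ≤ (∏ j ∈ Ico m0 m, (1 - qq μ A j)) * (1 - qq μ A m) := by
            refine mul_le_mul (ih _) ?_ measureReal_nonneg hP
            rw [measureReal_compl (hA m), probReal_univ]
            unfold qq
            nlinarith [sq_nonneg (μ.real (A m))]

lemma Wn_exp (A : ℕ → Set Ω) (hA : ∀ j, MeasurableSet (A j)) (hind : iIndepSet A μ) (b : ℕ) (hb : 2 ≤ b)
    (m0 m : ℕ) (h : m0 ≤ m) (k : ℕ) :
    μ.real {ω | Wn A b m0 m ω = k} ≤ Real.exp (-∑ j ∈ Ico m0 m, qq μ A j) := by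
  refine (Wn_le μ A hA hind b hb m0 m h k).trans ?_
  rw [← sum_neg_distrib, Real.exp_sum]
  refine prod_le_prod (fun j _ => ?_) fun j _ => ?_
  · unfold qq
    have h0 : 0 ≤ μ.real (A j) := measureReal_nonneg
    have h1 : μ.real (A j) ≤ 1 := measureReal_le_one
    nlinarith
  · have := Real.add_one_le_exp (-qq μ A j)
    linarith

/-- the tail of the random number -/
noncomputable def VV (A : ℕ → Set Ω) (b m0 : ℕ) (ω : Ω) : ℝ :=
  CC (xi A) b ω - ∑ j ∈ range m0, xi A j ω / (b : ℝ) ^ j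

lemma Wn_cast (A : ℕ → Set Ω) (b : ℕ) (hb : 2 ≤ b) (m0 m : ℕ) (ω : Ω) :
    (Wn A b m0 m ω : ℝ) * (b / (b : ℝ) ^ m) = ∑ j ∈ Ico m0 m, xi A j ω / (b : ℝ) ^ j := by
  have hb0 : (0 : ℝ) < b := by exact_mod_cast (by omega : 0 < b)
  unfold Wn
  push_cast
  rw [sum_mul]
  refine sum_congr rfl fun j hj => ?_
  rw [mem_Ico] at hj
  have e1 : ((⌊xi A j ω⌋₊ : ℕ) : ℝ) = xi A j ω := by
    unfold xi
    by_cases hA' : ω ∈ A j
    · rw [Set.indicator_of_mem hA', Nat.floor_one, Nat.cast_one]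
    · rw [Set.indicator_of_notMem hA', Nat.floor_zero, Nat.cast_zero]
  have e2 : (b : ℝ) ^ m = (b : ℝ) ^ (m - 1 - j) * (b * (b : ℝ) ^ j) := by
    rw [← pow_succ', ← pow_add]
    congr 1
    omega
  rw [e1, e2]
  field_simp

/-- **Concentration.** -/
theorem conc (A : ℕ → Set Ω) (hA : ∀ j, MeasurableSet (A j)) (hind : iIndepSet A μ) (b : ℕ) (hb : 2 ≤ b)
    (m0 m : ℕ) (h : m0 ≤ m) (t L : ℝ) (hL : L * (b : ℝ) ^ m ≤ 1) :
    μ.real {ω | t ≤ VV A b m0 ω ∧ VV A b m0 ω ≤ t + L} ≤ 3 * Real.exp (-∑ j ∈ Ico m0 m, qq μ A j) := by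
  have hb2 : (2 : ℝ) ≤ b := by exact_mod_cast hb
  have hb0 : (0 : ℝ) < b := by linarith
  have hbm : (0 : ℝ) < (b : ℝ) ^ m := by positivity
  obtain ⟨x, hx⟩ : ∃ x : ℝ, x = (t - 2 / (b : ℝ) ^ m) * ((b : ℝ) ^ m / b) := ⟨_, rfl⟩
  obtain ⟨k, hk⟩ : ∃ k : ℕ, k = ⌈x⌉₊ := ⟨_, rfl⟩
  have hsub : {ω | t ≤ VV A b m0 ω ∧ VV A b m0 ω ≤ t + L} ⊆
      {ω | Wn A b m0 m ω = k} ∪ ({ω | Wn A b m0 m ω = k + 1} ∪ {ω | Wn A b m0 m ω = k + 2}) := by
    rintro ω ⟨h1, h2⟩
    have h3 := tail_CC (xi A) b hb (xi_le A) ω m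
    have h4 : ∑ j ∈ range m, xi A j ω / (b : ℝ) ^ j = ∑ j ∈ range m0, xi A j ω / (b : ℝ) ^ j +
        ∑ j ∈ Ico m0 m, xi A j ω / (b : ℝ) ^ j := (Finset.sum_range_add_sum_Ico _ h).symm
    rw [h4, ← Wn_cast A b hb] at h3
    unfold VV at h1 h2
    obtain ⟨h5, h6⟩ := abs_le.1 h3
    obtain ⟨w, hw⟩ : ∃ w : ℝ, w = (Wn A b m0 m ω : ℝ) := ⟨_, rfl⟩
    rw [← hw] at h5 h6
    have h7 : x ≤ w := by
      rw [hx, ← le_div_iff₀ (by positivity)]
      have e1 : w / ((b : ℝ) ^ m / b) = w * (b / (b : ℝ) ^ m) := by field_simp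
      rw [e1]
      linarith
    have h8 : w ≤ x + 5 / 2 := by
      have e1 : w * (b / (b : ℝ) ^ m) ≤ t + L + 2 / (b : ℝ) ^ m := by linarith
      have e2 : w = w * (b / (b : ℝ) ^ m) * ((b : ℝ) ^ m / b) := by field_simp
      have e3 : w ≤ (t + L + 2 / (b : ℝ) ^ m) * ((b : ℝ) ^ m / b) := by
        rw [e2]
        gcongr
      refine e3.trans ?_
      have e4 : (t + L + 2 / (b : ℝ) ^ m) * ((b : ℝ) ^ m / b) = x + (L * (b : ℝ) ^ m + 4) / b := by
        rw [hx]
        field_simp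
        ring
      rw [e4]
      have e5 : (L * (b : ℝ) ^ m + 4) / b ≤ 5 / 2 := by
        rw [div_le_iff₀ hb0]
        linarith
      linarith
    have h9 : k ≤ Wn A b m0 m ω := by
      rw [hk]
      exact Nat.ceil_le.2 (by rw [← hw]; exact h7)
    have h10 : (Wn A b m0 m ω : ℝ) < ((k + 3 : ℕ) : ℝ) := by
      have := Nat.le_ceil x
      rw [← hk] at this
      push_cast
      rw [← hw]
      linarith
    have h11 : Wn A b m0 m ω < k + 3 := by exact_mod_cast h10
    have h12 : Wn A b m0 m ω = k ∨ Wn A b m0 m ω = k + 1 ∨ Wn A b m0 m ω = k + 2 := by omega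
    rcases h12 with h | h | h
    · exact Or.inl h
    · exact Or.inr (Or.inl h)
    · exact Or.inr (Or.inr h)
  have h1 := fun k => Wn_exp μ A hA hind b hb m0 m h k
  calc μ.real {ω | t ≤ VV A b m0 ω ∧ VV A b m0 ω ≤ t + L}
      ≤ μ.real ({ω | Wn A b m0 m ω = k} ∪ ({ω | Wn A b m0 m ω = k + 1} ∪ {ω | Wn A b m0 m ω = k + 2})) :=
        measureReal_mono hsub
    _ ≤ μ.real {ω | Wn A b m0 m ω = k} + (μ.real {ω | Wn A b m0 m ω = k + 1} +
          μ.real {ω | Wn A b m0 m ω = k + 2}) :=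
        (measureReal_union_le _ _).trans (by gcongr; exact measureReal_union_le _ _)
    _ ≤ _ := by
        have a1 := h1 k
        have a2 := h1 (k + 1)
        have a3 := h1 (k + 2)
        linarith

/-- The first digits and the tail are independent. -/
theorem indepUV (A : ℕ → Set Ω) (hA : ∀ j, MeasurableSet (A j)) (hind : iIndepSet A μ) (b : ℕ) (hb : 2 ≤ b)
    (m0 : ℕ) : IndepFun (fun ω => ∑ j ∈ range m0, xi A j ω / (b : ℝ) ^ j) (VV A b m0) μ := by
  obtain ⟨m, hm⟩ : ∃ m : ℕ → MeasurableSpace Ω,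
    m = fun j => MeasurableSpace.comap (xi A j) (borel ℝ) := ⟨_, rfl⟩
  have hm1 : iIndep m μ := by
    have h1 := (xi_indep μ A hind).iIndep
    rw [hm]
    have h2 : (borel ℝ) = (inferInstance : MeasurableSpace ℝ) := (BorelSpace.measurable_eq (α := ℝ)).symm
    simp_rw [h2]
    exact h1
  have hm0 : ∀ j, m j ≤ (inferInstance : MeasurableSpace Ω) := by
    intro j
    rw [hm]
    simp only
    have h2 : (borel ℝ) = (inferInstance : MeasurableSpace ℝ) := (BorelSpace.measurable_eq (α := ℝ)).symm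
    rw [h2]
    exact (xi_meas A hA j).comap_le
  have hdis : Disjoint {j : ℕ | j < m0} {j : ℕ | m0 ≤ j} := by
    rw [Set.disjoint_left]
    intro j hj hj'
    rw [Set.mem_ofPred_eq] at hj hj'
    omega
  have hI := indep_iSup_of_disjoint hm0 hm1 hdis
  rw [IndepFun_iff_Indep]
  refine indep_of_indep_of_le hI ?_ ?_
  · rw [← measurable_iff_comap_le]
    refine Finset.measurable_fun_sum _ fun j hj => ?_
    refine Measurable.div_const ?_ _
    rw [measurable_iff_comap_le]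
    have h2 : (inferInstance : MeasurableSpace ℝ) = borel ℝ := BorelSpace.measurable_eq (α := ℝ)
    refine le_trans (le_of_eq ?_) (le_iSup₂ (f := fun j (_ : j ∈ {j : ℕ | j < m0}) => m j) j (mem_range.1 hj))
    rw [hm]
    simp only
    rw [← h2]
  · rw [← measurable_iff_comap_le]
    have e1 : ∀ ω, Tendsto (fun L : ℕ => ∑ j ∈ Ico m0 L, xi A j ω / (b : ℝ) ^ j) atTop (𝓝 (VV A b m0 ω)) := by
      intro ω
      have h1 := (summ_CC (xi A) b hb (xi_le A) ω).hasSum.tendsto_sum_nat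
      have h2 := h1.sub_const (∑ j ∈ range m0, xi A j ω / (b : ℝ) ^ j)
      refine h2.congr' ?_
      filter_upwards [eventually_ge_atTop m0] with L hL
      rw [Finset.sum_Ico_eq_sub _ hL]
    refine @measurable_of_tendsto_metrizable _ _ (⨆ i ∈ {j : ℕ | m0 ≤ j}, m i) _ _ _ _
      (fun (L : ℕ) ω => ∑ j ∈ Ico m0 L, xi A j ω / (b : ℝ) ^ j) (VV A b m0) (fun L => ?_)
      (tendsto_pi_nhds.2 e1)
    refine Finset.measurable_fun_sum _ fun j hj => ?_
    refine Measurable.div_const ?_ _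
    rw [measurable_iff_comap_le]
    have h2 : (inferInstance : MeasurableSpace ℝ) = borel ℝ := BorelSpace.measurable_eq (α := ℝ)
    refine le_trans (le_of_eq ?_) (le_iSup₂ (f := fun j (_ : j ∈ {j : ℕ | m0 ≤ j}) => m j) j (mem_Ico.1 hj).1)
    rw [hm]
    simp only
    rw [← h2]

end H41.NL
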