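import Pool.Agent.H41.NL.B

/-! # Long runs of small values are improbable -/

set_option autoImplicit false
set_option linter.unusedSectionVars false

open Finset Filter Topology MeasureTheory ProbabilityTheory

namespace H41.NL

open H41.SW H41.RM

lemma section_small (b : ℕ) (hb : 2 ≤ b) (g : ℝ → ℝ) (s0 t0 M δ ρ : ℝ) (hδ : 0 < δ) (hρ : 1 ≤ |ρ|)
    (hM0 : 0 ≤ M)
    (hgM : ∀ u ∈ Set.Ioo s0 t0, ∀ v ∈ Set.Ioo s0 t0, |g v - g u| ≤ M * |v - u|)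
    (hgδ : ∀ u ∈ Set.Ioo s0 t0, ∀ v ∈ Set.Ioo s0 t0, δ * |v - u| ≤ |g v - g u|)
    (l0 H : ℕ) (hH : 1 ≤ H) (hM : 8 * |ρ| * M ≤ (b : ℝ) ^ H)
    (u v v' : ℝ) (hv : |v| ≤ 2 / (b : ℝ) ^ (l0 + H)) (hv' : |v'| ≤ 2 / (b : ℝ) ^ (l0 + H))
    (h1 : u + v ∈ Set.Ioo s0 t0) (h1' : u + v' ∈ Set.Ioo s0 t0)
    (h2 : nn (ρ * g (u + v) * (b : ℝ) ^ l0) < 1 / (2 * (b : ℝ) ^ (4 * H)))
    (h2' : nn (ρ * g (u + v') * (b : ℝ) ^ l0) < 1 / (2 * (b : ℝ) ^ (4 * H))) :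
    |v' - v| ≤ 1 / (δ * (b : ℝ) ^ (l0 + 4 * H)) := by
  have hb1 : (1 : ℝ) < b := by exact_mod_cast (by omega : 1 < b)
  have hb2 : (2 : ℝ) ≤ b := by exact_mod_cast hb
  have hb0 : (0 : ℝ) < b := by linarith
  obtain ⟨x, hx⟩ : ∃ x, x = ρ * g (u + v) * (b : ℝ) ^ l0 := ⟨_, rfl⟩
  obtain ⟨x', hx'⟩ : ∃ x', x' = ρ * g (u + v') * (b : ℝ) ^ l0 := ⟨_, rfl⟩
  rw [← hx] at h2
  rw [← hx'] at h2'
  have e0 : x' - x = ρ * (g (u + v') - g (u + v)) * (b : ℝ) ^ l0 := by rw [hx, hx']; ring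
  have e1 : |x' - x| = |ρ| * |g (u + v') - g (u + v)| * (b : ℝ) ^ l0 := by
    rw [e0, abs_mul, abs_mul, abs_of_pos (show (0 : ℝ) < (b : ℝ) ^ l0 by positivity)]
  have e2 : u + v' - (u + v) = v' - v := by ring
  have g1 := hgM _ h1 _ h1'
  have g2 := hgδ _ h1 _ h1'
  rw [e2] at g1 g2
  have hvv : |v' - v| ≤ 4 / (b : ℝ) ^ (l0 + H) := by
    calc |v' - v| ≤ |v'| + |v| := abs_sub _ _
      _ ≤ 2 / (b : ℝ) ^ (l0 + H) + 2 / (b : ℝ) ^ (l0 + H) := add_le_add hv' hv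
      _ = _ := by ring
  have k1 : |x' - x| ≤ 1 / 2 := by
    rw [e1]
    calc |ρ| * |g (u + v') - g (u + v)| * (b : ℝ) ^ l0
        ≤ |ρ| * (M * (4 / (b : ℝ) ^ (l0 + H))) * (b : ℝ) ^ l0 := by
          gcongr
          exact g1.trans (by gcongr)
      _ = (8 * |ρ| * M) / (b : ℝ) ^ H / 2 := by
          rw [pow_add]
          field_simp
          ring
      _ ≤ (b : ℝ) ^ H / (b : ℝ) ^ H / 2 := by gcongr
      _ = 1 / 2 := by rw [div_self (by positivity)]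
  have hq : (1 : ℝ) / (2 * (b : ℝ) ^ (4 * H)) ≤ 1 / 4 := by
    have h3 : (2 : ℝ) ≤ (b : ℝ) ^ (4 * H) := by
      calc (2 : ℝ) ≤ b := hb2
        _ = (b : ℝ) ^ 1 := (pow_one _).symm
        _ ≤ _ := pow_le_pow_right₀ hb1.le (by omega)
    rw [div_le_div_iff₀ (by positivity) (by norm_num)]
    linarith
  have hr : round x = round x' := by
    by_contra hne
    have h5 : (1 : ℝ) ≤ |((round x' : ℤ) : ℝ) - ((round x : ℤ) : ℝ)| := by
      have h6 : 1 ≤ |round x' - round x| := Int.one_le_abs (sub_ne_zero.2 (Ne.symm hne))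
      exact_mod_cast h6
    have h7 : |((round x' : ℤ) : ℝ) - ((round x : ℤ) : ℝ)| ≤ nn x' + |x' - x| + nn x := by
      unfold nn
      have q1 := abs_sub_le ((round x' : ℤ) : ℝ) x' (round x : ℝ)
      have q2 := abs_sub_le x' x (round x : ℝ)
      rw [abs_sub_comm ((round x' : ℤ) : ℝ) x'] at q1
      linarith
    linarith
  have k2 : |x' - x| < 1 / (b : ℝ) ^ (4 * H) := by
    have h3 : x' - x = (x' - round x') - (x - round x) := by rw [hr]; ring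
    rw [h3]
    calc |(x' - round x') - (x - round x)| ≤ |x' - round x'| + |x - round x| := abs_sub _ _
      _ < 1 / (2 * (b : ℝ) ^ (4 * H)) + 1 / (2 * (b : ℝ) ^ (4 * H)) := add_lt_add h2' h2
      _ = _ := by
          field_simp
          norm_num
  have k3 : δ * |v' - v| * (b : ℝ) ^ l0 ≤ |x' - x| := by
    rw [e1]
    have h3 : 1 * |g (u + v') - g (u + v)| ≤ |ρ| * |g (u + v') - g (u + v)| := by gcongr
    calc δ * |v' - v| * (b : ℝ) ^ l0 ≤ |g (u + v') - g (u + v)| * (b : ℝ) ^ l0 := by gcongr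
      _ ≤ _ := by
          gcongr
          linarith
  rw [le_div_iff₀ (by positivity)]
  have k4 : |x' - x| * (b : ℝ) ^ (4 * H) < 1 := by
    rwa [lt_div_iff₀ (by positivity)] at k2
  calc |v' - v| * (δ * (b : ℝ) ^ (l0 + 4 * H)) = (δ * |v' - v| * (b : ℝ) ^ l0) * (b : ℝ) ^ (4 * H) := by
        rw [pow_add]
        ring
    _ ≤ |x' - x| * (b : ℝ) ^ (4 * H) := by gcongr
    _ ≤ 1 := k4.le

variable {Ω : Type*} [MeasurableSpace Ω] (μ : Measure Ω) [IsProbabilityMeasure μ]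

theorem win_prob (A : ℕ → Set Ω) (hA : ∀ j, MeasurableSet (A j)) (hind : iIndepSet A μ) (b : ℕ) (hb : 2 ≤ b)
    (g : ℝ → ℝ) (hg : Measurable g) (s0 t0 M δ ρ : ℝ) (hδ : 0 < δ) (hρ : 1 ≤ |ρ|) (hM0 : 0 ≤ M)
    (hgM : ∀ u ∈ Set.Ioo s0 t0, ∀ v ∈ Set.Ioo s0 t0, |g v - g u| ≤ M * |v - u|)
    (hgδ : ∀ u ∈ Set.Ioo s0 t0, ∀ v ∈ Set.Ioo s0 t0, δ * |v - u| ≤ |g v - g u|)
    (l0 H : ℕ) (hH : 1 ≤ H) (hM : 8 * |ρ| * M ≤ (b : ℝ) ^ H) (hL : 2 ≤ δ * (b : ℝ) ^ H) :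
    μ {ω | CC (xi A) b ω ∈ Set.Ioo s0 t0 ∧
        nn (ρ * g (CC (xi A) b ω) * (b : ℝ) ^ l0) < 1 / (2 * (b : ℝ) ^ (4 * H))} ≤
      ENNReal.ofReal (3 * Real.exp (-∑ j ∈ Ico (l0 + H) (l0 + 3 * H), qq μ A j)) := by
  have hb0 : (0 : ℝ) < b := by exact_mod_cast (by omega : 0 < b)
  obtain ⟨m0, hm0⟩ : ∃ m0, m0 = l0 + H := ⟨_, rfl⟩
  obtain ⟨U, hU⟩ : ∃ U : Ω → ℝ, U = fun ω => ∑ j ∈ range m0, xi A j ω / (b : ℝ) ^ j := ⟨_, rfl⟩
  obtain ⟨V, hV⟩ : ∃ V : Ω → ℝ, V = VV A b m0 := ⟨_, rfl⟩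
  have hUm : Measurable U := by
    rw [hU]
    exact Finset.measurable_fun_sum _ fun j _ => (xi_meas A hA j).div_const _
  have hVeq : ∀ ω, CC (xi A) b ω = U ω + V ω := by
    intro ω
    rw [hU, hV]
    unfold VV
    ring
  have hVm : Measurable V := by
    have h1 : V = fun ω => CC (xi A) b ω - U ω := by
      funext ω
      rw [hVeq ω]
      ring
    rw [h1]
    exact (meas_CC A hA b hb).sub hUm
  have hUV : IndepFun U V μ := by
    rw [hU, hV]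
    exact indepUV μ A hA hind b hb m0
  have hVabs : ∀ ω, |V ω| ≤ 2 / (b : ℝ) ^ m0 := by
    intro ω
    have h1 := tail_CC (xi A) b hb (xi_le A) ω m0
    rw [hV]
    exact h1
  obtain ⟨r, hr⟩ : ∃ r, r = 1 / (2 * (b : ℝ) ^ (4 * H)) := ⟨_, rfl⟩
  obtain ⟨S, hS⟩ : ∃ S : Set (ℝ × ℝ), S = {p | |p.2| ≤ 2 / (b : ℝ) ^ m0} ∩
    ({p | p.1 + p.2 ∈ Set.Ioo s0 t0} ∩ {p | nn (ρ * g (p.1 + p.2) * (b : ℝ) ^ l0) < r}) := ⟨_, rfl⟩
  have hadd : Measurable fun p : ℝ × ℝ => p.1 + p.2 := measurable_fst.add measurable_snd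
  have hSm : MeasurableSet S := by
    rw [hS]
    refine MeasurableSet.inter ?_ (MeasurableSet.inter ?_ ?_)
    · exact measurableSet_le measurable_snd.abs measurable_const
    · exact hadd measurableSet_Ioo
    · exact measurableSet_lt (meas_nn.comp (((hg.comp hadd).const_mul ρ).mul_const _)) measurable_const
  have hmap := (indepFun_iff_map_prod_eq_prod_map_map hUm.aemeasurable hVm.aemeasurable).1 hUV
  have hPU : IsProbabilityMeasure (μ.map U) := Measure.isProbabilityMeasure_map hUm.aemeasurable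
  have hPV : IsProbabilityMeasure (μ.map V) := Measure.isProbabilityMeasure_map hVm.aemeasurable
  have hsub : {ω | CC (xi A) b ω ∈ Set.Ioo s0 t0 ∧
        nn (ρ * g (CC (xi A) b ω) * (b : ℝ) ^ l0) < 1 / (2 * (b : ℝ) ^ (4 * H))} ⊆
      (fun ω => (U ω, V ω)) ⁻¹' S := by
    rintro ω ⟨h1, h2⟩
    rw [Set.mem_preimage, hS]
    rw [hVeq ω] at h1 h2
    exact ⟨hVabs ω, h1, by rw [hr]; exact h2⟩
  have hsec : ∀ u : ℝ, (μ.map V) (Prod.mk u ⁻¹' S) ≤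
      ENNReal.ofReal (3 * Real.exp (-∑ j ∈ Ico (l0 + H) (l0 + 3 * H), qq μ A j)) := by
    intro u
    by_cases hne : (Prod.mk u ⁻¹' S).Nonempty
    · obtain ⟨v0, hv0⟩ := hne
      rw [Set.mem_preimage, hS] at hv0
      obtain ⟨p1, p2, p3⟩ := hv0
      obtain ⟨L, hLL⟩ : ∃ L, L = 1 / (δ * (b : ℝ) ^ (l0 + 4 * H)) := ⟨_, rfl⟩
      have hcov : Prod.mk u ⁻¹' S ⊆ Set.Icc (v0 - L) (v0 - L + 2 * L) := by
        intro v hv
        rw [Set.mem_preimage, hS] at hv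
        obtain ⟨q1, q2, q3⟩ := hv
        have h3 := section_small b hb g s0 t0 M δ ρ hδ hρ hM0 hgM hgδ l0 H hH hM u v0 v
          (by rw [← hm0]; exact p1) (by rw [← hm0]; exact q1) p2 q2 (by rw [← hr]; exact p3)
          (by rw [← hr]; exact q3)
        rw [← hLL] at h3
        obtain ⟨h4, h5⟩ := abs_le.1 h3
        rw [Set.mem_Icc]
        constructor <;> linarith
      have hconc := conc μ A hA hind b hb m0 (l0 + 3 * H) (by omega) (v0 - L) (2 * L) (by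
        rw [hLL]
        rw [show l0 + 4 * H = (l0 + 3 * H) + H by ring, pow_add (b : ℝ) (l0 + 3 * H) H]
        have e1 : 2 * (1 / (δ * ((b : ℝ) ^ (l0 + 3 * H) * (b : ℝ) ^ H))) * (b : ℝ) ^ (l0 + 3 * H) =
          2 / (δ * (b : ℝ) ^ H) := by field_simp
        rw [e1]
        exact div_le_one_of_le₀ hL (by positivity))
      calc (μ.map V) (Prod.mk u ⁻¹' S) ≤ (μ.map V) (Set.Icc (v0 - L) (v0 - L + 2 * L)) := measure_mono hcov
        _ = μ (V ⁻¹' (Set.Icc (v0 - L) (v0 - L + 2 * L))) := Measure.map_apply hVm measurableSet_Icc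
        _ = μ {ω | v0 - L ≤ VV A b m0 ω ∧ VV A b m0 ω ≤ v0 - L + 2 * L} := by
            rw [hV]
            rfl
        _ = ENNReal.ofReal (μ.real {ω | v0 - L ≤ VV A b m0 ω ∧ VV A b m0 ω ≤ v0 - L + 2 * L}) := by
            rw [ofReal_measureReal]
        _ ≤ _ := by
            rw [← hm0]
            exact ENNReal.ofReal_le_ofReal hconc
    · rw [Set.not_nonempty_iff_eq_empty] at hne
      rw [hne, measure_empty]
      exact zero_le
  calc μ {ω | CC (xi A) b ω ∈ Set.Ioo s0 t0 ∧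
        nn (ρ * g (CC (xi A) b ω) * (b : ℝ) ^ l0) < 1 / (2 * (b : ℝ) ^ (4 * H))}
      ≤ μ ((fun ω => (U ω, V ω)) ⁻¹' S) := measure_mono hsub
    _ = (μ.map fun ω => (U ω, V ω)) S := (Measure.map_apply (hUm.prodMk hVm) hSm).symm
    _ = ∫⁻ u, (μ.map V) (Prod.mk u ⁻¹' S) ∂(μ.map U) := by
        rw [hmap, Measure.prod_apply hSm]
    _ ≤ ∫⁻ _, ENNReal.ofReal (3 * Real.exp (-∑ j ∈ Ico (l0 + H) (l0 + 3 * H), qq μ A j)) ∂(μ.map U) :=
        lintegral_mono hsec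
    _ = _ := by
        rw [lintegral_const, measure_univ, mul_one]

end H41.NL
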