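import Pool.Agent.H41.NL.C

/-! # Almost surely there are no long runs of small values -/

set_option autoImplicit false
set_option linter.unusedSectionVars false

open Finset Filter Topology MeasureTheory ProbabilityTheory

namespace H41.NL

open H41.SW H41.RM

/-- the position of the leading digit of `β ^ n` -/
noncomputable def PJ (b β n : ℕ) : ℕ := J b ((β : ℝ) ^ n * 1)

/-- the normalised multiplier -/
noncomputable def rho (b β : ℕ) (h : ℝ) (n : ℕ) : ℝ := h * (β : ℝ) ^ n / (b : ℝ) ^ PJ b β n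

lemma PJ_spec (b β : ℕ) (hb : 2 ≤ b) (hβ : 2 ≤ β) (n : ℕ) :
    (b : ℝ) ^ PJ b β n ≤ (β : ℝ) ^ n ∧ (β : ℝ) ^ n < (b : ℝ) ^ (PJ b β n + 1) := by
  have hβ1 : (1 : ℝ) ≤ β := by exact_mod_cast (by omega : 1 ≤ β)
  have h1 := J_spec b hb ((β : ℝ) ^ n * 1) (by rw [mul_one]; exact one_le_pow₀ hβ1)
  rw [mul_one] at h1
  unfold PJ
  rw [mul_one]
  exact h1

lemma rho_bounds (b β : ℕ) (hb : 2 ≤ b) (hβ : 2 ≤ β) (h : ℝ) (n : ℕ) :
    |h| ≤ |rho b β h n| ∧ |rho b β h n| ≤ b * |h| := by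
  have hb0 : (0 : ℝ) < b := by exact_mod_cast (by omega : 0 < b)
  have hβ0 : (0 : ℝ) < β := by exact_mod_cast (by omega : 0 < β)
  obtain ⟨h1, h2⟩ := PJ_spec b β hb hβ n
  have e1 : |rho b β h n| = |h| * ((β : ℝ) ^ n / (b : ℝ) ^ PJ b β n) := by
    unfold rho
    rw [mul_div_assoc, abs_mul, abs_of_pos (show (0 : ℝ) < (β : ℝ) ^ n / (b : ℝ) ^ PJ b β n by positivity)]
  rw [e1]
  have h3 : 1 ≤ (β : ℝ) ^ n / (b : ℝ) ^ PJ b β n := by
    rw [one_le_div (by positivity)]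
    exact h1
  have h4 : (β : ℝ) ^ n / (b : ℝ) ^ PJ b β n ≤ b := by
    rw [div_le_iff₀ (by positivity), ← pow_succ']
    exact h2.le
  have h0 := abs_nonneg h
  constructor
  · nlinarith
  · nlinarith

variable {Ω : Type*} [MeasurableSpace Ω] (μ : Measure Ω) [IsProbabilityMeasure μ]

theorem ae_win (A : ℕ → Set Ω) (hA : ∀ j, MeasurableSet (A j)) (hind : iIndepSet A μ) (b β : ℕ) (hb : 2 ≤ b)
    (hβ : 2 ≤ β) (e0 : ℕ)
    (hq : ∀ B : ℕ, ∀ᶠ i : ℕ in atTop, ∀ j, i ≤ j → j ≤ B * i ^ (2 * e0 + 4) → 1 ≤ qq μ A j * (i : ℝ) ^ e0)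
    (g : ℝ → ℝ) (hg : Measurable g) (s0 t0 M δ h : ℝ) (hδ : 0 < δ) (hh : 1 ≤ |h|) (hM0 : 0 ≤ M)
    (hgM : ∀ u ∈ Set.Ioo s0 t0, ∀ v ∈ Set.Ioo s0 t0, |g v - g u| ≤ M * |v - u|)
    (hgδ : ∀ u ∈ Set.Ioo s0 t0, ∀ v ∈ Set.Ioo s0 t0, δ * |v - u| ≤ |g v - g u|) :
    ∀ᵐ ω ∂μ, ∀ᶠ i : ℕ in atTop, CC (xi A) b ω ∈ Set.Ioo s0 t0 → ∀ n < i ^ (2 * e0 + 4), ∀ w < i ^ (e0 + 1),
      ∃ l, 4 * i ^ (e0 + 1) * w ≤ l ∧ l < 4 * i ^ (e0 + 1) * (w + 1) ∧
        1 / (2 * (b : ℝ)) ≤ nn (rho b β h n * g (CC (xi A) b ω) * (b : ℝ) ^ l) := by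
  classical
  have hb1 : (1 : ℝ) < b := by exact_mod_cast (by omega : 1 < b)
  have hb0 : (0 : ℝ) < b := by linarith
  have hpow : Tendsto (fun i : ℕ => (b : ℝ) ^ i) atTop atTop := tendsto_pow_atTop_atTop_of_one_lt hb1
  obtain ⟨i0, hi0⟩ := eventually_atTop.1 ((hq 4).and ((hpow.eventually_ge_atTop (8 * (b * |h|) * M)).and
    ((hpow.eventually_ge_atTop (2 / δ)).and (eventually_ge_atTop 1))))
  obtain ⟨E, hE⟩ : ∃ E : ℕ → ℕ → ℕ → Set Ω, E = fun i n w => {ω | CC (xi A) b ω ∈ Set.Ioo s0 t0 ∧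
      nn (rho b β h n * g (CC (xi A) b ω) * (b : ℝ) ^ (4 * i ^ (e0 + 1) * w)) <
        1 / (2 * (b : ℝ) ^ (4 * i ^ (e0 + 1)))} := ⟨_, rfl⟩
  have hEp : ∀ i, i0 ≤ i → ∀ n w, w < i ^ (e0 + 1) → μ (E i n w) ≤ ENNReal.ofReal (3 * Real.exp (-2 * i)) := by
    intro i hi n w hw
    obtain ⟨a1, a2, a3, a4⟩ := hi0 i hi
    obtain ⟨H, hH⟩ : ∃ H, H = i ^ (e0 + 1) := ⟨_, rfl⟩
    have hiH : i ≤ H := by rw [hH]; exact Nat.le_self_pow (by omega) i
    have hir : (1 : ℝ) ≤ i := by exact_mod_cast a4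
    have hbH : (b : ℝ) ^ i ≤ (b : ℝ) ^ H := pow_le_pow_right₀ hb1.le hiH
    obtain ⟨r1, r2⟩ := rho_bounds b β hb hβ h n
    have h1 := win_prob μ A hA hind b hb g hg s0 t0 M δ (rho b β h n) hδ (hh.trans r1) hM0 hgM hgδ
      (4 * H * w) H (by omega) (by
        calc 8 * |rho b β h n| * M ≤ 8 * (b * |h|) * M := by gcongr
          _ ≤ (b : ℝ) ^ i := a2
          _ ≤ _ := hbH) (by
        have h2 : 2 / δ ≤ (b : ℝ) ^ H := a3.trans hbH
        rw [div_le_iff₀ hδ] at h2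
        linarith)
    rw [hE]
    simp only
    rw [← hH]
    refine h1.trans (ENNReal.ofReal_le_ofReal ?_)
    have h3 : 2 * (i : ℝ) ≤ ∑ j ∈ Ico (4 * H * w + H) (4 * H * w + 3 * H), qq μ A j := by
      have h4 : ∀ j ∈ Ico (4 * H * w + H) (4 * H * w + 3 * H), 1 / (i : ℝ) ^ e0 ≤ qq μ A j := by
        intro j hj
        rw [mem_Ico] at hj
        have h5 : 4 * H * w + 4 * H ≤ 4 * i ^ (2 * e0 + 4) := by
          calc 4 * H * w + 4 * H = 4 * H * (w + 1) := by ring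
            _ ≤ 4 * H * H := by
                refine Nat.mul_le_mul_left _ ?_
                rw [hH]
                omega
            _ = 4 * i ^ (2 * e0 + 2) := by rw [hH]; ring
            _ ≤ 4 * i ^ (2 * e0 + 4) := by
                refine Nat.mul_le_mul_left _ (Nat.pow_le_pow_right a4 (by omega))
        have h6 := a1 j (by omega) (by omega)
        rw [div_le_iff₀ (by positivity)]
        exact h6
      have h5 := sum_le_sum h4
      rw [sum_const, Nat.card_Ico, nsmul_eq_mul] at h5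
      refine le_trans (le_of_eq ?_) h5
      rw [show 4 * H * w + 3 * H - (4 * H * w + H) = 2 * H by omega, hH]
      push_cast
      rw [pow_succ]
      field_simp
    have h6 : Real.exp (-∑ j ∈ Ico (4 * H * w + H) (4 * H * w + 3 * H), qq μ A j) ≤ Real.exp (-2 * i) := by
      rw [Real.exp_le_exp]
      linarith
    linarith
  obtain ⟨Bd, hBd⟩ : ∃ Bd : ℕ → Set Ω, Bd = fun i => if i0 ≤ i then
      ⋃ n ∈ range (i ^ (2 * e0 + 4)), ⋃ w ∈ range (i ^ (e0 + 1)), E i n w else ∅ := ⟨_, rfl⟩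
  obtain ⟨c, hc⟩ : ∃ c : ℕ → ℝ, c = fun i : ℕ => 3 * ((i : ℝ) ^ (3 * e0 + 5) * Real.exp (-2 * (i : ℝ))) :=
    ⟨_, rfl⟩
  have hc0 : ∀ i, 0 ≤ c i := by
    intro i
    rw [hc]
    positivity
  have hcs : Summable c := by
    rw [hc]
    exact (Real.summable_pow_mul_exp_neg_nat_mul (3 * e0 + 5) (by norm_num : (0 : ℝ) < 2)).mul_left 3
  have hBp : ∀ i, μ (Bd i) ≤ ENNReal.ofReal (c i) := by
    intro i
    rw [hBd]
    simp only
    by_cases hi : i0 ≤ i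
    · rw [if_pos hi]
      refine (measure_biUnion_finset_le _ _).trans ?_
      have h1 : ∀ n ∈ range (i ^ (2 * e0 + 4)), μ (⋃ w ∈ range (i ^ (e0 + 1)), E i n w) ≤
          ENNReal.ofReal ((i : ℝ) ^ (e0 + 1) * (3 * Real.exp (-2 * i))) := by
        intro n _
        refine (measure_biUnion_finset_le _ _).trans ?_
        refine (sum_le_sum fun w hw => hEp i hi n w (mem_range.1 hw)).trans ?_
        have e1 : ((i ^ (e0 + 1) : ℕ) : ENNReal) = ENNReal.ofReal ((i : ℝ) ^ (e0 + 1)) := by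
          rw [← Nat.cast_pow, ENNReal.ofReal_natCast]
        rw [sum_const, card_range, nsmul_eq_mul, e1, ← ENNReal.ofReal_mul (by positivity)]
      refine (sum_le_sum h1).trans ?_
      rw [sum_const, card_range, nsmul_eq_mul]
      have e1 : ((i ^ (2 * e0 + 4) : ℕ) : ENNReal) = ENNReal.ofReal ((i : ℝ) ^ (2 * e0 + 4)) := by
        rw [← Nat.cast_pow, ENNReal.ofReal_natCast]
      rw [e1, ← ENNReal.ofReal_mul (by positivity)]
      refine ENNReal.ofReal_le_ofReal (le_of_eq ?_)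
      rw [hc]
      simp only
      ring
    · rw [if_neg hi, measure_empty]
      exact zero_le
  have hsum : ∑' i, μ (Bd i) ≠ ⊤ := by
    refine ne_top_of_le_ne_top ?_ (ENNReal.tsum_le_tsum hBp)
    rw [← ENNReal.ofReal_tsum_of_nonneg hc0 hcs]
    exact ENNReal.ofReal_ne_top
  filter_upwards [ae_eventually_notMem hsum] with ω hω
  filter_upwards [hω, eventually_ge_atTop i0] with i hi hii hC n hn w hw
  by_contra hcon
  push Not at hcon
  apply hi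
  rw [hBd]
  simp only
  rw [if_pos hii, Set.mem_iUnion₂]
  refine ⟨n, mem_range.2 hn, ?_⟩
  rw [Set.mem_iUnion₂]
  refine ⟨w, mem_range.2 hw, ?_⟩
  rw [hE]
  refine ⟨hC, ?_⟩
  obtain ⟨_, _, _, a4⟩ := hi0 i hii
  obtain ⟨H, hH⟩ : ∃ H, H = i ^ (e0 + 1) := ⟨_, rfl⟩
  rw [← hH] at hcon ⊢
  have hH1 : 1 ≤ H := by
    rw [hH]
    exact Nat.one_le_pow _ _ a4
  have h1 := stretch b (by omega) (rho b β h n * g (CC (xi A) b ω)) (4 * H * w) (4 * H * w + (4 * H - 1)) (by omega)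
    (fun l h1 h2 => hcon l h1 (by
      have e1 : 4 * H * (w + 1) = 4 * H * w + 4 * H := by ring
      omega))
  have h2 := hcon (4 * H * w + (4 * H - 1)) (by omega) (by
      have e1 : 4 * H * (w + 1) = 4 * H * w + 4 * H := by ring
      omega)
  rw [← h1, Nat.add_sub_cancel_left, lt_div_iff₀ (by positivity)] at h2
  rw [lt_div_iff₀ (by positivity)]
  have h3 : (b : ℝ) ^ (4 * H) = (b : ℝ) ^ (4 * H - 1) * b := by
    rw [← pow_succ]
    congr 1
    omega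
  rw [h3]
  linarith

end H41.NL
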