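import Pool.Agent.H41.NL.D

/-! # Exponential sums along curved functions of sparse random numbers -/

set_option autoImplicit false
set_option linter.unusedSectionVars false

open Finset Filter Topology MeasureTheory ProbabilityTheory

namespace H41.NL

open H41.SW H41.RM

/-- the weights -/
noncomputable def cb (b : ℕ) (j : ℕ) : ℝ := 1 / (b : ℝ) ^ j

variable {Ω : Type*} [MeasurableSpace Ω] (μ : Measure Ω) [IsProbabilityMeasure μ]

/-- the partial sums -/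
noncomputable def CS (A : ℕ → Set Ω) (b m : ℕ) (ω : Ω) : ℝ := ∑ j ∈ range m, cb b j * xi A j ω

lemma CS_eq (A : ℕ → Set Ω) (b m : ℕ) (ω : Ω) : CS A b m ω = ∑ j ∈ range m, xi A j ω / (b : ℝ) ^ j := by
  unfold CS cb
  refine sum_congr rfl fun j _ => ?_
  ring

lemma CS_tail (A : ℕ → Set Ω) (b : ℕ) (hb : 2 ≤ b) (m : ℕ) (ω : Ω) :
    |CC (xi A) b ω - CS A b m ω| ≤ 2 / (b : ℝ) ^ m := by
  rw [CS_eq]
  exact tail_CC (xi A) b hb (xi_le A) ω m

lemma CS_tendsto (A : ℕ → Set Ω) (b : ℕ) (hb : 2 ≤ b) (ω : Ω) :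
    Tendsto (fun m => CS A b m ω) atTop (𝓝 (CC (xi A) b ω)) := by
  have h1 := (summ_CC (xi A) b hb (xi_le A) ω).hasSum.tendsto_sum_nat
  refine h1.congr fun m => ?_
  rw [CS_eq]

lemma term1 (A : ℕ → Set Ω) (b : ℕ) (hb : 2 ≤ b) (f g : ℝ → ℝ) (s0 t0 M G : ℝ) (ω : Ω)
    (h1 : CC (xi A) b ω ∈ Set.Ioo s0 t0) (lo hi : ℕ) (hlh : lo ≤ hi) (h2 : CS A b lo ω ∈ Set.Ioo s0 t0)
    (a : ℝ) (hM0 : 0 ≤ M)
    (hf : ∀ u ∈ Set.Ioo s0 t0, ∀ v ∈ Set.Ioo s0 t0, |f v - f u - g u * (v - u)| ≤ M * (v - u) ^ 2)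
    (hG : ∀ u ∈ Set.Ioo s0 t0, |g u| ≤ G) :
    ‖e (a * f (CC (xi A) b ω)) - DN μ (xi A) f g (cb b) a lo hi (fun j => xi A j ω)‖ ≤
      2 * Real.pi * (|a| * (4 * M / ((b : ℝ) ^ lo) ^ 2 + 2 * G / (b : ℝ) ^ hi)) +
        ‖ph μ (xi A) (cb b) (a * g (CS A b lo ω)) lo hi‖ := by
  have hb0 : (0 : ℝ) < b := by exact_mod_cast (by omega : 0 < b)
  obtain ⟨C, hC⟩ : ∃ C, C = CC (xi A) b ω := ⟨_, rfl⟩
  obtain ⟨Cl, hCl⟩ : ∃ Cl, Cl = CS A b lo ω := ⟨_, rfl⟩
  obtain ⟨T, hT⟩ : ∃ T, T = ∑ j ∈ Ico lo hi, cb b j * xi A j ω := ⟨_, rfl⟩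
  have hsum : Cl + T = CS A b hi ω := by
    rw [hCl, hT]
    unfold CS
    exact Finset.sum_range_add_sum_Ico _ hlh
  have t1 : |C - Cl| ≤ 2 / (b : ℝ) ^ lo := by rw [hC, hCl]; exact CS_tail A b hb lo ω
  have t2 : |C - Cl - T| ≤ 2 / (b : ℝ) ^ hi := by
    rw [sub_sub, hsum, hC]
    exact CS_tail A b hb hi ω
  have e0 : DN μ (xi A) f g (cb b) a lo hi (fun j => xi A j ω) =
      e (a * f Cl) * (e (a * g Cl * T) - ph μ (xi A) (cb b) (a * g Cl) lo hi) := by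
    rw [hCl, hT]
    unfold CS DN
    rfl
  rw [e0, ← hC, ← hCl]
  rw [← hC] at h1
  rw [← hCl] at h2
  have e1 : e (a * f C) - e (a * f Cl) * (e (a * g Cl * T) - ph μ (xi A) (cb b) (a * g Cl) lo hi) =
      (e (a * f C) - e (a * f Cl + a * g Cl * T)) + e (a * f Cl) * ph μ (xi A) (cb b) (a * g Cl) lo hi := by
    rw [e_add]
    ring
  rw [e1]
  refine (norm_add_le _ _).trans (add_le_add ?_ ?_)
  · refine (e_sub_le _ _).trans ?_
    have e2 : a * f C - (a * f Cl + a * g Cl * T) =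
        a * ((f C - f Cl - g Cl * (C - Cl)) + g Cl * (C - Cl - T)) := by ring
    rw [e2, abs_mul]
    have h3 := hf Cl h2 C h1
    have h4 := hG Cl h2
    have h5 : M * (C - Cl) ^ 2 ≤ 4 * M / ((b : ℝ) ^ lo) ^ 2 := by
      rw [← sq_abs]
      calc M * |C - Cl| ^ 2 ≤ M * (2 / (b : ℝ) ^ lo) ^ 2 := by gcongr
        _ = _ := by ring
    have h6 : |g Cl * (C - Cl - T)| ≤ 2 * G / (b : ℝ) ^ hi := by
      rw [abs_mul]
      calc |g Cl| * |C - Cl - T| ≤ G * (2 / (b : ℝ) ^ hi) := by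
            have : 0 ≤ G := (abs_nonneg _).trans h4
            gcongr
        _ = _ := by ring
    gcongr
    exact (abs_add_le _ _).trans (add_le_add (h3.trans h5) h6)
  · rw [norm_mul, e_norm, one_mul]

lemma ph_windows (A : ℕ → Set Ω) (hA : ∀ j, MeasurableSet (A j)) (hind : iIndepSet A μ) (b : ℕ) (hb : 2 ≤ b)
    (a' : ℝ) (P K H W : ℕ) (hK : 4 * H * W ≤ K) (hP : K ≤ P) (θ : ℝ)
    (hq : ∀ l < K, θ ≤ qq μ A (P - l))
    (hw : ∀ w < W, ∃ l, 4 * H * w ≤ l ∧ l < 4 * H * (w + 1) ∧ 1 / (4 * (b : ℝ)) ≤ nn (a' * cb b (P - l))) :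
    ‖ph μ (xi A) (cb b) a' (P + 1 - K) (P + K)‖ ≤ Real.exp (-(W * (θ / (2 * (b : ℝ) ^ 2)))) := by
  classical
  have hb0 : (0 : ℝ) < b := by exact_mod_cast (by omega : 0 < b)
  have h1 := ph_bound μ (xi A) (xi_meas A hA) (xi_indep μ A hind)
    (fun j => 8 * (μ.real (A j) * (1 - μ.real (A j)))) (fun j t => char_event μ (A j) (hA j) t)
    (cb b) a' (P + 1 - K) (P + K)
  refine h1.trans ?_
  rw [Real.exp_le_exp, neg_le_neg_iff]
  choose! l hl using hw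
  have hlK : ∀ w < W, l w < K := by
    intro w hw
    obtain ⟨_, h3, _⟩ := hl w hw
    have h4 : 4 * H * (w + 1) ≤ 4 * H * W := Nat.mul_le_mul_left _ hw
    omega
  have hinj : Set.InjOn (fun w => P - l w) (range W) := by
    intro w hw w' hw' hww
    rw [coe_range, Set.mem_Iio] at hw hw'
    simp only at hww
    have k1 := hlK w hw
    have k2 := hlK w' hw'
    have k3 : l w = l w' := by omega
    obtain ⟨a1, a2, _⟩ := hl w hw
    obtain ⟨b1, b2, _⟩ := hl w' hw'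
    have k4 : 4 * H * w < 4 * H * (w' + 1) := by omega
    have k5 : 4 * H * w' < 4 * H * (w + 1) := by omega
    have k6 := lt_of_mul_lt_mul_left k4 (Nat.zero_le _)
    have k7 := lt_of_mul_lt_mul_left k5 (Nat.zero_le _)
    omega
  have hsub : (range W).image (fun w => P - l w) ⊆ Ico (P + 1 - K) (P + K) := by
    intro j hj
    rw [mem_image] at hj
    obtain ⟨w, hw, rfl⟩ := hj
    rw [mem_range] at hw
    have k1 := hlK w hw
    rw [mem_Ico]
    omega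
  have hnn : ∀ j, 0 ≤ 8 * (μ.real (A j) * (1 - μ.real (A j))) := by
    intro j
    have h2 : 0 ≤ μ.real (A j) := measureReal_nonneg
    have h3 : μ.real (A j) ≤ 1 := measureReal_le_one
    have h4 : 0 ≤ 1 - μ.real (A j) := by linarith
    positivity
  calc (W : ℝ) * (θ / (2 * (b : ℝ) ^ 2)) = ∑ w ∈ range W, θ / (2 * (b : ℝ) ^ 2) := by
        rw [sum_const, card_range, nsmul_eq_mul]
    _ ≤ ∑ w ∈ range W, 8 * (μ.real (A (P - l w)) * (1 - μ.real (A (P - l w)))) *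
          nn (a' * cb b (P - l w)) ^ 2 := by
        refine sum_le_sum fun w hw => ?_
        rw [mem_range] at hw
        have h2 := hq (l w) (hlK w hw)
        obtain ⟨_, _, h3⟩ := hl w hw
        unfold qq at h2
        calc θ / (2 * (b : ℝ) ^ 2) = 8 * θ * (1 / (4 * (b : ℝ))) ^ 2 := by
              field_simp
              ring
          _ ≤ _ := by
              have h4 := hnn (P - l w)
              gcongr
    _ = ∑ j ∈ (range W).image (fun w => P - l w), 8 * (μ.real (A j) * (1 - μ.real (A j))) *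
          nn (a' * cb b j) ^ 2 := by
        rw [sum_image hinj]
    _ ≤ _ := sum_le_sum_of_subset_of_nonneg hsub fun j _ _ => mul_nonneg (hnn j) (sq_nonneg _)

end H41.NL
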