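import Pool.Agent.H41.NL.E

/-! # Equidistribution along curved functions of sparse random numbers -/

set_option autoImplicit false
set_option linter.unusedSectionVars false

open Finset Filter Topology MeasureTheory ProbabilityTheory

namespace H41.NL

open H41.SW H41.RM

variable {Ω : Type*} [MeasurableSpace Ω] (μ : Measure Ω) [IsProbabilityMeasure μ]

/-- One term, for a place that is large enough. -/
lemma term_far (A : ℕ → Set Ω) (hA : ∀ j, MeasurableSet (A j)) (hind : iIndepSet A μ) (b β : ℕ) (hb : 2 ≤ b)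
    (hβ : 2 ≤ β) (f g : ℝ → ℝ) (s0 t0 M G h : ℝ) (hh : 1 ≤ |h|) (hM0 : 0 ≤ M) (hG0 : 0 ≤ G)
    (hf : ∀ u ∈ Set.Ioo s0 t0, ∀ v ∈ Set.Ioo s0 t0, |f v - f u - g u * (v - u)| ≤ M * (v - u) ^ 2)
    (hG : ∀ u ∈ Set.Ioo s0 t0, |g u| ≤ G)
    (hgM : ∀ u ∈ Set.Ioo s0 t0, ∀ v ∈ Set.Ioo s0 t0, |g v - g u| ≤ M * |v - u|)
    (ω : Ω) (hC : CC (xi A) b ω ∈ Set.Ioo s0 t0) (n K H W : ℕ) (hKW : 4 * H * W ≤ K)
    (hPK : 3 * K ≤ PJ b β n) (hCl : CS A b (PJ b β n + 1 - K) ω ∈ Set.Ioo s0 t0)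
    (θ : ℝ) (hq : ∀ l < K, θ ≤ qq μ A (PJ b β n - l))
    (hbig : 8 * (b : ℝ) ^ 2 * |h| * M ≤ (b : ℝ) ^ K) (hK1 : 1 ≤ K)
    (hw : ∀ w < W, ∃ l, 4 * H * w ≤ l ∧ l < 4 * H * (w + 1) ∧
        1 / (2 * (b : ℝ)) ≤ nn (rho b β h n * g (CC (xi A) b ω) * (b : ℝ) ^ l)) :
    ‖e (h * (β : ℝ) ^ n * f (CC (xi A) b ω)) - DN μ (xi A) f g (cb b) (h * (β : ℝ) ^ n)
      (PJ b β n + 1 - K) (PJ b β n + K) (fun j => xi A j ω)‖ ≤
      2 * Real.pi * (|h| * (4 * M + 2 * G * b)) / (b : ℝ) ^ K + Real.exp (-(W * (θ / (2 * (b : ℝ) ^ 2)))) := by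
  have hb1 : (1 : ℝ) < b := by exact_mod_cast (by omega : 1 < b)
  have hb0 : (0 : ℝ) < b := by linarith
  have hβ0 : (0 : ℝ) < β := by exact_mod_cast (by omega : 0 < β)
  obtain ⟨P, hP⟩ : ∃ P, P = PJ b β n := ⟨_, rfl⟩
  obtain ⟨s1, s2⟩ := PJ_spec b β hb hβ n
  obtain ⟨r1, r2⟩ := rho_bounds b β hb hβ h n
  rw [← hP] at hPK hCl hq s1 s2 ⊢
  obtain ⟨lo, hlo⟩ : ∃ lo, lo = P + 1 - K := ⟨_, rfl⟩
  have hloP : lo + K = P + 1 := by omega
  have h1 := term1 μ A b hb f g s0 t0 M G ω hC (P + 1 - K) (P + K) (by omega) hCl (h * (β : ℝ) ^ n) hM0 hf hG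
  refine h1.trans (add_le_add ?_ ?_)
  · rw [mul_div_assoc (2 * Real.pi) (|h| * (4 * M + 2 * G * b))]
    refine mul_le_mul_of_nonneg_left ?_ (show (0 : ℝ) ≤ 2 * Real.pi by positivity)
    rw [← hlo, abs_mul, abs_of_pos (show (0 : ℝ) < (β : ℝ) ^ n by positivity)]
    have k1 : (β : ℝ) ^ n * (b : ℝ) ^ K ≤ ((b : ℝ) ^ lo) ^ 2 := by
      calc (β : ℝ) ^ n * (b : ℝ) ^ K ≤ (b : ℝ) ^ (P + 1) * (b : ℝ) ^ K := by gcongr
        _ = (b : ℝ) ^ (P + 1 + K) := (pow_add _ _ _).symm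
        _ ≤ (b : ℝ) ^ (lo * 2) := pow_le_pow_right₀ hb1.le (by omega)
        _ = _ := pow_mul _ _ _
    have k2 : (β : ℝ) ^ n * (b : ℝ) ^ K ≤ (b : ℝ) ^ (P + K) * b := by
      calc (β : ℝ) ^ n * (b : ℝ) ^ K ≤ (b : ℝ) ^ (P + 1) * (b : ℝ) ^ K := by gcongr
        _ = _ := by ring
    have k3 : (β : ℝ) ^ n * (4 * M / ((b : ℝ) ^ lo) ^ 2) ≤ 4 * M / (b : ℝ) ^ K := by
      rw [← mul_div_assoc, div_le_div_iff₀ (by positivity) (by positivity)]
      calc (β : ℝ) ^ n * (4 * M) * (b : ℝ) ^ K = 4 * M * ((β : ℝ) ^ n * (b : ℝ) ^ K) := by ring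
        _ ≤ _ := by gcongr
    have k4 : (β : ℝ) ^ n * (2 * G / (b : ℝ) ^ (P + K)) ≤ 2 * G * b / (b : ℝ) ^ K := by
      rw [← mul_div_assoc, div_le_div_iff₀ (by positivity) (by positivity)]
      calc (β : ℝ) ^ n * (2 * G) * (b : ℝ) ^ K = 2 * G * ((β : ℝ) ^ n * (b : ℝ) ^ K) := by ring
        _ ≤ 2 * G * ((b : ℝ) ^ (P + K) * b) := by gcongr
        _ = _ := by ring
    calc |h| * (β : ℝ) ^ n * (4 * M / ((b : ℝ) ^ lo) ^ 2 + 2 * G / (b : ℝ) ^ (P + K))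
        = |h| * ((β : ℝ) ^ n * (4 * M / ((b : ℝ) ^ lo) ^ 2) + (β : ℝ) ^ n * (2 * G / (b : ℝ) ^ (P + K))) := by ring
      _ ≤ |h| * (4 * M / (b : ℝ) ^ K + 2 * G * b / (b : ℝ) ^ K) := by gcongr
      _ = _ := by ring
  · refine ph_windows μ A hA hind b hb _ P K H W hKW (by omega) θ hq fun w hw' => ?_
    obtain ⟨l, a1, a2, a3⟩ := hw w hw'
    refine ⟨l, a1, a2, ?_⟩
    have hlK : l < K := by
      have h4 : 4 * H * (w + 1) ≤ 4 * H * W := Nat.mul_le_mul_left _ hw'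
      omega
    have e1 : h * (β : ℝ) ^ n * g (CS A b (P + 1 - K) ω) * cb b (P - l) =
        rho b β h n * g (CS A b lo ω) * (b : ℝ) ^ l := by
      unfold cb rho
      rw [← hP, ← hlo]
      have e2 : (b : ℝ) ^ P = (b : ℝ) ^ (P - l) * (b : ℝ) ^ l := by
        rw [← pow_add]
        congr 1
        omega
      rw [e2]
      field_simp
    rw [e1]
    have h3 : nn (rho b β h n * g (CC (xi A) b ω) * (b : ℝ) ^ l) ≤ nn (rho b β h n * g (CS A b lo ω) * (b : ℝ) ^ l) +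
        |rho b β h n * g (CC (xi A) b ω) * (b : ℝ) ^ l - rho b β h n * g (CS A b lo ω) * (b : ℝ) ^ l| := by
      have h5 := nn_le (rho b β h n * g (CC (xi A) b ω) * (b : ℝ) ^ l)
        (round (rho b β h n * g (CS A b lo ω) * (b : ℝ) ^ l))
      have h6 := abs_sub_le (rho b β h n * g (CC (xi A) b ω) * (b : ℝ) ^ l)
        (rho b β h n * g (CS A b lo ω) * (b : ℝ) ^ l)
        (round (rho b β h n * g (CS A b lo ω) * (b : ℝ) ^ l) : ℝ)
      have h7 : nn (rho b β h n * g (CS A b lo ω) * (b : ℝ) ^ l) =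
        |rho b β h n * g (CS A b lo ω) * (b : ℝ) ^ l -
          (round (rho b β h n * g (CS A b lo ω) * (b : ℝ) ^ l) : ℝ)| := rfl
      linarith
    have h4 : |rho b β h n * g (CC (xi A) b ω) * (b : ℝ) ^ l - rho b β h n * g (CS A b lo ω) * (b : ℝ) ^ l| ≤
        1 / (4 * (b : ℝ)) := by
      have e3 : rho b β h n * g (CC (xi A) b ω) * (b : ℝ) ^ l - rho b β h n * g (CS A b lo ω) * (b : ℝ) ^ l =
        rho b β h n * (g (CC (xi A) b ω) - g (CS A b lo ω)) * (b : ℝ) ^ l := by ring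
      rw [e3, abs_mul, abs_mul, abs_of_pos (show (0 : ℝ) < (b : ℝ) ^ l by positivity)]
      rw [← hlo] at hCl
      have h5 := hgM _ hCl _ hC
      have h6 := CS_tail A b hb lo ω
      have h7 : (b : ℝ) ^ l * (b : ℝ) ^ K ≤ (b : ℝ) ^ lo := by
        rw [← pow_add]
        exact pow_le_pow_right₀ hb1.le (by omega)
      calc |rho b β h n| * |g (CC (xi A) b ω) - g (CS A b lo ω)| * (b : ℝ) ^ l
          ≤ (b * |h|) * (M * (2 / (b : ℝ) ^ lo)) * (b : ℝ) ^ l := by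
            gcongr
            exact h5.trans (by gcongr)
        _ = (2 * b * |h| * M) * ((b : ℝ) ^ l / (b : ℝ) ^ lo) := by ring
        _ ≤ (2 * b * |h| * M) * (1 / (b : ℝ) ^ K) := by
            refine mul_le_mul_of_nonneg_left ?_ (show (0 : ℝ) ≤ 2 * b * |h| * M by positivity)
            rw [div_le_div_iff₀ (by positivity) (by positivity), one_mul]
            exact h7
        _ = (8 * (b : ℝ) ^ 2 * |h| * M) / (b : ℝ) ^ K * (1 / (4 * b)) := by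
            field_simp
            ring
        _ ≤ 1 * (1 / (4 * b)) := by
            gcongr
            exact div_le_one_of_le₀ hbig (by positivity)
        _ = _ := one_mul _
    have h5 : 1 / (2 * (b : ℝ)) = 1 / (4 * b) + 1 / (4 * b) := by
      field_simp
      norm_num
    linarith

end H41.NL
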