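import Pool.Agent.H41.NL.F

/-! # Almost sure equidistribution along curved functions of sparse random numbers -/

set_option autoImplicit false
set_option linter.unusedSectionVars false

open Finset Filter Topology MeasureTheory ProbabilityTheory

namespace H41.NL

open H41.SW H41.RM

variable {Ω : Type*} [MeasurableSpace Ω] (μ : Measure Ω) [IsProbabilityMeasure μ]

lemma second_ae (A : ℕ → Set Ω) (hA : ∀ j, MeasurableSet (A j)) (hind : iIndepSet A μ) (b β : ℕ) (hb : 2 ≤ b)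
    (hβ : 2 ≤ β) (e0 : ℕ) (f g : ℝ → ℝ) (hfm : Measurable f) (hgm : Measurable g) (h : ℝ) :
    ∀ᵐ ω ∂μ, Tendsto (fun i : ℕ => ‖∑ n ∈ range (i ^ (2 * e0 + 4)),
      DN μ (xi A) f g (cb b) (h * (β : ℝ) ^ n) (PJ b β n + 1 - 4 * i ^ (2 * e0 + 2))
        (PJ b β n + 4 * i ^ (2 * e0 + 2)) (fun j => xi A j ω)‖ ^ 2 / ((i : ℝ) ^ (2 * e0 + 4)) ^ 2) atTop (𝓝 0) := by
  have hb0 : (0 : ℝ) < b := by exact_mod_cast (by omega : 0 < b)
  obtain ⟨D, hD⟩ : ∃ D : ℕ → ℕ → Ω → ℂ, D = fun i n ω =>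
      DN μ (xi A) f g (cb b) (h * (β : ℝ) ^ n) (PJ b β n + 1 - 4 * i ^ (2 * e0 + 2))
        (PJ b β n + 4 * i ^ (2 * e0 + 2)) (fun j => xi A j ω) := ⟨_, rfl⟩
  have hDm : ∀ i n, Measurable (D i n) := by
    intro i n
    rw [hD]
    exact (meas_DN μ (xi A) (xi_meas A hA) f g hfm hgm (cb b) _ _ _).comp
      (measurable_pi_lambda _ fun j => xi_meas A hA j)
  have hDn : ∀ i n ω, ‖D i n ω‖ ≤ 2 := by
    intro i n ω
    rw [hD]
    exact norm_DN μ (xi A) f g (cb b) _ _ _ _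
  obtain ⟨F, hF⟩ : ∃ F : ℕ → Ω → ℝ, F = fun i ω => ‖∑ n ∈ range (i ^ (2 * e0 + 4)), D i n ω‖ ^ 2 /
      ((i : ℝ) ^ (2 * e0 + 4)) ^ 2 := ⟨_, rfl⟩
  have hFm : ∀ i, Measurable (F i) := by
    intro i
    rw [hF]
    refine Measurable.div_const (Measurable.pow_const (Measurable.norm ?_) 2) _
    exact Finset.measurable_fun_sum _ fun n _ => hDm i n
  have hF0 : ∀ i ω, 0 ≤ F i ω := fun i ω => by rw [hF]; positivity
  have hFint : ∀ i, Integrable (F i) μ := by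
    intro i
    refine Integrable.of_bound (hFm i).aestronglyMeasurable ((2 * (i : ℝ) ^ (2 * e0 + 4)) ^ 2 /
      ((i : ℝ) ^ (2 * e0 + 4)) ^ 2) (Eventually.of_forall fun ω => ?_)
    rw [Real.norm_of_nonneg (hF0 i ω), hF]
    simp only
    gcongr
    refine (norm_sum_le _ _).trans ((sum_le_sum fun n _ => hDn i n ω).trans ?_)
    rw [sum_const, card_range, nsmul_eq_mul]
    push_cast
    linarith
  have hFs : ∀ i, ∫ ω, F i ω ∂μ ≤ 64 * b / (i : ℝ) ^ 2 := by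
    intro i
    rcases Nat.eq_zero_or_pos i with h0 | h0
    · subst h0
      rw [hF]
      simp
    · have h1 := second_gen μ (D i) (hDm i) (hDn i) (i ^ (2 * e0 + 4)) (b * (2 * (4 * i ^ (2 * e0 + 2)))) (by
          intro m n hmn
          have h2 := J_lower b β hb hβ 1 le_rfl m n (2 * (4 * i ^ (2 * e0 + 2))) hmn
          have h3 : 0 < i ^ (2 * e0 + 2) := by positivity
          rw [hD]
          refine orthN μ (xi A) (xi_meas A hA) (xi_indep μ A hind) f g hfm hgm (cb b) _ _ _ _ _ _ ?_ ?_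
          · unfold PJ
            omega
          · omega)
      have hir : (0 : ℝ) < i := by exact_mod_cast h0
      have e1 : ∫ ω, F i ω ∂μ = (∫ ω, ‖∑ n ∈ range (i ^ (2 * e0 + 4)), D i n ω‖ ^ 2 ∂μ) /
          ((i : ℝ) ^ (2 * e0 + 4)) ^ 2 := by
        rw [hF]
        exact integral_div _ _
      rw [e1, div_le_div_iff₀ (by positivity) (by positivity)]
      calc (∫ ω, ‖∑ n ∈ range (i ^ (2 * e0 + 4)), D i n ω‖ ^ 2 ∂μ) * (i : ℝ) ^ 2
          ≤ (8 * ((b * (2 * (4 * i ^ (2 * e0 + 2))) : ℕ) : ℝ) * ((i ^ (2 * e0 + 4) : ℕ) : ℝ)) * (i : ℝ) ^ 2 := by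
            gcongr
        _ = 64 * b * ((i : ℝ) ^ (2 * e0 + 4)) ^ 2 := by
            push_cast
            ring
  have hsum : Summable fun i : ℕ => 64 * (b : ℝ) / (i : ℝ) ^ 2 := by
    have h1 : Summable fun i : ℕ => 1 / (i : ℝ) ^ 2 := Real.summable_one_div_nat_pow.2 (by norm_num)
    refine (h1.mul_left (64 * (b : ℝ))).congr fun i => ?_
    ring
  have hae := ae_small μ F hFm hF0 hFint _ hsum hFs
  rw [hF, hD] at hae
  exact hae

/-- **Equidistribution along curved functions.** -/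
theorem curved (A : ℕ → Set Ω) (hA : ∀ j, MeasurableSet (A j)) (hind : iIndepSet A μ) (b β : ℕ) (hb : 2 ≤ b)
    (hβ : 2 ≤ β) (e0 : ℕ)
    (hq : ∀ B : ℕ, ∀ᶠ i : ℕ in atTop, ∀ j, i ≤ j → j ≤ B * i ^ (2 * e0 + 4) → 1 ≤ qq μ A j * (i : ℝ) ^ e0)
    (f g : ℝ → ℝ) (hfm : Measurable f) (hgm : Measurable g) (s0 t0 M δ G h : ℝ) (hδ : 0 < δ) (hh : 1 ≤ |h|)
    (hM0 : 0 ≤ M) (hG0 : 0 ≤ G)
    (hf : ∀ u ∈ Set.Ioo s0 t0, ∀ v ∈ Set.Ioo s0 t0, |f v - f u - g u * (v - u)| ≤ M * (v - u) ^ 2)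
    (hG : ∀ u ∈ Set.Ioo s0 t0, |g u| ≤ G)
    (hgM : ∀ u ∈ Set.Ioo s0 t0, ∀ v ∈ Set.Ioo s0 t0, |g v - g u| ≤ M * |v - u|)
    (hgδ : ∀ u ∈ Set.Ioo s0 t0, ∀ v ∈ Set.Ioo s0 t0, δ * |v - u| ≤ |g v - g u|) :
    ∀ᵐ ω ∂μ, CC (xi A) b ω ∈ Set.Ioo s0 t0 →
      Tendsto (avg fun n => e (h * (β : ℝ) ^ n * f (CC (xi A) b ω))) atTop (𝓝 0) := by
  classical
  have hb1 : (1 : ℝ) < b := by exact_mod_cast (by omega : 1 < b)
  have hb0 : (0 : ℝ) < b := by linarith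
  have w1 := second_ae μ A hA hind b β hb hβ e0 f g hfm hgm h
  have w2 := ae_win μ A hA hind b β hb hβ e0 hq g hgm s0 t0 M δ h hδ hh hM0 hgM hgδ
  filter_upwards [w1, w2] with ω hω1 hω2 hC
  obtain ⟨z, hz⟩ : ∃ z : ℕ → ℂ, z = fun n => e (h * (β : ℝ) ^ n * f (CC (xi A) b ω)) := ⟨_, rfl⟩
  rw [← hz]
  have hz1 : ∀ n, ‖z n‖ ≤ 1 := fun n => by rw [hz]; exact (e_norm _).le
  refine interpk (2 * e0 + 4) (by omega) z hz1 ?_
  rw [tendsto_zero_iff_norm_tendsto_zero, Metric.tendsto_atTop]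
  intro ε hε
  obtain ⟨K, hK⟩ : ∃ K : ℕ → ℕ, K = fun i => 4 * i ^ (2 * e0 + 2) := ⟨_, rfl⟩
  obtain ⟨D, hD⟩ : ∃ D : ℕ → ℕ → ℂ, D = fun i n =>
      DN μ (xi A) f g (cb b) (h * (β : ℝ) ^ n) (PJ b β n + 1 - K i) (PJ b β n + K i) (fun j => xi A j ω) := ⟨_, rfl⟩
  have hDn : ∀ i n, ‖D i n‖ ≤ 2 := by
    intro i n
    rw [hD]
    exact norm_DN μ (xi A) f g (cb b) _ _ _ _
  -- the partial sums are in the interval
  obtain ⟨m1, hm1⟩ := eventually_atTop.1 ((CS_tendsto A b hb ω).eventually (isOpen_Ioo.mem_nhds hC))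
  -- the places
  obtain ⟨g', hg'⟩ := J_upper b β hb hβ 1 le_rfl
  have hKt : Tendsto K atTop atTop := by
    rw [hK]
    rw [tendsto_atTop]
    intro m
    filter_upwards [eventually_ge_atTop m, eventually_ge_atTop 1] with i hi hi1
    have : i ≤ i ^ (2 * e0 + 2) := Nat.le_self_pow (by omega) i
    omega
  have hbK : Tendsto (fun i : ℕ => (b : ℝ) ^ K i) atTop atTop :=
    (tendsto_pow_atTop_atTop_of_one_lt hb1).comp hKt
  have p1 : ∀ᶠ i : ℕ in atTop, ‖∑ n ∈ range (i ^ (2 * e0 + 4)), D i n‖ ^ 2 / ((i : ℝ) ^ (2 * e0 + 4)) ^ 2 <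
      (ε / 4) ^ 2 := by
    have h1 := hω1.eventually (gt_mem_nhds (show (0 : ℝ) < (ε / 4) ^ 2 by positivity))
    rw [hD, hK]
    exact h1
  have p3 : ∀ᶠ i : ℕ in atTop, 2 * Real.pi * (|h| * (4 * M + 2 * G * b)) / (b : ℝ) ^ K i < ε / 8 := by
    have h2 : Tendsto (fun i : ℕ => 2 * Real.pi * (|h| * (4 * M + 2 * G * b)) / (b : ℝ) ^ K i) atTop (𝓝 0) :=
      tendsto_const_nhds.div_atTop hbK
    exact h2.eventually (gt_mem_nhds (show (0 : ℝ) < ε / 8 by positivity))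
  have p4 : ∀ᶠ i : ℕ in atTop, Real.exp (-((i : ℝ) / (2 * (b : ℝ) ^ 2))) < ε / 8 := by
    have h1 : Tendsto (fun i : ℕ => (i : ℝ) / (2 * (b : ℝ) ^ 2)) atTop atTop :=
      tendsto_natCast_atTop_atTop.atTop_div_const (by positivity)
    have h2 : Tendsto (fun i : ℕ => Real.exp (-((i : ℝ) / (2 * (b : ℝ) ^ 2)))) atTop (𝓝 0) :=
      Real.tendsto_exp_neg_atTop_nhds_zero.comp h1
    exact h2.eventually (gt_mem_nhds (show (0 : ℝ) < ε / 8 by positivity))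
  have p5 : ∀ᶠ i : ℕ in atTop, 36 * (b : ℝ) / (i : ℝ) < ε / 4 := by
    have h2 : Tendsto (fun i : ℕ => 36 * (b : ℝ) / (i : ℝ)) atTop (𝓝 0) :=
      tendsto_const_nhds.div_atTop tendsto_natCast_atTop_atTop
    exact h2.eventually (gt_mem_nhds (show (0 : ℝ) < ε / 4 by positivity))
  obtain ⟨i0, hi0⟩ := eventually_atTop.1 (p1.and (p3.and (p4.and (p5.and ((hq (β + g')).and (hω2.and
    ((hbK.eventually_ge_atTop (8 * (b : ℝ) ^ 2 * |h| * M)).and ((hKt.eventually_ge_atTop m1).and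
      (eventually_ge_atTop 1)))))))))
  refine ⟨i0, fun i hi' => ?_⟩
  obtain ⟨q1, q3, q4, q5, q6, q7, q8, q9, q10⟩ := hi0 i hi'
  have hir : (1 : ℝ) ≤ i := by exact_mod_cast q10
  have hir0 : (0 : ℝ) < i := by linarith
  rw [dist_zero_right, norm_norm, norm_div, norm_pow, Complex.norm_natCast, div_lt_iff₀ (by positivity)]
  have hKi : K i = 4 * i ^ (2 * e0 + 2) := by rw [hK]
  have hiK : i ≤ K i := by
    have : i ≤ i ^ (2 * e0 + 2) := Nat.le_self_pow (by omega) i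
    omega
  have r1 : ‖∑ n ∈ range (i ^ (2 * e0 + 4)), D i n‖ ≤ ε / 4 * (i : ℝ) ^ (2 * e0 + 4) := by
    rw [div_lt_iff₀ (by positivity), ← mul_pow] at q1
    exact (lt_of_pow_lt_pow_left₀ 2 (by positivity) q1).le
  have r2 : ∀ n < i ^ (2 * e0 + 4), 3 * K i ≤ PJ b β n → ‖z n - D i n‖ ≤ ε / 4 := by
    intro n hn hP
    have h1 := term_far μ A hA hind b β hb hβ f g s0 t0 M G h hh hM0 hG0 hf hG hgM ω hC n (K i)
      (i ^ (e0 + 1)) (i ^ (e0 + 1)) (le_of_eq (by rw [hKi]; ring)) hP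
      (hm1 _ (by omega)) (1 / (i : ℝ) ^ e0) (by
        intro l hl
        have h2 := q6 (PJ b β n - l) (by omega) (by
          have h3 := hg' n
          have h4 : PJ b β n ≤ β * n + g' := h3
          have h5 : β * n ≤ β * i ^ (2 * e0 + 4) := Nat.mul_le_mul_left _ hn.le
          have h6 : g' * 1 ≤ g' * i ^ (2 * e0 + 4) := Nat.mul_le_mul_left _ (Nat.one_le_pow _ _ q10)
          have h7 : (β + g') * i ^ (2 * e0 + 4) = β * i ^ (2 * e0 + 4) + g' * i ^ (2 * e0 + 4) := by ring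
          omega)
        rw [div_le_iff₀ (by positivity)]
        exact h2) q8 (by omega) (q7 hC n hn)
    rw [hz, hD]
    refine h1.trans ?_
    have h2 : ((i ^ (e0 + 1) : ℕ) : ℝ) * (1 / (i : ℝ) ^ e0 / (2 * (b : ℝ) ^ 2)) = (i : ℝ) / (2 * (b : ℝ) ^ 2) := by
      push_cast
      rw [pow_succ]
      field_simp
    rw [h2]
    linarith
  have r3 : ∀ n ∈ range (i ^ (2 * e0 + 4)), ‖z n - D i n‖ ≤ (if n < b * (3 * K i) then 3 else 0) + ε / 4 := by
    intro n hn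
    rw [mem_range] at hn
    by_cases hc : n < b * (3 * K i)
    · rw [if_pos hc]
      have h1 := norm_sub_le (z n) (D i n)
      have h2 := hz1 n
      have h3 := hDn i n
      linarith
    · rw [if_neg hc, zero_add]
      refine r2 n hn ?_
      have h1 := J_lower b β hb hβ 1 le_rfl 0 n (3 * K i) (by omega)
      unfold PJ
      omega
  have r4 : ∑ n ∈ range (i ^ (2 * e0 + 4)), (if n < b * (3 * K i) then (3 : ℝ) else 0) ≤
      ε / 4 * (i : ℝ) ^ (2 * e0 + 4) := by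
    rw [← sum_filter, sum_const, nsmul_eq_mul]
    have h1 : #((range (i ^ (2 * e0 + 4))).filter fun n => n < b * (3 * K i)) ≤ b * (3 * K i) := by
      calc #((range (i ^ (2 * e0 + 4))).filter fun n => n < b * (3 * K i)) ≤ #(range (b * (3 * K i))) := by
            refine card_le_card fun n hn => ?_
            exact mem_range.2 (mem_filter.1 hn).2
        _ = _ := card_range _
    have h2 : (#((range (i ^ (2 * e0 + 4))).filter fun n => n < b * (3 * K i)) : ℝ) ≤ b * (3 * K i) := by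
      exact_mod_cast h1
    have h3 : ((K i : ℕ) : ℝ) = 4 * (i : ℝ) ^ (2 * e0 + 2) := by
      rw [hKi]
      push_cast
      ring
    rw [h3] at h2
    calc (#((range (i ^ (2 * e0 + 4))).filter fun n => n < b * (3 * K i)) : ℝ) * 3
        ≤ (b * (3 * (4 * (i : ℝ) ^ (2 * e0 + 2)))) * 3 := by gcongr
      _ = (36 * b / i) * (i : ℝ) ^ (2 * e0 + 3) := by
          rw [show 2 * e0 + 3 = (2 * e0 + 2) + 1 by ring, pow_succ (i : ℝ) (2 * e0 + 2)]
          field_simp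
          ring
      _ ≤ (ε / 4) * (i : ℝ) ^ (2 * e0 + 3) := by gcongr
      _ ≤ _ := by
          gcongr
          norm_num
  calc ‖∑ n ∈ range (i ^ (2 * e0 + 4)), z n‖
      = ‖∑ n ∈ range (i ^ (2 * e0 + 4)), D i n + ∑ n ∈ range (i ^ (2 * e0 + 4)), (z n - D i n)‖ := by
        congr 1
        rw [← sum_add_distrib]
        refine sum_congr rfl fun n _ => ?_
        ring
    _ ≤ ‖∑ n ∈ range (i ^ (2 * e0 + 4)), D i n‖ + ‖∑ n ∈ range (i ^ (2 * e0 + 4)), (z n - D i n)‖ :=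
        norm_add_le _ _
    _ ≤ ε / 4 * (i : ℝ) ^ (2 * e0 + 4) + ∑ n ∈ range (i ^ (2 * e0 + 4)),
          ((if n < b * (3 * K i) then 3 else 0) + ε / 4) := by
        gcongr
        exact (norm_sum_le _ _).trans (sum_le_sum r3)
    _ = ε / 4 * (i : ℝ) ^ (2 * e0 + 4) + (∑ n ∈ range (i ^ (2 * e0 + 4)),
          (if n < b * (3 * K i) then (3 : ℝ) else 0) + ε / 4 * (i : ℝ) ^ (2 * e0 + 4)) := by
        rw [sum_add_distrib, sum_const, card_range, nsmul_eq_mul]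
        push_cast
        ring
    _ ≤ ε / 4 * (i : ℝ) ^ (2 * e0 + 4) + (ε / 4 * (i : ℝ) ^ (2 * e0 + 4) + ε / 4 * (i : ℝ) ^ (2 * e0 + 4)) := by
        gcongr
    _ < ε * (i : ℝ) ^ (2 * e0 + 4) := by
        have : 0 < ε * (i : ℝ) ^ (2 * e0 + 4) := by positivity
        linarith

end H41.NL
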