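import Pool.Agent.H41.NL.G
import Pool.Agent.H41.NL.Alg
import Pool.Agent.H41.RM.Wall

/-! # Analytic and algebraic functions of sparse random numbers -/

set_option autoImplicit false
set_option linter.unusedSectionVars false

open Finset Filter Topology MeasureTheory ProbabilityTheory Polynomial

namespace H41.NL

open H41.SW H41.RM

/-- local data of a curved function -/
def Loc (F : ℝ → ℝ) (s t : ℝ) : Prop := ∃ M δ G : ℝ, 0 < δ ∧ 0 ≤ M ∧ 0 ≤ G ∧
  (∀ u ∈ Set.Ioo s t, ∀ v ∈ Set.Ioo s t, |F v - F u - deriv F u * (v - u)| ≤ M * (v - u) ^ 2) ∧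
  (∀ u ∈ Set.Ioo s t, |deriv F u| ≤ G) ∧
  (∀ u ∈ Set.Ioo s t, ∀ v ∈ Set.Ioo s t, |deriv F v - deriv F u| ≤ M * |v - u|) ∧
  (∀ u ∈ Set.Ioo s t, ∀ v ∈ Set.Ioo s t, δ * |v - u| ≤ |deriv F v - deriv F u|)

lemma local_data (F : ℝ → ℝ) (s t : ℝ) (hF : AnalyticOnNhd ℝ F (Set.Ioo s t)) (u0 : ℝ)
    (hu0 : u0 ∈ Set.Ioo s t) (h : deriv (deriv F) u0 ≠ 0) :
    ∃ s1 t1 : ℚ, u0 ∈ Set.Ioo (s1 : ℝ) t1 ∧ Set.Ioo (s1 : ℝ) t1 ⊆ Set.Ioo s t ∧ Loc F s1 t1 := by
  obtain ⟨c, hc⟩ : ∃ c, c = deriv (deriv F) u0 := ⟨_, rfl⟩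
  rw [← hc] at h
  have hc0 : 0 < |c| := abs_pos.2 h
  have hcont : ContinuousAt (deriv (deriv F)) u0 := (hF.deriv.deriv u0 hu0).continuousAt
  have hev : ∀ᶠ u in 𝓝 u0, |deriv (deriv F) u - c| < |c| / 2 ∧ u ∈ Set.Ioo s t := by
    have h1 : ∀ᶠ u in 𝓝 u0, |deriv (deriv F) u - c| < |c| / 2 := by
      have h2 := Metric.tendsto_nhds.1 hcont (|c| / 2) (by positivity)
      filter_upwards [h2] with u hu
      rw [Real.dist_eq, ← hc] at hu
      exact hu
    exact h1.and (isOpen_Ioo.mem_nhds hu0)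
  obtain ⟨ε, hε, hball⟩ := Metric.eventually_nhds_iff.1 hev
  obtain ⟨s1, hs1, hs2⟩ := exists_rat_btwn (show u0 - ε < u0 by linarith)
  obtain ⟨t1, ht1, ht2⟩ := exists_rat_btwn (show u0 < u0 + ε by linarith)
  have hin : ∀ u ∈ Set.Ioo (s1 : ℝ) t1, |deriv (deriv F) u - c| < |c| / 2 ∧ u ∈ Set.Ioo s t := by
    intro u hu
    refine hball ?_
    rw [Real.dist_eq, abs_lt]
    constructor <;> linarith [hu.1, hu.2]
  have hsub : Set.Ioo (s1 : ℝ) t1 ⊆ Set.Ioo s t := fun u hu => (hin u hu).2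
  refine ⟨s1, t1, ⟨hs2, ht1⟩, hsub, ?_⟩
  have hFd : ∀ u ∈ Set.Ioo (s1 : ℝ) t1, HasDerivAt F (deriv F u) u := fun u hu =>
    (hF u (hsub hu)).differentiableAt.hasDerivAt
  have hgd : ∀ u ∈ Set.Ioo (s1 : ℝ) t1, HasDerivAt (deriv F) (deriv (deriv F) u) u := fun u hu =>
    (hF.deriv u (hsub hu)).differentiableAt.hasDerivAt
  have key : ∀ u ∈ Set.Ioo (s1 : ℝ) t1, ∀ v ∈ Set.Ioo (s1 : ℝ) t1,
      |deriv F v - deriv F u - c * (v - u)| ≤ |c| / 2 * |v - u| := by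
    intro u hu v hv
    have h1 := (convex_Ioo (s1 : ℝ) t1).norm_image_sub_le_of_norm_hasDerivWithin_le
      (f := fun w => deriv F w - c * w) (f' := fun w => deriv (deriv F) w - c) (C := |c| / 2)
      (fun w hw => by
        have h2 := ((hgd w hw).sub ((hasDerivAt_id w).const_mul c)).hasDerivWithinAt (s := Set.Ioo (s1 : ℝ) t1)
        rw [mul_one] at h2
        exact h2) (fun w hw => by
        rw [Real.norm_eq_abs]
        exact (hin w hw).1.le) hu hv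
    rw [Real.norm_eq_abs, Real.norm_eq_abs] at h1
    have e1 : deriv F v - c * v - (deriv F u - c * u) = deriv F v - deriv F u - c * (v - u) := by ring
    rw [e1] at h1
    exact h1
  have hM : ∀ u ∈ Set.Ioo (s1 : ℝ) t1, ∀ v ∈ Set.Ioo (s1 : ℝ) t1,
      |deriv F v - deriv F u| ≤ 3 / 2 * |c| * |v - u| := by
    intro u hu v hv
    have h1 := key u hu v hv
    have h2 : |deriv F v - deriv F u| ≤ |deriv F v - deriv F u - c * (v - u)| + |c * (v - u)| := by
      have := abs_add_le (deriv F v - deriv F u - c * (v - u)) (c * (v - u))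
      rw [sub_add_cancel] at this
      exact this
    rw [abs_mul] at h2
    linarith
  refine ⟨3 / 2 * |c|, |c| / 2, |deriv F u0| + 3 / 2 * |c| * (t1 - s1), by positivity, by positivity, ?_, ?_,
    ?_, hM, ?_⟩
  · have : (s1 : ℝ) < t1 := hs2.trans ht1
    have h2 : 0 ≤ (t1 : ℝ) - s1 := by linarith
    positivity
  · intro u hu v hv
    have hsub2 : Set.uIcc u v ⊆ Set.Ioo (s1 : ℝ) t1 := Set.OrdConnected.uIcc_subset Set.ordConnected_Ioo hu hv
    have h1 := (convex_uIcc u v).norm_image_sub_le_of_norm_hasDerivWithin_le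
      (f := fun w => F w - deriv F u * w) (f' := fun w => deriv F w - deriv F u) (C := 3 / 2 * |c| * |v - u|)
      (fun w hw => by
        have h2 := ((hFd w (hsub2 hw)).sub ((hasDerivAt_id w).const_mul (deriv F u))).hasDerivWithinAt
          (s := Set.uIcc u v)
        rw [mul_one] at h2
        exact h2) (fun w hw => by
        rw [Real.norm_eq_abs]
        refine (hM u hu w (hsub2 hw)).trans ?_
        exact mul_le_mul_of_nonneg_left (Set.abs_sub_left_of_mem_uIcc hw)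
          (show 0 ≤ 3 / 2 * |c| by positivity)) Set.left_mem_uIcc Set.right_mem_uIcc
    rw [Real.norm_eq_abs, Real.norm_eq_abs] at h1
    have e1 : F v - deriv F u * v - (F u - deriv F u * u) = F v - F u - deriv F u * (v - u) := by ring
    rw [e1] at h1
    refine h1.trans (le_of_eq ?_)
    rw [mul_assoc, ← sq, sq_abs]
  · intro u hu
    have h1 := hM u0 ⟨hs2, ht1⟩ u hu
    have h2 : |deriv F u| ≤ |deriv F u0| + |deriv F u - deriv F u0| := by
      have := abs_add_le (deriv F u0) (deriv F u - deriv F u0)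
      rw [add_sub_cancel] at this
      exact this
    have h3 : |u - u0| ≤ (t1 : ℝ) - s1 := by
      rw [abs_le]
      constructor <;> linarith [hu.1, hu.2]
    have h4 : 3 / 2 * |c| * |u - u0| ≤ 3 / 2 * |c| * ((t1 : ℝ) - s1) := by gcongr
    linarith
  · intro u hu v hv
    have h1 := key u hu v hv
    have h2 : |c * (v - u)| ≤ |deriv F v - deriv F u - c * (v - u)| + |deriv F v - deriv F u| := by
      have := abs_sub (deriv F v - deriv F u) (deriv F v - deriv F u - c * (v - u))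
      have e1 : deriv F v - deriv F u - (deriv F v - deriv F u - c * (v - u)) = c * (v - u) := by ring
      rw [e1] at this
      linarith
    rw [abs_mul] at h2
    linarith

/-- Weyl's condition in all bases -/
def AW (y : ℝ) : Prop := ∀ β : ℕ, 2 ≤ β → WW β y

variable {Ω : Type*} [MeasurableSpace Ω] (μ : Measure Ω) [IsProbabilityMeasure μ]

lemma qq_nonneg (A : ℕ → Set Ω) (j : ℕ) : 0 ≤ qq μ A j := by
  unfold qq
  have h0 : 0 ≤ μ.real (A j) := measureReal_nonneg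
  have h1 : μ.real (A j) ≤ 1 := measureReal_le_one
  nlinarith

/-- **No atoms.** -/
lemma noatom (A : ℕ → Set Ω) (hA : ∀ j, MeasurableSet (A j)) (hind : iIndepSet A μ) (b : ℕ) (hb : 2 ≤ b)
    (e0 : ℕ) (hq : ∀ B : ℕ, ∀ᶠ i : ℕ in atTop, ∀ j, i ≤ j → j ≤ B * i ^ (2 * e0 + 4) →
      1 ≤ qq μ A j * (i : ℝ) ^ e0) (c : ℝ) :
    ∀ᵐ ω ∂μ, CC (xi A) b ω ≠ c := by
  have h1 : ∀ᶠ i : ℕ in atTop, μ.real {ω | CC (xi A) b ω = c} ≤ 3 * Real.exp (-(i : ℝ)) := by
    filter_upwards [hq 2, eventually_ge_atTop 1] with i hi hi1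
    have hir : (1 : ℝ) ≤ i := by exact_mod_cast hi1
    have h2 := conc μ A hA hind b hb 0 (i + i ^ (e0 + 1)) (Nat.zero_le _) c 0 (by simp)
    have h3 : {ω | CC (xi A) b ω = c} ⊆ {ω | c ≤ VV A b 0 ω ∧ VV A b 0 ω ≤ c + 0} := by
      intro ω hω
      rw [Set.mem_ofPred_eq] at hω ⊢
      unfold VV
      rw [range_zero, sum_empty, sub_zero, add_zero, hω]
      exact ⟨le_rfl, le_rfl⟩
    refine (measureReal_mono h3).trans (h2.trans ?_)
    have h4 : (i : ℝ) ≤ ∑ j ∈ Ico 0 (i + i ^ (e0 + 1)), qq μ A j := by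
      have h5 : ∀ j ∈ Ico i (i + i ^ (e0 + 1)), 1 / (i : ℝ) ^ e0 ≤ qq μ A j := by
        intro j hj
        rw [mem_Ico] at hj
        have h6 : i ≤ i ^ (2 * e0 + 4) := Nat.le_self_pow (by omega) i
        have h7 : i ^ (e0 + 1) ≤ i ^ (2 * e0 + 4) := Nat.pow_le_pow_right hi1 (by omega)
        have h8 := hi j hj.1 (by omega)
        rw [div_le_iff₀ (by positivity)]
        exact h8
      have h9 := sum_le_sum h5
      rw [sum_const, Nat.card_Ico, nsmul_eq_mul, Nat.add_sub_cancel_left] at h9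
      have e1 : ((i ^ (e0 + 1) : ℕ) : ℝ) * (1 / (i : ℝ) ^ e0) = i := by
        push_cast
        rw [pow_succ]
        field_simp
      rw [e1] at h9
      refine h9.trans (sum_le_sum_of_subset_of_nonneg ?_ fun j _ _ => qq_nonneg μ A j)
      intro j hj
      rw [mem_Ico] at hj ⊢
      omega
    have h10 : Real.exp (-∑ j ∈ Ico 0 (i + i ^ (e0 + 1)), qq μ A j) ≤ Real.exp (-(i : ℝ)) := by
      rw [Real.exp_le_exp]
      linarith
    linarith
  have h2 : Tendsto (fun i : ℕ => 3 * Real.exp (-(i : ℝ))) atTop (𝓝 0) := by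
    have h3 := (Real.tendsto_exp_neg_atTop_nhds_zero.comp tendsto_natCast_atTop_atTop).const_mul (3 : ℝ)
    rw [mul_zero] at h3
    exact h3
  have h3 : μ.real {ω | CC (xi A) b ω = c} ≤ 0 := ge_of_tendsto h2 h1
  have h4 : μ.real {ω | CC (xi A) b ω = c} = 0 := le_antisymm h3 measureReal_nonneg
  rw [ae_iff]
  simp only [ne_eq, not_not]
  rw [measureReal_eq_zero_iff] at h4
  exact h4

lemma notMem_countable (A : ℕ → Set Ω) (hA : ∀ j, MeasurableSet (A j)) (hind : iIndepSet A μ) (b : ℕ)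
    (hb : 2 ≤ b) (e0 : ℕ) (hq : ∀ B : ℕ, ∀ᶠ i : ℕ in atTop, ∀ j, i ≤ j → j ≤ B * i ^ (2 * e0 + 4) →
      1 ≤ qq μ A j * (i : ℝ) ^ e0) (S : Set ℝ) (hS : S.Countable) :
    ∀ᵐ ω ∂μ, CC (xi A) b ω ∉ S := by
  have h1 : ∀ᵐ ω ∂μ, ∀ u ∈ S, CC (xi A) b ω ≠ u := by
    rw [ae_ball_iff hS]
    intro u _
    exact noatom μ A hA hind b hb e0 hq u
  filter_upwards [h1] with ω hω h
  exact hω _ h rfl

/-- **One analytic function.** -/
theorem analytic_ae (A : ℕ → Set Ω) (hA : ∀ j, MeasurableSet (A j)) (hind : iIndepSet A μ) (b : ℕ)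
    (hb : 2 ≤ b) (e0 : ℕ) (hq : ∀ B : ℕ, ∀ᶠ i : ℕ in atTop, ∀ j, i ≤ j → j ≤ B * i ^ (2 * e0 + 4) →
      1 ≤ qq μ A j * (i : ℝ) ^ e0) (F : ℝ → ℝ) (s t : ℝ) (hF : AnalyticOnNhd ℝ F (Set.Ioo s t)) :
    ∀ᵐ ω ∂μ, CC (xi A) b ω ∈ Set.Ioo s t →
      AW (F (CC (xi A) b ω)) ∨ ∀ u ∈ Set.Ioo s t, deriv (deriv F) u = 0 := by
  classical
  rcases curved_or_affine F s t hF with h | h
  · exact Eventually.of_forall fun ω _ => Or.inr h
  · obtain ⟨f, hf⟩ : ∃ f : ℝ → ℝ, f = (Set.Ioo s t).indicator F := ⟨_, rfl⟩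
    obtain ⟨g, hg⟩ : ∃ g : ℝ → ℝ, g = (Set.Ioo s t).indicator (deriv F) := ⟨_, rfl⟩
    have hfm : Measurable f := by
      rw [hf, ← Set.piecewise_eq_indicator]
      exact hF.continuousOn.measurable_piecewise continuous_zero.continuousOn measurableSet_Ioo
    have hgm : Measurable g := by
      rw [hg, ← Set.piecewise_eq_indicator]
      exact hF.deriv.continuousOn.measurable_piecewise continuous_zero.continuousOn measurableSet_Ioo
    have h1 : ∀ᵐ ω ∂μ, ∀ (s1 t1 : ℚ) (β : ℕ) (z : ℤ), Set.Ioo (s1 : ℝ) t1 ⊆ Set.Ioo s t → Loc F s1 t1 →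
        2 ≤ β → z ≠ 0 → CC (xi A) b ω ∈ Set.Ioo (s1 : ℝ) t1 →
        Tendsto (avg fun n => e (z * (β : ℝ) ^ n * f (CC (xi A) b ω))) atTop (𝓝 0) := by
      rw [ae_all_iff]; intro s1
      rw [ae_all_iff]; intro t1
      rw [ae_all_iff]; intro β
      rw [ae_all_iff]; intro z
      rw [ae_all_iff]; intro hsub
      rw [ae_all_iff]; intro hloc
      rw [ae_all_iff]; intro hβ
      rw [ae_all_iff]; intro hz
      obtain ⟨M, δ, G, a1, a2, a3, a4, a5, a6, a7⟩ := hloc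
      have hfF : ∀ u ∈ Set.Ioo (s1 : ℝ) t1, f u = F u := fun u hu => by
        rw [hf, Set.indicator_of_mem (hsub hu)]
      have hgF : ∀ u ∈ Set.Ioo (s1 : ℝ) t1, g u = deriv F u := fun u hu => by
        rw [hg, Set.indicator_of_mem (hsub hu)]
      refine curved μ A hA hind b β hb hβ e0 hq f g hfm hgm s1 t1 M δ G z a1 ?_ a2 a3 ?_ ?_ ?_ ?_
      · have h2 : 1 ≤ |z| := Int.one_le_abs hz
        exact_mod_cast h2
      · intro u hu v hv
        rw [hfF u hu, hfF v hv, hgF u hu]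
        exact a4 u hu v hv
      · intro u hu
        rw [hgF u hu]
        exact a5 u hu
      · intro u hu v hv
        rw [hgF u hu, hgF v hv]
        exact a6 u hu v hv
      · intro u hu v hv
        rw [hgF u hu, hgF v hv]
        exact a7 u hu v hv
    filter_upwards [h1, notMem_countable μ A hA hind b hb e0 hq _ h] with ω h2 h3 h4
    left
    have h5 : Curved F (CC (xi A) b ω) := by
      by_contra hcon
      exact h3 ⟨h4, hcon⟩
    obtain ⟨s1, t1, k1, k2, k3⟩ := local_data F s t hF _ h4 h5.2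
    intro β hβ z hz
    have h6 := h2 s1 t1 β z k2 k3 hβ hz k1
    have h7 : f (CC (xi A) b ω) = F (CC (xi A) b ω) := by rw [hf, Set.indicator_of_mem h4]
    rw [h7] at h6
    have h8 : (fun n => e (z * (β : ℝ) ^ n * F (CC (xi A) b ω))) = ex β (F (CC (xi A) b ω)) z := by
      funext n
      unfold ex
      congr 1
      ring
    rw [h8] at h6
    exact h6

/-- **Relative normality.** -/
theorem relative_ae (A : ℕ → Set Ω) (hA : ∀ j, MeasurableSet (A j)) (hind : iIndepSet A μ) (b : ℕ)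
    (hb : 2 ≤ b) (e0 : ℕ) (hq : ∀ B : ℕ, ∀ᶠ i : ℕ in atTop, ∀ j, i ≤ j → j ≤ B * i ^ (2 * e0 + 4) →
      1 ≤ qq μ A j * (i : ℝ) ^ e0) (k : Subfield ℝ) [Countable k] :
    ∀ᵐ ω ∂μ, Transcendental k (CC (xi A) b ω) ∧
      ∀ y : ℝ, IsAlgebraic (IntermediateField.adjoin k {CC (xi A) b ω}) y →
        (∃ p q : ℝ, IsAlgebraic k p ∧ IsAlgebraic k q ∧ y = p + q * CC (xi A) b ω) ∨ AW y := by
  have hc1 : Countable k[X] := countable_poly k
  have hc2 : Countable k[X][X] := countable_poly k[X]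
  have h1 : ∀ᵐ ω ∂μ, ∀ (i : k[X][X] × ℚ × ℚ × ℚ × ℚ)
      (hi : ∃ F, Branch i.1 i.2.1 i.2.2.1 i.2.2.2.1 i.2.2.2.2 F),
      CC (xi A) b ω ∈ Set.Ioo (i.2.2.2.1 : ℝ) i.2.2.2.2 →
      AW (hi.choose (CC (xi A) b ω)) ∨
        ∀ u ∈ Set.Ioo (i.2.2.2.1 : ℝ) i.2.2.2.2, deriv (deriv hi.choose) u = 0 := by
    rw [ae_all_iff]
    intro i
    by_cases hi : ∃ F, Branch i.1 i.2.1 i.2.2.1 i.2.2.2.1 i.2.2.2.2 F
    · filter_upwards [analytic_ae μ A hA hind b hb e0 hq hi.choose _ _ hi.choose_spec.an] with ω hω _ hmem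
      exact hω hmem
    · exact Eventually.of_forall fun ω h => absurd h hi
  have h2 : ∀ᵐ ω ∂μ, CC (xi A) b ω ∉ {z : ℝ | IsAlgebraic k z} :=
    notMem_countable μ A hA hind b hb e0 hq _ (Algebraic.countable k ℝ)
  filter_upwards [h1, h2] with ω g1 g2
  obtain ⟨β, hβ⟩ : ∃ β, β = CC (xi A) b ω := ⟨_, rfl⟩
  rw [← hβ] at g1 g2 ⊢
  have htr : Transcendental k β := g2
  refine ⟨htr, fun y hy => ?_⟩
  obtain ⟨Q, hQ1, hQ2, hQ3⟩ := exists_min htr (exists_rel hy)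
  obtain ⟨s, t, s', t', m1, m2, hF⟩ := exists_box Q β y hQ2 hQ3
  have hyF : y = hF.choose β := hF.choose_spec.uniq β m1 y m2 hQ2
  rcases g1 (Q, s, t, s', t') hF m1 with h | h
  · right
    rw [hyF]; exact h
  · left
    obtain ⟨p, q, hp, hq, hpq⟩ := affine_alg Q hQ1 s t s' t' _ hF.choose_spec h m1
    exact ⟨p, q, hp, hq, hyF.trans hpq⟩

end H41.NL
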