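import Pool.Agent.H41.NL.H

/-! # Transfer to the numbers `∑ b ^ (-j-1)` -/

set_option autoImplicit false
set_option linter.unusedSectionVars false

open Finset Filter Topology MeasureTheory ProbabilityTheory

namespace H41.NL

open H41.SW H41.RM

/-- the number with the digits one at the places of `A` -/
noncomputable def on (b : ℕ) (A : Set ℕ) : ℝ := ∑' j, A.indicator (fun j => 1 / (b : ℝ) ^ (j + 1)) j

lemma on_eq {Ω : Type*} (A : ℕ → Set Ω) (b : ℕ) (ω : Ω) : on b {j | ω ∈ A j} = CC (xi A) b ω / b := by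
  unfold on CC
  rw [← tsum_div_const]
  refine tsum_congr fun j => ?_
  unfold xi
  by_cases h : ω ∈ A j
  · rw [Set.indicator_of_mem h, Set.indicator_of_mem (show j ∈ {j | ω ∈ A j} from h), pow_succ,
      div_div]
  · rw [Set.indicator_of_notMem h, Set.indicator_of_notMem (show j ∉ {j | ω ∈ A j} from h)]
    simp

lemma nat_mem (k : Subfield ℝ) (L : IntermediateField k ℝ) (b : ℕ) : (b : ℝ) ∈ L := by
  have h1 := L.algebraMap_mem (b : k)
  rwa [map_natCast] at h1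

lemma adjoin_div (k : Subfield ℝ) (c : ℝ) (b : ℕ) (hb : 2 ≤ b) :
    IntermediateField.adjoin k {c / (b : ℝ)} = IntermediateField.adjoin k {c} := by
  have hb0 : (b : ℝ) ≠ 0 := by exact_mod_cast (by omega : b ≠ 0)
  apply le_antisymm
  · rw [IntermediateField.adjoin_simple_le_iff]
    exact div_mem (IntermediateField.mem_adjoin_simple_self k c) (nat_mem k _ b)
  · rw [IntermediateField.adjoin_simple_le_iff]
    have h1 := mul_mem (IntermediateField.mem_adjoin_simple_self k (c / (b : ℝ))) (nat_mem k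
      (IntermediateField.adjoin k {c / (b : ℝ)}) b)
    rwa [div_mul_cancel₀ _ hb0] at h1

lemma alg_nat (k : Subfield ℝ) (b : ℕ) : IsAlgebraic k (b : ℝ) := by
  have h1 := isAlgebraic_algebraMap (R := k) (A := ℝ) (b : k)
  rwa [map_natCast] at h1

/-- transfer of relative normality -/
lemma transfer (k : Subfield ℝ) (c : ℝ) (b : ℕ) (hb : 2 ≤ b)
    (h : Transcendental k c ∧ ∀ y : ℝ, IsAlgebraic (IntermediateField.adjoin k {c}) y →
      (∃ p q : ℝ, IsAlgebraic k p ∧ IsAlgebraic k q ∧ y = p + q * c) ∨ AW y) :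
    Transcendental k (c / b) ∧ ∀ y : ℝ, IsAlgebraic (IntermediateField.adjoin k {c / (b : ℝ)}) y →
      (∃ p q : ℝ, IsAlgebraic k p ∧ IsAlgebraic k q ∧ y = p + q * (c / b)) ∨ AW y := by
  have hb0 : (b : ℝ) ≠ 0 := by exact_mod_cast (by omega : b ≠ 0)
  refine ⟨fun hcon => h.1 ?_, fun y hy => ?_⟩
  · have h1 := hcon.mul (alg_nat k b)
    rwa [div_mul_cancel₀ _ hb0] at h1
  · rw [adjoin_div k c b hb] at hy
    rcases h.2 y hy with ⟨p, q, hp, hq, hpq⟩ | h1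
    · left
      refine ⟨p, q * b, hp, hq.mul (alg_nat k b), ?_⟩
      rw [hpq]
      field_simp
    · exact Or.inr h1

/-- **Relative normality for the numbers `∑ b ^ (-j-1)`, all `b` at once.** -/
theorem relative_on {Ω : Type*} [MeasurableSpace Ω] (μ : Measure Ω) [IsProbabilityMeasure μ]
    (A : ℕ → Set Ω) (hA : ∀ j, MeasurableSet (A j)) (hind : iIndepSet A μ)
    (e0 : ℕ) (hq : ∀ B : ℕ, ∀ᶠ i : ℕ in atTop, ∀ j, i ≤ j → j ≤ B * i ^ (2 * e0 + 4) →
      1 ≤ qq μ A j * (i : ℝ) ^ e0) (k : Subfield ℝ) [Countable k] :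
    ∀ᵐ ω ∂μ, ∀ b : ℕ, 2 ≤ b → Transcendental k (on b {j | ω ∈ A j}) ∧
      ∀ y : ℝ, IsAlgebraic (IntermediateField.adjoin k {on b {j | ω ∈ A j}}) y →
        (∃ p q : ℝ, IsAlgebraic k p ∧ IsAlgebraic k q ∧ y = p + q * on b {j | ω ∈ A j}) ∨ AW y := by
  rw [ae_all_iff]; intro b
  rw [ae_all_iff]; intro hb
  filter_upwards [relative_ae μ A hA hind b hb e0 hq k] with ω hω
  rw [on_eq]
  exact transfer k _ b hb hω

/-! ## Existence, exponents above one half -/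

/-- the probabilities -/
noncomputable def pr (s : ℝ) (j : ℕ) : ℝ := 1 / 2 * ((j : ℝ) + 1) ^ (-s)

lemma pr_pos (s : ℝ) (j : ℕ) : 0 < pr s j := by
  unfold pr
  positivity

lemma pr_le (s : ℝ) (hs : 0 ≤ s) (j : ℕ) : pr s j ≤ 1 / 2 := by
  unfold pr
  have h1 : ((j : ℝ) + 1) ^ (-s) ≤ 1 :=
    Real.rpow_le_one_of_one_le_of_nonpos (by
      have : (0 : ℝ) ≤ j := Nat.cast_nonneg _
      linarith) (by linarith)
  linarith

lemma pr_step (s : ℝ) (hs0 : 0 ≤ s) (hs1 : s ≤ 1 / 2) (j : ℕ) :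
    pr s j ≤ ((j : ℝ) + 1) ^ (1 - s) - (j : ℝ) ^ (1 - s) := by
  have hj : (0 : ℝ) ≤ j := Nat.cast_nonneg _
  have hj1 : (0 : ℝ) < (j : ℝ) + 1 := by linarith
  have h1 := rpow_one_add_le_one_add_mul_self (s := -(1 / ((j : ℝ) + 1))) (by
    rw [neg_le_neg_iff, div_le_one hj1]
    linarith) (p := 1 - s) (by linarith) (by linarith)
  have e1 : 1 + -(1 / ((j : ℝ) + 1)) = j / (j + 1) := by
    field_simp
    ring
  rw [e1, Real.div_rpow hj hj1.le] at h1
  have h2 : 0 < ((j : ℝ) + 1) ^ (1 - s) := Real.rpow_pos_of_pos hj1 _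
  rw [div_le_iff₀ h2] at h1
  have e2 : ((j : ℝ) + 1) ^ (-s) = ((j : ℝ) + 1) ^ (1 - s) / ((j : ℝ) + 1) := by
    rw [show -s = (1 - s) - 1 by ring, Real.rpow_sub_one hj1.ne']
  unfold pr
  rw [e2]
  have e3 : (1 + (1 - s) * -(1 / ((j : ℝ) + 1))) * ((j : ℝ) + 1) ^ (1 - s) =
      ((j : ℝ) + 1) ^ (1 - s) - (1 - s) * (((j : ℝ) + 1) ^ (1 - s) / ((j : ℝ) + 1)) := by
    field_simp
    ring
  rw [e3] at h1
  have h3 : 0 < ((j : ℝ) + 1) ^ (1 - s) / ((j : ℝ) + 1) := by positivity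
  nlinarith

lemma pr_sum (s : ℝ) (hs0 : 0 ≤ s) (hs1 : s ≤ 1 / 2) (N : ℕ) : ∑ j ∈ range N, pr s j ≤ (N : ℝ) ^ (1 - s) := by
  induction N with
  | zero =>
    rw [range_zero, sum_empty]
    positivity
  | succ N ih =>
    rw [sum_range_succ]
    have := pr_step s hs0 hs1 N
    push_cast
    linarith

lemma pr_sum_lower (s : ℝ) (hs1 : s ≤ 1 / 2) (i : ℕ) :
    1 / 4 * (Real.sqrt 2) ^ i ≤ ∑ j ∈ range (2 ^ i), pr s j := by
  have h1 : ∀ j ∈ range (2 ^ i), 1 / 4 * (Real.sqrt 2) ^ i / 2 ^ i ≤ pr s j := by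
    intro j hj
    rw [mem_range] at hj
    have hj1 : (j : ℝ) + 1 ≤ (2 : ℝ) ^ i := by exact_mod_cast hj
    have hj0 : (0 : ℝ) < (j : ℝ) + 1 := by positivity
    have h2 : ((2 : ℝ) ^ i) ^ (-(1 / 2 : ℝ)) ≤ ((j : ℝ) + 1) ^ (-s) := by
      calc ((2 : ℝ) ^ i) ^ (-(1 / 2 : ℝ)) ≤ ((j : ℝ) + 1) ^ (-(1 / 2 : ℝ)) :=
            Real.rpow_le_rpow_of_nonpos hj0 hj1 (by norm_num)
        _ ≤ ((j : ℝ) + 1) ^ (-s) := Real.rpow_le_rpow_of_exponent_le (by
            have : (0 : ℝ) ≤ j := Nat.cast_nonneg _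
            linarith) (by linarith)
    have h3 : ((2 : ℝ) ^ i) ^ (-(1 / 2 : ℝ)) = (Real.sqrt 2) ^ i / 2 ^ i := by
      have e1 : (2 : ℝ) ^ i = (Real.sqrt 2 ^ i) * (Real.sqrt 2 ^ i) := by
        rw [← mul_pow, Real.mul_self_sqrt (by norm_num)]
      have e2 : Real.sqrt ((2 : ℝ) ^ i) = Real.sqrt 2 ^ i := by
        rw [e1, Real.sqrt_mul_self (by positivity)]
      rw [Real.rpow_neg (by positivity), ← Real.sqrt_eq_rpow, e2]
      rw [eq_div_iff (by positivity)]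
      rw [inv_mul_eq_div, div_eq_iff (by positivity)]
      exact e1
    unfold pr
    rw [h3] at h2
    have h4 : 0 ≤ (Real.sqrt 2) ^ i / 2 ^ i := by positivity
    have e5 : 1 / 4 * (Real.sqrt 2) ^ i / 2 ^ i = 1 / 4 * ((Real.sqrt 2) ^ i / 2 ^ i) := by ring
    rw [e5]
    linarith
  have h2 := sum_le_sum h1
  rw [sum_const, card_range, nsmul_eq_mul] at h2
  refine le_trans (le_of_eq ?_) h2
  push_cast
  field_simp

lemma pr_summ (s : ℝ) (hs1 : s ≤ 1 / 2) : Summable fun i : ℕ => 1 / ∑ j ∈ range (2 ^ i), pr s j := by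
  have h2 : (1 : ℝ) < Real.sqrt 2 := by
    rw [Real.lt_sqrt (by norm_num)]
    norm_num
  have h1 : Summable fun i : ℕ => 4 * (1 / Real.sqrt 2) ^ i :=
    (summable_geometric_of_lt_one (by positivity) (by rw [div_lt_one (by linarith)]; exact h2)).mul_left 4
  refine Summable.of_nonneg_of_le (fun i => ?_) (fun i => ?_) h1
  · have h3 := pr_sum_lower s hs1 i
    have h4 : 0 < 1 / 4 * (Real.sqrt 2) ^ i := by positivity
    have h5 : 0 < ∑ j ∈ range (2 ^ i), pr s j := by linarith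
    positivity
  · have h3 := pr_sum_lower s hs1 i
    have h4 : 0 < 1 / 4 * (Real.sqrt 2) ^ i := by positivity
    calc 1 / ∑ j ∈ range (2 ^ i), pr s j ≤ 1 / (1 / 4 * (Real.sqrt 2) ^ i) := by gcongr
      _ = 4 * (1 / Real.sqrt 2) ^ i := by
          rw [one_div_pow]
          field_simp

end H41.NL
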