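import Pool.Agent.H41.NL.I

/-! # Existence with a little more than `√N` digits -/

set_option autoImplicit false
set_option linter.unusedSectionVars false

open Finset Filter Topology MeasureTheory ProbabilityTheory

namespace H41.NL

open H41.SW H41.RM

lemma pr_hq (ε : ℝ) (hε : 0 < ε) (hε2 : ε ≤ 1 / 4) {Ω : Type*} [MeasurableSpace Ω] (μ : Measure Ω)
    (A : ℕ → Set Ω) (hp : ∀ j, μ.real (A j) = pr (1 / 2 - ε) j) :
    ∃ e0 : ℕ, ∀ B : ℕ, ∀ᶠ i : ℕ in atTop, ∀ j, i ≤ j → j ≤ B * i ^ (2 * e0 + 4) →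
      1 ≤ qq μ A j * (i : ℝ) ^ e0 := by
  obtain ⟨e0, he0⟩ := exists_nat_ge (1 / ε + 1)
  refine ⟨e0, fun B => ?_⟩
  obtain ⟨s, hs⟩ : ∃ s, s = 1 / 2 - ε := ⟨_, rfl⟩
  have hs0 : 0 ≤ s := by rw [hs]; linarith
  obtain ⟨γ, hγ⟩ : ∃ γ : ℝ, γ = e0 - s * (2 * e0 + 4) := ⟨_, rfl⟩
  have hγ0 : 0 < γ := by
    have h1 : 1 + ε ≤ ε * e0 := by
      have h2 : ε * (1 / ε + 1) ≤ ε * e0 := by gcongr
      have h3 : ε * (1 / ε + 1) = 1 + ε := by field_simp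
      linarith
    rw [hγ, hs]
    nlinarith
  have ht : Tendsto (fun i : ℕ => (1 / 4 * ((B : ℝ) + 1) ^ (-s)) * (i : ℝ) ^ γ) atTop atTop := by
    refine Tendsto.const_mul_atTop (by positivity) ?_
    exact (tendsto_rpow_atTop hγ0).comp tendsto_natCast_atTop_atTop
  filter_upwards [ht.eventually_ge_atTop 1, eventually_ge_atTop 1] with i h1 h2 j _ hj
  have hir : (1 : ℝ) ≤ i := by exact_mod_cast h2
  have hi0 : (0 : ℝ) < i := by linarith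
  have hj1 : (j : ℝ) + 1 ≤ ((B : ℝ) + 1) * (i : ℝ) ^ (2 * e0 + 4) := by
    have h3 : 1 ≤ i ^ (2 * e0 + 4) := Nat.one_le_pow _ _ h2
    have h4 : j + 1 ≤ (B + 1) * i ^ (2 * e0 + 4) := by
      have : (B + 1) * i ^ (2 * e0 + 4) = B * i ^ (2 * e0 + 4) + i ^ (2 * e0 + 4) := by ring
      omega
    exact_mod_cast h4
  have hj0 : (0 : ℝ) < (j : ℝ) + 1 := by positivity
  have h3 : ((B : ℝ) + 1) ^ (-s) * (i : ℝ) ^ (-(s * (2 * e0 + 4))) ≤ ((j : ℝ) + 1) ^ (-s) := by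
    have h4 : (((B : ℝ) + 1) * (i : ℝ) ^ (2 * e0 + 4)) ^ (-s) ≤ ((j : ℝ) + 1) ^ (-s) :=
      Real.rpow_le_rpow_of_nonpos hj0 hj1 (by linarith)
    rw [Real.mul_rpow (by positivity) (by positivity), ← Real.rpow_natCast_mul hi0.le] at h4
    have e1 : ((2 * e0 + 4 : ℕ) : ℝ) * -s = -(s * (2 * e0 + 4)) := by
      push_cast
      ring
    rw [e1] at h4
    exact h4
  have h5 : pr s j ≤ 1 / 2 := pr_le s hs0 j
  have h6 := pr_pos s j
  have h7 : 1 / 2 * pr s j ≤ qq μ A j := by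
    unfold qq
    rw [hp j, ← hs]
    nlinarith
  have e2 : (i : ℝ) ^ (-(s * (2 * e0 + 4))) * (i : ℝ) ^ e0 = (i : ℝ) ^ γ := by
    rw [← Real.rpow_natCast, ← Real.rpow_add hi0, hγ]
    congr 1
    ring
  calc (1 : ℝ) ≤ (1 / 4 * ((B : ℝ) + 1) ^ (-s)) * (i : ℝ) ^ γ := h1
    _ = 1 / 2 * (1 / 2 * (((B : ℝ) + 1) ^ (-s) * (i : ℝ) ^ (-(s * (2 * e0 + 4))))) * (i : ℝ) ^ e0 := by
        rw [← e2]
        ring
    _ ≤ 1 / 2 * (1 / 2 * ((j : ℝ) + 1) ^ (-s)) * (i : ℝ) ^ e0 := by gcongr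
    _ = 1 / 2 * pr s j * (i : ℝ) ^ e0 := by rfl
    _ ≤ qq μ A j * (i : ℝ) ^ e0 := by gcongr

/-- **Existence.** -/
theorem exists_half (k : Subfield ℝ) [Countable k] (ε : ℝ) (hε : 0 < ε) : ∃ A : Set ℕ,
    (∀ᶠ N : ℕ in atTop, ((A ∩ Set.Iio N).ncard : ℝ) ≤ (N : ℝ) ^ (1 / 2 + ε)) ∧
    ∀ b : ℕ, 2 ≤ b → Transcendental k (on b A) ∧
      ∀ y : ℝ, IsAlgebraic (IntermediateField.adjoin k {on b A}) y →
        (∃ p q : ℝ, IsAlgebraic k p ∧ IsAlgebraic k q ∧ y = p + q * on b A) ∨ AW y := by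
  classical
  obtain ⟨δ, hδ⟩ : ∃ δ, δ = min (ε / 2) (1 / 4) := ⟨_, rfl⟩
  have hδ0 : 0 < δ := by rw [hδ]; exact lt_min (by positivity) (by norm_num)
  have hδ1 : δ ≤ ε / 2 := by rw [hδ]; exact min_le_left _ _
  have hδ2 : δ ≤ 1 / 4 := by rw [hδ]; exact min_le_right _ _
  have hs0 : (0 : ℝ) ≤ 1 / 2 - δ := by linarith
  have hs1 : 1 / 2 - δ ≤ 1 / 2 := by linarith
  obtain ⟨Ω, mΩ, P, hP, A, hA, hind, hp⟩ := exists_events (pr (1 / 2 - δ)) (fun j => (pr_pos _ j).le)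
    fun j => (pr_le _ hs0 j).trans (by norm_num)
  have hE : (fun i => ∑ j ∈ range (2 ^ i), pr (1 / 2 - δ) j) = fun i => ∑ j ∈ range (2 ^ i), P.real (A j) := by
    funext i
    exact sum_congr rfl fun j _ => (hp j).symm
  have h1 := ae_count P A hA hind (fun i => ∑ j ∈ range (2 ^ i), pr (1 / 2 - δ) j) hE
    (fun i => sum_pos (fun j _ => pr_pos _ j) ⟨0, mem_range.2 (by positivity)⟩) (pr_summ _ hs1)
  obtain ⟨e0, hq⟩ := pr_hq δ hδ0 hδ2 P A hp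
  have h2 := relative_on P A hA hind e0 hq k
  obtain ⟨ω, hω1, hω2⟩ := (h1.and h2).exists
  refine ⟨{j | ω ∈ A j}, ?_, hω2⟩
  obtain ⟨i0, hi0⟩ := eventually_atTop.1 hω1
  have hev : ∀ᶠ N : ℕ in atTop, (4 : ℝ) ≤ (N : ℝ) ^ (ε - δ) :=
    ((tendsto_rpow_atTop (show 0 < ε - δ by linarith)).comp tendsto_natCast_atTop_atTop).eventually_ge_atTop 4
  filter_upwards [hev, eventually_ge_atTop (2 ^ i0 + 1)] with N hN4 hN
  have hN1 : 1 ≤ N := le_trans (Nat.le_add_left _ _) hN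
  have hNr : (1 : ℝ) ≤ N := by exact_mod_cast hN1
  obtain ⟨i, hi⟩ : ∃ i, i = Nat.log 2 N + 1 := ⟨_, rfl⟩
  have hi1 : N < 2 ^ i := by rw [hi]; exact Nat.lt_pow_succ_log_self (by norm_num) N
  have hi2 : 2 ^ i ≤ 2 * N := by
    rw [hi, pow_succ]
    have := Nat.pow_log_le_self 2 (show N ≠ 0 by omega)
    omega
  have hii : i0 ≤ i := by
    by_contra hcon
    push Not at hcon
    have : 2 ^ i ≤ 2 ^ i0 := Nat.pow_le_pow_right (by norm_num) hcon.le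
    omega
  have hc := hi0 i hii
  have hcount : (({j | ω ∈ A j} ∩ Set.Iio N).ncard : ℝ) ≤ ∑ j ∈ range (2 ^ i), xi A j ω := by
    have h3 : {j | ω ∈ A j} ∩ Set.Iio N = (((range N).filter fun j => ω ∈ A j : Finset ℕ) : Set ℕ) := by
      ext j
      simp only [Set.mem_inter_iff, Set.mem_ofPred_eq, Set.mem_Iio, coe_filter, mem_range]
      tauto
    rw [h3, Set.ncard_coe_finset]
    calc (#((range N).filter fun j => ω ∈ A j) : ℝ) = ∑ j ∈ range N, xi A j ω := by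
          rw [card_filter]
          push_cast
          refine sum_congr rfl fun j _ => ?_
          unfold xi
          by_cases h : ω ∈ A j
          · rw [if_pos h, Set.indicator_of_mem h]
          · rw [if_neg h, Set.indicator_of_notMem h]
      _ ≤ _ := by
          refine sum_le_sum_of_subset_of_nonneg (range_subset_range.2 hi1.le) fun j _ _ => ?_
          unfold xi
          exact Set.indicator_nonneg (fun _ _ => zero_le_one) _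
  have h2i : (((2 ^ i : ℕ)) : ℝ) ≤ 2 * N := by exact_mod_cast hi2
  calc (({j | ω ∈ A j} ∩ Set.Iio N).ncard : ℝ) ≤ ∑ j ∈ range (2 ^ i), xi A j ω := hcount
    _ ≤ 2 * ∑ j ∈ range (2 ^ i), pr (1 / 2 - δ) j := hc
    _ ≤ 2 * (((2 ^ i : ℕ) : ℝ)) ^ (1 - (1 / 2 - δ)) := by
        have := pr_sum (1 / 2 - δ) hs0 hs1 (2 ^ i)
        gcongr
    _ ≤ 2 * (2 * (N : ℝ)) ^ (1 - (1 / 2 - δ)) := by
        have h5 : (((2 ^ i : ℕ)) : ℝ) ^ (1 - (1 / 2 - δ)) ≤ (2 * (N : ℝ)) ^ (1 - (1 / 2 - δ)) :=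
          Real.rpow_le_rpow (by positivity) h2i (by linarith)
        gcongr
    _ = 2 * ((2 : ℝ) ^ (1 / 2 + δ) * (N : ℝ) ^ (1 / 2 + δ)) := by
        rw [Real.mul_rpow (by norm_num) (by positivity)]
        congr 3 <;> ring
    _ ≤ 2 * (2 * (N : ℝ) ^ (1 / 2 + δ)) := by
        have h5 : (2 : ℝ) ^ (1 / 2 + δ) ≤ 2 := by
          calc (2 : ℝ) ^ (1 / 2 + δ) ≤ (2 : ℝ) ^ (1 : ℝ) :=
                Real.rpow_le_rpow_of_exponent_le (by norm_num) (by linarith)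
            _ = 2 := Real.rpow_one 2
        gcongr
    _ = 4 * (N : ℝ) ^ (1 / 2 + δ) := by ring
    _ ≤ (N : ℝ) ^ (ε - δ) * (N : ℝ) ^ (1 / 2 + δ) := by gcongr
    _ = (N : ℝ) ^ (1 / 2 + ε) := by
        rw [← Real.rpow_add (by linarith)]
        congr 1
        ring

end H41.NL
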