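import Pool.Agent.H41.NL.J

/-! # Squares of numbers with very few digits are not normal -/

set_option autoImplicit false
set_option linter.unusedSectionVars false

open Finset Filter Topology

namespace H41.NL

open H41.SW H41.RM

lemma geo_le (b : ℕ) (hb : 2 ≤ b) (m : ℕ) : ∑ n ∈ range m, (b : ℝ) ^ n ≤ (b : ℝ) ^ m := by
  have hb2 : (2 : ℝ) ≤ b := by exact_mod_cast hb
  induction m with
  | zero => simp
  | succ m ih =>
    rw [sum_range_succ, pow_succ]
    have : (0 : ℝ) < (b : ℝ) ^ m := by positivity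
    nlinarith

lemma nn_pow_sum (b : ℕ) (hb : 2 ≤ b) (m N : ℕ) : ∑ n ∈ range N, nn ((b : ℝ) ^ n / (b : ℝ) ^ m) ≤ 1 := by
  have hb0 : (0 : ℝ) < b := by exact_mod_cast (by omega : 0 < b)
  have h1 : ∀ n, nn ((b : ℝ) ^ n / (b : ℝ) ^ m) ≤ if n < m then (b : ℝ) ^ n / (b : ℝ) ^ m else 0 := by
    intro n
    by_cases hn : n < m
    · rw [if_pos hn]
      exact (nn_le_abs' _).trans (le_of_eq (abs_of_pos (by positivity)))
    · rw [if_neg hn]
      have e1 : (b : ℝ) ^ n / (b : ℝ) ^ m = ((b ^ (n - m) : ℕ) : ℤ) := by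
        push_cast
        rw [div_eq_iff (by positivity), ← pow_add]
        congr 1
        omega
      have h2 := nn_le ((b : ℝ) ^ n / (b : ℝ) ^ m) ((b ^ (n - m) : ℕ) : ℤ)
      rw [← e1, sub_self, abs_zero] at h2
      exact h2
  calc ∑ n ∈ range N, nn ((b : ℝ) ^ n / (b : ℝ) ^ m)
      ≤ ∑ n ∈ range N, (if n < m then (b : ℝ) ^ n / (b : ℝ) ^ m else 0) := sum_le_sum fun n _ => h1 n
    _ = ∑ n ∈ (range N).filter (fun n => n < m), (b : ℝ) ^ n / (b : ℝ) ^ m := by rw [sum_filter]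
    _ ≤ ∑ n ∈ range m, (b : ℝ) ^ n / (b : ℝ) ^ m := by
        refine sum_le_sum_of_subset_of_nonneg (fun n hn => ?_) fun n _ _ => by positivity
        exact mem_range.2 (mem_filter.1 hn).2
    _ = (∑ n ∈ range m, (b : ℝ) ^ n) / (b : ℝ) ^ m := by rw [sum_div]
    _ ≤ 1 := div_le_one_of_le₀ (geo_le b hb m) (by positivity)

/-- the mean distance to the integers is small -/
lemma square_sum (b : ℕ) (hb : 2 ≤ b) (A : Set ℕ) (N : ℕ) :
    ∑ n ∈ range N, nn ((on b A) ^ 2 * (b : ℝ) ^ n) ≤ ((A ∩ Set.Iio N).ncard : ℝ) ^ 2 + 3 := by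
  classical
  have hb0 : (0 : ℝ) < b := by exact_mod_cast (by omega : 0 < b)
  have hb2 : (2 : ℝ) ≤ b := by exact_mod_cast hb
  obtain ⟨A', hA'⟩ : ∃ A' : ℕ → Set Unit, A' = fun j => {_x | j ∈ A} := ⟨_, rfl⟩
  have hset : {j | () ∈ A' j} = A := by
    rw [hA']
    ext j
    rfl
  obtain ⟨X, hX⟩ : ∃ X, X = CC (xi A') b () := ⟨_, rfl⟩
  have hon : on b A = X / b := by
    rw [hX, ← on_eq, hset]
  obtain ⟨S, hS⟩ : ∃ S, S = ∑ j ∈ range N, xi A' j () / (b : ℝ) ^ j := ⟨_, rfl⟩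
  have hT : |X - S| ≤ 2 / (b : ℝ) ^ N := by
    rw [hX, hS]
    exact tail_CC (xi A') b hb (xi_le A') () N
  have hX2 : |X| ≤ 2 := by
    have h1 := tail_CC (xi A') b hb (xi_le A') () 0
    rw [← hX, range_zero, sum_empty, sub_zero, pow_zero, div_one] at h1
    exact h1
  have hbN : 1 ≤ (b : ℝ) ^ N := one_le_pow₀ (by linarith)
  have hT2 : 2 / (b : ℝ) ^ N ≤ 2 := div_le_self (by norm_num) hbN
  have hS4 : |S + X| ≤ 6 := by
    have e1 : S + X = 2 * X - (X - S) := by ring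
    rw [e1]
    refine (abs_sub _ _).trans ?_
    rw [abs_mul, abs_two]
    linarith
  have hcard : ∑ j ∈ range N, xi A' j () = ((A ∩ Set.Iio N).ncard : ℝ) := by
    have h3 : A ∩ Set.Iio N = (((range N).filter fun j => j ∈ A : Finset ℕ) : Set ℕ) := by
      ext j
      simp only [Set.mem_inter_iff, Set.mem_Iio, coe_filter, mem_range, Set.mem_ofPred_eq]
      tauto
    rw [h3, Set.ncard_coe_finset, card_filter]
    push_cast
    refine sum_congr rfl fun j _ => ?_
    unfold xi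
    rw [hA']
    by_cases h : j ∈ A
    · rw [if_pos h, Set.indicator_of_mem (show () ∈ {_x : Unit | j ∈ A} from h)]
    · rw [if_neg h, Set.indicator_of_notMem (show () ∉ {_x : Unit | j ∈ A} from h)]
  have hxi : ∀ j, xi A' j () = 0 ∨ xi A' j () = 1 := by
    intro j
    unfold xi
    by_cases h : () ∈ A' j
    · rw [Set.indicator_of_mem h]; exact Or.inr rfl
    · rw [Set.indicator_of_notMem h]; exact Or.inl rfl
  have hterm : ∀ n, nn ((on b A) ^ 2 * (b : ℝ) ^ n) ≤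
      ∑ i ∈ range N, ∑ j ∈ range N, xi A' i () * xi A' j () * nn ((b : ℝ) ^ n / (b : ℝ) ^ (i + j + 2)) +
        3 * ((b : ℝ) ^ n / (b : ℝ) ^ N) := by
    intro n
    have e1 : (on b A) ^ 2 * (b : ℝ) ^ n =
        ∑ i ∈ range N, ∑ j ∈ range N, (xi A' i () * xi A' j ()) * ((b : ℝ) ^ n / (b : ℝ) ^ (i + j + 2)) +
          (X - S) * (S + X) / b ^ 2 * (b : ℝ) ^ n := by
      have e2 : S ^ 2 = ∑ i ∈ range N, ∑ j ∈ range N, (xi A' i () / (b : ℝ) ^ i) * (xi A' j () / (b : ℝ) ^ j) := by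
        rw [sq, hS, sum_mul_sum]
      have e3 : ∑ i ∈ range N, ∑ j ∈ range N, (xi A' i () * xi A' j ()) * ((b : ℝ) ^ n / (b : ℝ) ^ (i + j + 2)) =
          S ^ 2 / b ^ 2 * (b : ℝ) ^ n := by
        rw [e2, sum_div, sum_mul]
        refine sum_congr rfl fun i _ => ?_
        rw [sum_div, sum_mul]
        refine sum_congr rfl fun j _ => ?_
        rw [pow_add, pow_add]
        field_simp
      rw [e3, hon]
      field_simp
      ring
    rw [e1]
    refine (nn_add _ _).trans (add_le_add ?_ ?_)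
    · refine (nn_sum _ _).trans (sum_le_sum fun i _ => ?_)
      refine (nn_sum _ _).trans (sum_le_sum fun j _ => ?_)
      rcases hxi i with h | h
      · rw [h, zero_mul, zero_mul, zero_mul, nn_zero]
      · rcases hxi j with h' | h'
        · rw [h, h', mul_zero, zero_mul, zero_mul, nn_zero]
        · rw [h, h', mul_one, one_mul, one_mul]
    · refine (nn_le_abs' _).trans ?_
      rw [abs_mul, abs_div, abs_mul, abs_of_pos (show (0 : ℝ) < (b : ℝ) ^ n by positivity),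
        abs_of_pos (show (0 : ℝ) < (b : ℝ) ^ 2 by positivity)]
      calc |X - S| * |S + X| / (b : ℝ) ^ 2 * (b : ℝ) ^ n ≤ (2 / (b : ℝ) ^ N) * 6 / 2 ^ 2 * (b : ℝ) ^ n := by
            gcongr
        _ = _ := by ring
  calc ∑ n ∈ range N, nn ((on b A) ^ 2 * (b : ℝ) ^ n)
      ≤ ∑ n ∈ range N, (∑ i ∈ range N, ∑ j ∈ range N, xi A' i () * xi A' j () *
          nn ((b : ℝ) ^ n / (b : ℝ) ^ (i + j + 2)) + 3 * ((b : ℝ) ^ n / (b : ℝ) ^ N)) :=
        sum_le_sum fun n _ => hterm n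
    _ = ∑ i ∈ range N, ∑ j ∈ range N, xi A' i () * xi A' j () *
          ∑ n ∈ range N, nn ((b : ℝ) ^ n / (b : ℝ) ^ (i + j + 2)) +
          3 * ((∑ n ∈ range N, (b : ℝ) ^ n) / (b : ℝ) ^ N) := by
        rw [sum_add_distrib, sum_comm]
        congr 1
        · refine sum_congr rfl fun i _ => ?_
          rw [sum_comm]
          refine sum_congr rfl fun j _ => ?_
          rw [mul_sum]
        · rw [sum_div, mul_sum]
    _ ≤ ∑ i ∈ range N, ∑ j ∈ range N, xi A' i () * xi A' j () * 1 + 3 * 1 := by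
        gcongr with i _ j _
        · rcases hxi i with h | h <;> rcases hxi j with h' | h' <;> rw [h, h'] <;> norm_num
        · exact nn_pow_sum b hb _ N
        · exact div_le_one_of_le₀ (geo_le b hb N) (by positivity)
    _ = _ := by
        simp_rw [mul_one]
        rw [← hcard, sq, sum_mul_sum]

/-- **Very few digits: the square is not normal.** -/
theorem square_not_normal (b : ℕ) (hb : 2 ≤ b) (A : Set ℕ)
    (h : ∀ ε : ℝ, 0 < ε → ∃ᶠ N : ℕ in atTop, ((A ∩ Set.Iio N).ncard : ℝ) ^ 2 ≤ ε * N) :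
    ¬ Normal b ((on b A) ^ 2) := by
  intro hn
  have hb0 : (0 : ℝ) < b := by exact_mod_cast (by omega : 0 < b)
  have h1 := GG_normal b hb _ hn
  obtain ⟨c, hc⟩ : ∃ c : ℝ, c = 1 / (2 * (b : ℝ) ^ 4) := ⟨_, rfl⟩
  have hc0 : 0 < c := by rw [hc]; positivity
  rw [← hc] at h1
  obtain ⟨N1, hN1⟩ := exists_nat_gt (3 / (c / 2))
  obtain ⟨N, hN, h2, h3⟩ := ((h (c / 2) (by positivity)).and_eventually
    (h1.and (eventually_ge_atTop (N1 + 1)))).exists
  have hNr : (0 : ℝ) < N := by exact_mod_cast (by omega : 0 < N)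
  unfold GG at h2
  rw [le_div_iff₀ hNr] at h2
  have h4 := square_sum b hb A N
  have h5 : (N1 : ℝ) ≤ N := by exact_mod_cast (by omega : N1 ≤ N)
  have h6 : 3 / (c / 2) < N := lt_of_lt_of_le hN1 h5
  rw [div_lt_iff₀ (by positivity)] at h6
  linarith

end H41.NL
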