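import Pool.Agent.H41.NL.I

/-! # Existence with `N log log N / log N` digits: linear and algebraic functions together -/

set_option autoImplicit false
set_option linter.unusedSectionVars false

open Finset Filter Topology MeasureTheory ProbabilityTheory

namespace H41.NL

open H41.SW H41.RM

/-- almost sure properties and the counting bound -/
theorem exists_gen (Q : Set ℕ → Prop)
    (hQ : ∀ (Ω : Type) (_ : MeasurableSpace Ω) (P : Measure Ω) (_ : IsProbabilityMeasure P)
      (A : ℕ → Set Ω), (∀ j, MeasurableSet (A j)) → iIndepSet A P → (∀ j, P.real (A j) = pp j) →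
        ∀ᵐ ω ∂P, Q {j | ω ∈ A j}) : ∃ A : Set ℕ,
    (∀ᶠ N : ℕ in atTop, ((A ∩ Set.Iio N).ncard : ℝ) ≤ N * Real.log (Real.log N) / Real.log N) ∧ Q A := by
  classical
  obtain ⟨Ω, mΩ, P, hP, A, hA, hind, hp⟩ := exists_events pp (fun j => (pp_pos j).le)
    fun j => (pp_le j).trans (by norm_num)
  have hE : (fun i => ∑ j ∈ range (2 ^ i), pp j) = fun i => ∑ j ∈ range (2 ^ i), P.real (A j) := by
    funext i
    exact sum_congr rfl fun j _ => (hp j).symm
  have h1 := ae_count P A hA hind (fun i => ∑ j ∈ range (2 ^ i), pp j) hE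
    (fun i => sum_pos (fun j _ => pp_pos j) ⟨0, mem_range.2 (by positivity)⟩) pp_summ
  have h2 := hQ Ω mΩ P hP A hA hind hp
  obtain ⟨ω, hω1, hω2⟩ := (h1.and h2).exists
  refine ⟨{j | ω ∈ A j}, ?_, hω2⟩
  obtain ⟨i0, hi0⟩ := eventually_atTop.1 hω1
  have hev : ∀ᶠ N : ℕ in atTop, 2 ≤ Real.log N :=
    (Real.tendsto_log_atTop.comp tendsto_natCast_atTop_atTop).eventually_ge_atTop 2
  filter_upwards [hev, eventually_ge_atTop (2 ^ i0 + 16)] with N hlogN hN
  have hN16 : 16 ≤ N := le_trans (Nat.le_add_left _ _) hN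
  have hNr : (16 : ℝ) ≤ N := by exact_mod_cast hN16
  obtain ⟨i, hi⟩ : ∃ i, i = Nat.log 2 N + 1 := ⟨_, rfl⟩
  have hi1 : N < 2 ^ i := by rw [hi]; exact Nat.lt_pow_succ_log_self (by norm_num) N
  have hi2 : 2 ^ i ≤ 2 * N := by
    rw [hi, pow_succ]
    have := Nat.pow_log_le_self 2 (show N ≠ 0 by omega)
    omega
  have hii : i0 ≤ i := by
    by_contra hcon
    push Not at hcon
    have : 2 ^ i ≤ 2 ^ i0 := Nat.pow_le_pow_right (by norm_num) hcon.le
    omega
  have hc := hi0 i hii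
  have hcount : (({j | ω ∈ A j} ∩ Set.Iio N).ncard : ℝ) ≤ ∑ j ∈ range (2 ^ i), xi A j ω := by
    have h3 : {j | ω ∈ A j} ∩ Set.Iio N = (((range N).filter fun j => ω ∈ A j : Finset ℕ) : Set ℕ) := by
      ext j
      simp only [Set.mem_inter_iff, Set.mem_ofPred_eq, Set.mem_Iio, coe_filter, mem_range]
      tauto
    rw [h3, Set.ncard_coe_finset]
    calc (#((range N).filter fun j => ω ∈ A j) : ℝ) = ∑ j ∈ range N, xi A j ω := by
          rw [card_filter]
          push_cast
          refine sum_congr rfl fun j _ => ?_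
          unfold xi
          by_cases h : ω ∈ A j
          · rw [if_pos h, Set.indicator_of_mem h]
          · rw [if_neg h, Set.indicator_of_notMem h]
      _ ≤ _ := by
          refine sum_le_sum_of_subset_of_nonneg (range_subset_range.2 hi1.le) fun j _ _ => ?_
          unfold xi
          exact Set.indicator_nonneg (fun _ _ => zero_le_one) _
  have hs := pp_sum i (by omega)
  have h2i : ((2 : ℝ) ^ i) ≤ 2 * N := by exact_mod_cast hi2
  have h2i' : (N : ℝ) ≤ (2 : ℝ) ^ i := by exact_mod_cast hi1.le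
  have hll : Real.log (Real.log ((2 : ℝ) ^ i + 16)) ≤ 2 * Real.log (Real.log N) := by
    have e1 : Real.log ((2 : ℝ) ^ i + 16) ≤ (Real.log N) ^ 2 := by
      have e2 : (2 : ℝ) ^ i + 16 ≤ (N : ℝ) ^ 2 := by nlinarith
      have e3 := Real.log_le_log (by positivity) e2
      rw [Real.log_pow] at e3
      push_cast at e3
      nlinarith
    have e2 := Real.log_le_log (by
      have := log16 ((2 : ℝ) ^ i) (by positivity)
      have := Real.exp_pos 1
      linarith) e1
    rw [Real.log_pow] at e2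
    push_cast at e2
    exact e2
  have hll0 : 0 < Real.log (Real.log ((2 : ℝ) ^ i + 16)) := by
    have := loglog16 ((2 : ℝ) ^ i) (by positivity)
    linarith
  have hlogi : Real.log N ≤ Real.log ((2 : ℝ) ^ i) := Real.log_le_log (by linarith) h2i'
  have hq1 : 0 ≤ 6 * (2 : ℝ) ^ i / Real.log ((2 : ℝ) ^ i) :=
    div_nonneg (by positivity) (by linarith)
  have hq2 : 0 ≤ 2 * Real.log (Real.log N) / 64 := by linarith
  calc (({j | ω ∈ A j} ∩ Set.Iio N).ncard : ℝ) ≤ ∑ j ∈ range (2 ^ i), xi A j ω := hcount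
    _ ≤ 2 * ∑ j ∈ range (2 ^ i), pp j := hc
    _ ≤ 2 * (Real.log (Real.log ((2 : ℝ) ^ i + 16)) / 64 *
          (6 * (2 : ℝ) ^ i / Real.log ((2 : ℝ) ^ i))) := by gcongr
    _ ≤ 2 * (2 * Real.log (Real.log N) / 64 * (6 * (2 * N) / Real.log N)) := by gcongr
    _ = 3 / 4 * (N * Real.log (Real.log N) / Real.log N) := by ring
    _ ≤ N * Real.log (Real.log N) / Real.log N := by
        have h5 : 0 ≤ N * Real.log (Real.log N) / Real.log N := by
          have : 0 ≤ Real.log (Real.log N) := by linarith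
          positivity
        linarith

/-- the linear functions -/
theorem linear_on {Ω : Type*} [MeasurableSpace Ω] (P : Measure Ω) [IsProbabilityMeasure P]
    (A : ℕ → Set Ω) (hA : ∀ j, MeasurableSet (A j)) (hind : iIndepSet A P)
    (hp : ∀ j, P.real (A j) = pp j) (T : Set (ℝ × ℝ)) (hT : T.Countable) :
    ∀ᵐ ω ∂P, ∀ z ∈ T, ∀ b : ℕ, 2 ≤ b → ∀ q : ℕ, 2 ≤ q → z.1 ≠ 0 →
      ((∀ m n : ℕ, 0 < m → 0 < n → b ^ m ≠ q ^ n) ∨ (Irrational z.1 ∧ ¬ Liouville z.1)) →
      WW q (z.2 + z.1 * on b {j | ω ∈ A j}) := by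
  have hv : Tendsto (fun j : ℕ => P.real (A j) * (1 - P.real (A j)) * Real.log j) atTop atTop := by
    simp_rw [hp]
    exact pp_tendsto
  rw [ae_ball_iff hT]
  intro z _
  rw [ae_all_iff]; intro b
  rw [ae_all_iff]; intro hb
  rw [ae_all_iff]; intro q
  rw [ae_all_iff]; intro hq
  rw [ae_all_iff]; intro hz
  rw [ae_all_iff]; intro hcase
  have hb0 : (b : ℝ) ≠ 0 := by exact_mod_cast (by omega : b ≠ 0)
  have h1 : ∀ᵐ ω ∂P, ∀ h : ℤ, h ≠ 0 → Tendsto (avg (ex q (z.2 + z.1 / b * CC (xi A) b ω) h)) atTop (𝓝 0) := by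
    rw [ae_all_iff]; intro h
    rw [ae_all_iff]; intro hh
    refine weyl_events P A hA hind hv b q hb hq (z.1 / b) z.2 (div_ne_zero hz hb0) ?_ h hh
    rcases hcase with h3 | ⟨h3, h4⟩
    · exact Or.inl h3
    · right
      have hbq : ((1 : ℚ) / b) ≠ 0 := by
        have : (b : ℚ) ≠ 0 := by exact_mod_cast (by omega : b ≠ 0)
        positivity
      have e1 : z.1 / b = z.1 * (((1 : ℚ) / b : ℚ) : ℝ) := by push_cast; ring
      rw [e1]
      exact ⟨h3.mul_ratCast hbq, fun h5 => h4 (liouville_mul_rat _ _ hbq h5)⟩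
  filter_upwards [h1] with ω hω h hh
  rw [on_eq]
  have e1 : z.1 * (CC (xi A) b ω / b) = z.1 / b * CC (xi A) b ω := by ring
  rw [e1]
  exact hω h hh

lemma pp_hq {Ω : Type*} [MeasurableSpace Ω] (μ : Measure Ω) (A : ℕ → Set Ω)
    (hp : ∀ j, μ.real (A j) = pp j) : ∀ B : ℕ, ∀ᶠ i : ℕ in atTop, ∀ j, i ≤ j →
      j ≤ B * i ^ (2 * 1 + 4) → 1 ≤ qq μ A j * (i : ℝ) ^ 1 := by
  intro B
  have h1 : ∀ᶠ x : ℝ in atTop, Real.log x ≤ 1 / 1536 * x := by
    have h2 := (Real.isLittleO_log_id_atTop.def (show (0 : ℝ) < 1 / 1536 by norm_num))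
    filter_upwards [h2, eventually_ge_atTop 1] with x hx hx1
    rw [Real.norm_eq_abs, Real.norm_eq_abs, id, abs_of_nonneg (Real.log_nonneg hx1),
      abs_of_nonneg (by linarith : (0 : ℝ) ≤ x)] at hx
    exact hx
  have h2 := tendsto_natCast_atTop_atTop.eventually h1
  have h3 : ∀ᶠ i : ℕ in atTop, 256 * Real.log ((B : ℝ) + 16) ≤ i :=
    tendsto_natCast_atTop_atTop.eventually_ge_atTop _
  filter_upwards [h2, h3, eventually_ge_atTop 1] with i h2 h3 hi1 j _ hj
  have hir : (1 : ℝ) ≤ i := by exact_mod_cast hi1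
  have hi0 : (0 : ℝ) < i := by linarith
  have h0 : (0 : ℝ) ≤ j := Nat.cast_nonneg _
  have hj2 : (j : ℝ) + 16 ≤ ((B : ℝ) + 16) * (i : ℝ) ^ 6 := by
    have h4 : j + 16 ≤ (B + 16) * i ^ 6 := by
      have h5 : 1 ≤ i ^ 6 := Nat.one_le_pow _ _ hi1
      have h6 : (B + 16) * i ^ 6 = B * i ^ (2 * 1 + 4) + 16 * i ^ 6 := by ring
      omega
    exact_mod_cast h4
  have h5 : Real.log ((j : ℝ) + 16) ≤ Real.log ((B : ℝ) + 16) + 6 * Real.log i := by
    refine (Real.log_le_log (by positivity) hj2).trans ?_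
    rw [Real.log_mul (by positivity) (by positivity), Real.log_pow]
    push_cast
    exact le_rfl
  have h6 : 128 * Real.log ((j : ℝ) + 16) ≤ i := by linarith
  have h7 := log16 j h0
  have h8 := Real.exp_pos 1
  have h9 : 0 < Real.log ((j : ℝ) + 16) := by linarith
  have h10 := pp_lower j
  have h11 := pp_le j
  have h12 := pp_pos j
  have h13 : 1 / (128 * Real.log ((j : ℝ) + 16)) ≤ qq μ A j := by
    have e1 : 1 / (128 * Real.log ((j : ℝ) + 16)) = 1 / 2 * (1 / (64 * Real.log ((j : ℝ) + 16))) := by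
      field_simp
      norm_num
    rw [e1]
    unfold qq
    rw [hp j]
    nlinarith
  rw [pow_one]
  calc (1 : ℝ) = 1 / (128 * Real.log ((j : ℝ) + 16)) * (128 * Real.log ((j : ℝ) + 16)) := by
        field_simp
    _ ≤ qq μ A j * (i : ℝ) := by
        refine mul_le_mul h13 h6 (by positivity) ?_
        exact le_trans (by positivity) h13

/-- the rational numbers inside the real numbers -/
noncomputable def kQ : Subfield ℝ := (algebraMap ℚ ℝ).fieldRange

instance : Countable kQ := by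
  have h1 : (Set.range (algebraMap ℚ ℝ)).Countable := Set.countable_range _
  have h2 : ((kQ : Subfield ℝ) : Set ℝ).Countable := by
    have e1 : ((kQ : Subfield ℝ) : Set ℝ) = Set.range (algebraMap ℚ ℝ) := RingHom.coe_fieldRange _
    rw [e1]
    exact h1
  exact h2.to_subtype

lemma alg_kQ (p : ℝ) (h : IsAlgebraic kQ p) : IsAlgebraic ℚ p := by
  have hk : Algebra.IsAlgebraic ℚ kQ := by
    refine ⟨fun x => ?_⟩
    obtain ⟨q, hq⟩ := RingHom.mem_fieldRange.1 x.2
    have e1 : x = algebraMap ℚ kQ q := by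
      apply Subtype.ext
      rw [← hq]
      rfl
    rw [e1]
    exact isAlgebraic_algebraMap q
  exact IsAlgebraic.restrictScalars ℚ h

lemma alg_adjoin (β y : ℝ) (h : IsAlgebraic (IntermediateField.adjoin ℚ {β}) y) :
    IsAlgebraic (IntermediateField.adjoin kQ {β}) y := by
  have hle : IntermediateField.adjoin ℚ {β} ≤ (IntermediateField.adjoin kQ {β}).restrictScalars ℚ := by
    rw [IntermediateField.adjoin_simple_le_iff]
    exact IntermediateField.mem_adjoin_simple_self kQ β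
  obtain ⟨f, hf⟩ : ∃ f : IntermediateField.adjoin ℚ {β} →+* IntermediateField.adjoin kQ {β},
      ∀ x, ((f x : IntermediateField.adjoin kQ {β}) : ℝ) = x := by
    refine ⟨RingHom.codRestrict (algebraMap (IntermediateField.adjoin ℚ {β}) ℝ)
      (IntermediateField.adjoin kQ {β}) (fun x => hle x.2), fun x => rfl⟩
  obtain ⟨P, hP0, hP⟩ := h
  refine ⟨P.map f, (Polynomial.map_ne_zero_iff (RingHom.injective f)).2 hP0, ?_⟩
  rw [Polynomial.aeval_def, Polynomial.eval₂_map]
  rw [Polynomial.aeval_def] at hP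
  have e1 : (algebraMap (IntermediateField.adjoin kQ {β}) ℝ).comp f =
      algebraMap (IntermediateField.adjoin ℚ {β}) ℝ := by
    refine RingHom.ext fun x => ?_
    exact hf x
  rw [e1]
  exact hP

end H41.NL
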